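import Pool.Agent.P.MP_119182_lc.LU.Iface

/-! Step SUM. -/

set_option autoImplicit false

namespace Pool.Agent.P.MP_119182_lc.LU

open Finset
open scoped Classical
open NU (Run mr)

theorem sum_inv (J : ℕ) :
    ∑ i ∈ Icc 1 J, (1 : ℝ) / (i : ℝ) ^ 2 ≤ 2 - 2 / ((J : ℝ) + 1) := by
  induction J with
  | zero => simp
  | succ J ih =>
    rw [Finset.sum_Icc_succ_top (by omega)]
    have h0 : (0 : ℝ) ≤ J := Nat.cast_nonneg J
    have h1 : (1 : ℝ) / (((J + 1 : ℕ) : ℝ)) ^ 2 ≤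
        2 / ((J : ℝ) + 1) - 2 / (((J + 1 : ℕ) : ℝ) + 1) := by
      push_cast
      rw [div_sub_div _ _ (by positivity) (by positivity),
        div_le_div_iff₀ (by positivity) (by positivity)]
      nlinarith [mul_nonneg h0 h0, mul_nonneg h0 (mul_nonneg h0 h0)]
    linarith

theorem sum_tail (s : ℝ) (J : ℕ) :
    ∑ j ∈ range J, (s + 1 + (j : ℝ)) ^ 2 / 2 ^ (j + 1) =
      (s ^ 2 + 4 * s + 6) - ((s + J) ^ 2 + 4 * (s + J) + 6) / 2 ^ J := by
  induction J with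
  | zero => simp
  | succ J ih =>
    rw [Finset.sum_range_succ, ih]
    push_cast
    field_simp
    ring

theorem p_SUM :
    S_SUM := by
  refine ⟨fun J => ?_, 46, fun D J => ?_⟩
  · have h := sum_inv J
    have h2 : (0 : ℝ) ≤ 2 / ((J : ℝ) + 1) := by positivity
    linarith
  · rcases Nat.eq_zero_or_pos D with rfl | hD
    · simp
    obtain ⟨s, hs⟩ : ∃ s, s = Nat.size D := ⟨_, rfl⟩
    rw [← hs]
    have hs1 : 1 ≤ s := by rw [hs]; exact Nat.size_pos.2 hD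
    have hDs : (D : ℝ) ≤ 2 ^ s := by
      have : D < 2 ^ s := by rw [hs]; exact Nat.lt_size_self D
      exact_mod_cast this.le
    have hs1' : (1 : ℝ) ≤ s := by exact_mod_cast hs1
    have hnn : ∀ i : ℕ, (0 : ℝ) ≤ (i : ℝ) ^ 2 * min (1 : ℝ) (4 * (D : ℝ) / 2 ^ i) := by
      intro i
      exact mul_nonneg (by positivity) (le_min (by norm_num) (by positivity))
    have hsub : Icc 1 J ⊆ range (s + 1 + J) := by
      intro i hi
      simp only [mem_Icc, mem_range] at hi ⊢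
      omega
    have h1 := Finset.sum_le_sum_of_subset_of_nonneg
      (f := fun i : ℕ => (i : ℝ) ^ 2 * min (1 : ℝ) (4 * (D : ℝ) / 2 ^ i)) hsub
      (fun i _ _ => hnn i)
    rw [Finset.sum_range_add] at h1
    have h2 : ∑ i ∈ range (s + 1), (i : ℝ) ^ 2 * min (1 : ℝ) (4 * (D : ℝ) / 2 ^ i) ≤
        ((s : ℝ) + 1) * (s : ℝ) ^ 2 := by
      have : ∀ i ∈ range (s + 1), (i : ℝ) ^ 2 * min (1 : ℝ) (4 * (D : ℝ) / 2 ^ i) ≤
          (s : ℝ) ^ 2 := by
        intro i hi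
        have hi' : (i : ℝ) ≤ s := by
          have := mem_range.1 hi
          exact_mod_cast (by omega : i ≤ s)
        have hi0 : (0 : ℝ) ≤ i := Nat.cast_nonneg i
        have a1 : (i : ℝ) ^ 2 * min (1 : ℝ) (4 * (D : ℝ) / 2 ^ i) ≤ (i : ℝ) ^ 2 * 1 :=
          mul_le_mul_of_nonneg_left (min_le_left _ _) (by positivity)
        have a2 : (i : ℝ) ^ 2 ≤ (s : ℝ) ^ 2 := pow_le_pow_left₀ hi0 hi' 2
        linarith
      have h3 := Finset.sum_le_card_nsmul _ _ _ this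
      simpa using h3
    have h3 : ∑ j ∈ range J, ((s + 1 + j : ℕ) : ℝ) ^ 2 *
        min (1 : ℝ) (4 * (D : ℝ) / 2 ^ (s + 1 + j)) ≤
        4 * ∑ j ∈ range J, ((s : ℝ) + 1 + (j : ℝ)) ^ 2 / 2 ^ (j + 1) := by
      rw [Finset.mul_sum]
      refine Finset.sum_le_sum fun j _ => ?_
      have a1 : min (1 : ℝ) (4 * (D : ℝ) / 2 ^ (s + 1 + j)) ≤ 4 / 2 ^ (j + 1) := by
        refine (min_le_right _ _).trans ?_
        rw [div_le_div_iff₀ (by positivity) (by positivity)]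
        have e : (2 : ℝ) ^ (s + 1 + j) = 2 ^ s * 2 ^ (j + 1) := by ring
        rw [e]
        have p : (0 : ℝ) < 2 ^ (j + 1) := by positivity
        nlinarith [mul_le_mul_of_nonneg_right hDs p.le]
      have a2 := mul_le_mul_of_nonneg_left a1
        (show (0 : ℝ) ≤ ((s + 1 + j : ℕ) : ℝ) ^ 2 by positivity)
      refine a2.trans (le_of_eq ?_)
      push_cast
      ring
    rw [sum_tail] at h3
    have h4 : (0 : ℝ) ≤ (((s : ℝ) + J) ^ 2 + 4 * ((s : ℝ) + J) + 6) / 2 ^ J := by positivity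
    have c1 : (s : ℝ) ≤ (s : ℝ) ^ 2 := by nlinarith
    have c2 : (s : ℝ) ^ 2 ≤ (s : ℝ) ^ 3 := by nlinarith
    push_cast
    nlinarith

end Pool.Agent.P.MP_119182_lc.LU
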