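import Pool.Agent.P.MP_119182_lc.LU.Iface

/-! Step ALIVE. -/

set_option autoImplicit false

namespace Pool.Agent.P.MP_119182_lc.LU

open Finset
open scoped Classical
open NU (Run mr)

/-- The holder after a step at which the lineage is alive. -/
theorem alive_one (hLINK : S_LINK) (hPI : S_PI) (d : Run) (c : Val) (sg : ℕ) (hd : d.OK)
    (hc : OK d c) (w h : ℤ) (s t : ℕ) (hal : Al d c sg w s t) (hrv : rv d c s w) (hst : s < t)
    (hh : pos d c (s + 1) w = h) :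
    tch d s h ∧ ¬ up d s h ∧ d.x s < h ∧ h ≤ pos d c s w ∧ pos d c s w < d.rp (s + 1) h ∧
      d.lp (s + 1) h = d.x s ∧ 4 * sg ≤ c.v s h ∧ (isl d s h → 4 * sg ≤ c.v s (d.rp s h)) := by
  have hsm : s < d.m := lt_trans hst hal.lt
  have hpi : pi d c s (pos d c s w) = h := hh
  obtain ⟨hP1, hP2, hP3⟩ := (hPI d c hd).1 s hsm
  obtain ⟨hL1, hL2, -, -, -⟩ := hLINK d hd s hsm
  obtain ⟨hk, hinv, htc, hx, -⟩ := hP3 (pos d c s w) hrv.1.1
  rw [hpi] at hk hinv htc hx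
  have ht : tch d s h := htc.1 hrv.1
  have hxh : d.x s < h := hx.1 hrv.2
  have hnu : ¬ up d s h := by
    have h1 := hal.nlo s le_rfl hst
    rwa [hh] at h1
  have hd1 : 4 * sg ≤ c.v0 (s + 1) h := by
    have h1 := hal.deep (s + 1) (Nat.le_succ s) hst
    rwa [hh] at h1
  by_cases hi : isl d s h
  · have hpar : par d s h = d.rp s h := by
      unfold par
      rw [if_pos hxh]
    have hup : up d s (d.rp s h) := by
      have h1 := hi.1
      rwa [hpar] at h1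
    have hlow : low d s (d.rp s h) = h := by
      have h1 := hi.2
      rwa [hpar] at h1
    obtain ⟨-, -, -, -, -, hcase⟩ := hL1 _ hup
    rw [hlow] at hcase
    obtain ⟨hg1, hg2, hg3⟩ := hc.gap s hsm _ hup
    rw [hlow] at hg1 hg2
    obtain ⟨hA, hB⟩ := hP1 _ hup
    rw [hlow] at hA hB
    have hb := ((hd.tree s hsm.le).bnd _ hup.1.1.1 hup.1.1.2).2.2.1
    rcases hcase with ⟨-, h2, -, h4, h5, -, -⟩ | ⟨h1, -⟩
    · by_cases hhi : c.hi s (d.rp s h)
      · obtain ⟨e1, e2⟩ := hA hhi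
        rw [e2] at hg1 hinv
        rw [e1] at hg3
        refine ⟨ht, hnu, hxh, hinv.le, ?_, h4, by omega, fun _ => by omega⟩
        rw [← hinv, h5]
        exact lt_trans h2 hb
      · obtain ⟨e1, e2⟩ := hB hhi
        rw [e2] at hg1 hinv
        rw [e1] at hg3
        refine ⟨ht, hnu, hxh, ?_, ?_, h4, by omega, fun _ => by omega⟩
        · rw [← hinv]
          exact h2.le
        · rw [← hinv, h5]
          exact hb
    · exact absurd h1 (not_lt.2 hxh.le)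
  · have e : pi d c s h = h := hP2 h hnu hi
    rw [e] at hinv
    obtain ⟨e1, -⟩ := (hL2 h ht hnu hi).1 hxh
    have hb := ((hd.tree (s + 1) hsm).bnd _ hk.1 hk.2).2.2.1
    have hd0 := hal.deep s le_rfl hst.le
    rw [← hinv] at hd0
    refine ⟨ht, hnu, hxh, hinv.le, ?_, e1, le_trans hd0 (hc.le s h), fun h1 => absurd h1 hi⟩
    rw [← hinv]
    exact hb

theorem p_ALIVE (hLINK : S_LINK) (hPI : S_PI) (hSTAY : S_STAY) (hHOLD : S_HOLD) :
    S_ALIVE := by
  intro d c sg hd hc hsg w h s t hal hrv hst hh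
  have hh' : pos d c (s + 1) w = h := hh.symm
  obtain ⟨a1, a2, a3, a4, a5, a6, a7, a8⟩ := alive_one hLINK hPI d c sg hd hc w h s t hal hrv hst hh'
  refine ⟨a1, a2, a3, a4, a5, a6, a7, a8, ?_⟩
  have hsm : s < d.m := lt_trans hst hal.lt
  have hk : key d h := a1.1
  have hex : ∃ q, s + 1 ≤ q ∧ q < t + 1 ∧ d.lp (s + 1) h < d.x q ∧ d.x q < d.rp (s + 1) h := by
    by_contra hn
    obtain ⟨-, -, -, -, b5, b6⟩ := hSTAY d c hd hc (s + 1) (t + 1) h hk (by omega) hal.lt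
      (fun q h1 h2 h3 => hn ⟨q, h1, h2, h3⟩)
    have hlo := hal.lo
    rw [b5 w hh'] at hlo
    exact b6 t hst (Nat.lt_succ_self t) hlo.1
  obtain ⟨q, q1, q2, q3, q4⟩ := hex
  have hqm : q < d.m := lt_of_le_of_lt (Nat.lt_succ_iff.1 q2) hal.lt
  obtain ⟨r, hrq, hF⟩ := (hHOLD d hd).2.2.2.2.2.1 (s + 1) q _ _ q1 hqm q3 q4
  have hrt : r ≤ t := by omega
  have hN : Nx d (s + 1) h r := hF
  obtain ⟨f1, f2, f3, f4, f5⟩ := hF
  have hstay : ∀ q', s + 1 ≤ q' → q' ≤ r →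
      d.lp q' h = d.lp (s + 1) h ∧ d.rp q' h = d.rp (s + 1) h ∧ pos d c q' w = h := by
    intro q' h1 h2
    obtain ⟨b1, b2, -, -, b5, -⟩ := hSTAY d c hd hc (s + 1) q' h hk h1 (by omega)
      (fun q'' h3 h4 => f5 q'' h3 (by omega))
    exact ⟨b1, b2, b5 w hh'⟩
  obtain ⟨g1, g2, g3⟩ := hstay r f1 le_rfl
  have hd1 : 4 * sg ≤ c.v0 (s + 1) h := by
    have h1 := hal.deep (s + 1) (Nat.le_succ s) hst
    rwa [hh'] at h1
  have hxr : d.x r < h := by
    by_contra hn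
    have h0 := hc.turn s hsm h r a1 a2 hN
      ⟨fun _ => not_lt.1 hn, fun h1 => absurd h1 (not_lt.2 a3.le)⟩
    omega
  refine ⟨r, hN, hrt, ?_, ?_, fun q' h1 h2 => (hstay q' h1 h2).2.2⟩
  · unfold rv
    rw [g3]
    refine ⟨⟨hk, ?_, ?_⟩, hxr⟩
    · rw [g1]
      exact f3
    · rw [g2]
      exact f4
  · exact ⟨hrt, hal.lt, hal.key, hal.lo, fun q' h1 h2 => hal.nlo q' (by omega) h2,
      fun q' h1 h2 => hal.deep q' (by omega) h2⟩

end Pool.Agent.P.MP_119182_lc.LU
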