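import Pool.Agent.P.MP_119182_lc.LU.Iface

/-! Step ANC. -/

set_option autoImplicit false

namespace Pool.Agent.P.MP_119182_lc.LU

open Finset
open scoped Classical
open NU (Run mr)

/-- The first access time in an interval, when there is one. -/
noncomputable def anc_ft (d : Run) (st : ℕ) (a b : ℤ) : ℕ :=
  if h : ∃ s, First d st a b s then h.choose else 0

theorem p_ANC (hHOLD : S_HOLD) :
    S_ANC := by
  intro d c sg hd
  have ft : ∀ st a b s, First d st a b s → anc_ft d st a b = s := by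
    intro st a b s h
    have ex : ∃ s, First d st a b s := ⟨s, h⟩
    rw [anc_ft, dif_pos ex]
    exact (hHOLD d hd).2.2.2.2.2.2 st _ _ a b ex.choose_spec h
  have em : ∀ st h, ev d c sg st h → st ≤ d.m := by
    rintro st h ⟨-, h1 | ⟨s, h1, h2, -⟩⟩
    · exact h1.1.le
    · omega
  have mem : ∀ st h, ev d c sg st h → (st, h) ∈ EV d c sg := fun st h he =>
    mem_filter.2 ⟨mem_product.2 ⟨mem_range.2 (Nat.lt_succ_of_le (em st h he)),
      mem_Ioo.2 he.1⟩, he⟩
  constructor
  · have sub : ANC d c sg ⊆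
        (EV d c sg).image (fun p => (p.1 - 1, p.2)) ∪
        (EV d c sg).image (fun p => (p.1 - 1, p.2 + 1)) ∪
        (EV d c sg).image (fun p => (anc_ft d p.1 (d.lp p.1 p.2) p.2, p.2)) ∪
        (EV d c sg).image (fun p => (anc_ft d p.1 p.2 (d.rp p.1 p.2), d.rp p.1 p.2)) ∪
        (EV d c sg).image
          (fun p => (anc_ft d p.1 (d.lp p.1 p.2) (d.rp p.1 p.2), d.rp p.1 p.2)) := by
      rintro ⟨s, z⟩ hp
      obtain ⟨st, h, he, hc⟩ := (mem_filter.1 hp).2
      have hm := mem st h he
      simp only [mem_union, mem_image]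
      dsimp only at hc
      rcases hc with ⟨h1, h2 | h2⟩ | ⟨h1, h2⟩ | ⟨h1, h2⟩ | ⟨h1, h2⟩
      · exact Or.inl (Or.inl (Or.inl (Or.inl ⟨_, hm, by simp [h1, h2]⟩)))
      · exact Or.inl (Or.inl (Or.inl (Or.inr ⟨_, hm, by simp [h1, h2]⟩)))
      · exact Or.inl (Or.inl (Or.inr ⟨_, hm, by simp only [ft _ _ _ _ h1, h2]⟩))
      · exact Or.inl (Or.inr ⟨_, hm, by simp only [ft _ _ _ _ h1, h2]⟩)
      · exact Or.inr ⟨_, hm, by simp only [ft _ _ _ _ h1, h2]⟩
    refine (card_le_card sub).trans ?_
    refine (card_union_le _ _).trans ?_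
    refine (add_le_add (card_union_le _ _) card_image_le).trans ?_
    refine (add_le_add (add_le_add (card_union_le _ _) card_image_le) le_rfl).trans ?_
    refine (add_le_add (add_le_add (add_le_add (card_union_le _ _) card_image_le) le_rfl)
      le_rfl).trans ?_
    refine (add_le_add (add_le_add (add_le_add (add_le_add card_image_le card_image_le) le_rfl)
      le_rfl) le_rfl).trans ?_
    omega
  · intro s z ha
    refine mem_filter.2 ⟨?_, ha⟩
    obtain ⟨st, h, he, hc⟩ := ha
    have h1 := em st h he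
    have k1 := he.1.1
    have k2 := he.1.2
    have b := (hd.tree st h1).bnd h k1 k2
    rw [mem_product, mem_range, mem_Icc]
    dsimp only
    rcases hc with ⟨h1, h2 | h2⟩ | ⟨h1, h2⟩ | ⟨h1, h2⟩ | ⟨h1, h2⟩
    · omega
    · omega
    · have := h1.2.1; omega
    · have := h1.2.1; omega
    · have := h1.2.1; omega

end Pool.Agent.P.MP_119182_lc.LU
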