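import Pool.Agent.P.MP_119182_lc.LU.Iface

/-! Step AVG. -/

set_option autoImplicit false

namespace Pool.Agent.P.MP_119182_lc.LU

open Finset
open scoped Classical
open NU (Run mr)

theorem avg_cnt (M k a b : ℕ) (hk : 1 ≤ k) :
    #((Ioc M (2 * M)).filter fun s => a < k * s ∧ k * s ≤ b) ≤ min M (b - a) := by
  refine le_min ?_ ?_
  · refine (card_filter_le _ _).trans ?_
    rw [Nat.card_Ioc]
    omega
  · rw [← Nat.card_Ioc]
    refine card_le_card_of_injOn (fun s => k * s) (fun s hs => ?_) fun s _ t _ e => ?_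
    · exact mem_coe.2 (mem_Ioc.2 (mem_filter.1 (mem_coe.1 hs)).2)
    · exact Nat.eq_of_mul_eq_mul_left hk e

theorem avg_sum (d : Run) (c : Val) (M k : ℕ) (hk : 1 ≤ k) :
    ∑ s ∈ Ioc M (2 * M), UP d c (k * s) ≤
      ∑ p ∈ range d.m ×ˢ d.keys, min M (c.v p.1 p.2 - c.v0 p.1 p.2) := by
  unfold UP
  simp only [card_filter]
  rw [sum_comm]
  refine sum_le_sum fun p _ => ?_
  rw [← card_filter]
  exact avg_cnt M k _ _ hk

theorem avg_one (d : Run) (c : Val) (th : ℕ) :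
    (UP d c th : ℝ) ≤ ∑ p ∈ range d.m ×ˢ d.keys,
      min (1 : ℝ) (4 * ((c.v p.1 p.2 - c.v0 p.1 p.2 : ℕ) : ℝ) / 2 ^ 1) := by
  unfold UP
  rw [card_filter, Nat.cast_sum]
  refine sum_le_sum fun p _ => ?_
  split_ifs with h
  · have h1 : (1 : ℝ) ≤ ((c.v p.1 p.2 - c.v0 p.1 p.2 : ℕ) : ℝ) := by
      exact_mod_cast (by omega : 1 ≤ c.v p.1 p.2 - c.v0 p.1 p.2)
    rw [Nat.cast_one]
    exact le_min le_rfl (by linarith)
  · rw [Nat.cast_zero]
    exact le_min zero_le_one (by positivity)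

theorem p_AVG :
    S_AVG := by
  intro d c i hi
  rcases Nat.eq_or_lt_of_le hi with rfl | hi
  · refine ⟨1, le_rfl, by norm_num, by norm_num, ?_⟩
    rw [← mul_sum]
    push_cast
    have h1 := avg_one d c 1
    have h2 := avg_one d c (2 * 1)
    have h3 := avg_one d c (3 * 1)
    have h4 := avg_one d c (4 * 1)
    linarith
  · obtain ⟨j, rfl⟩ : ∃ j, i = j + 2 := ⟨i - 2, by omega⟩
    obtain ⟨M, hM⟩ : ∃ M : ℕ, M = 2 ^ j := ⟨_, rfl⟩
    have M0 : 0 < M := hM ▸ Nat.two_pow_pos j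
    have M1 : (0 : ℝ) < M := by exact_mod_cast M0
    obtain ⟨T, hT⟩ : ∃ T : ℕ, T = ∑ p ∈ range d.m ×ˢ d.keys, min M (c.v p.1 p.2 - c.v0 p.1 p.2) :=
      ⟨_, rfl⟩
    have hs : ∑ s ∈ Ioc M (2 * M),
        M * (UP d c s + UP d c (2 * s) + UP d c (3 * s) + UP d c (4 * s)) ≤
          ∑ _s ∈ Ioc M (2 * M), 4 * T := by
      have h1 := avg_sum d c M 1 (by norm_num)
      have h2 := avg_sum d c M 2 (by norm_num)
      have h3 := avg_sum d c M 3 (by norm_num)
      have h4 := avg_sum d c M 4 (by norm_num)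
      simp only [one_mul] at h1
      rw [← mul_sum, sum_add_distrib, sum_add_distrib, sum_add_distrib, sum_const, Nat.card_Ioc,
        smul_eq_mul, show 2 * M - M = M by omega]
      exact Nat.mul_le_mul_left _ (by omega)
    obtain ⟨s, h1, h2⟩ := exists_le_of_sum_le (nonempty_Ioc.2 (by omega)) hs
    obtain ⟨h3, h4⟩ := mem_Ioc.1 h1
    have e1 : 2 ^ (j + 2 - 1) = 2 * M := by rw [hM, show j + 2 - 1 = j + 1 by omega, pow_succ']
    have e2 : 2 ^ (j + 2) = 4 * M := by rw [hM, pow_add]; omega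
    have e3 : (2 : ℝ) ^ (j + 2) = 4 * M := by exact_mod_cast e2
    refine ⟨s, by omega, by omega, by omega, ?_⟩
    refine le_of_mul_le_mul_left ?_ M1
    have h5 : (M : ℝ) * ((UP d c s + UP d c (2 * s) + UP d c (3 * s) + UP d c (4 * s) : ℕ) : ℝ) ≤
        4 * T := by exact_mod_cast h2
    refine h5.trans (le_of_eq ?_)
    rw [hT, Nat.cast_sum, mul_sum, mul_sum]
    refine sum_congr rfl fun p _ => ?_
    rw [Nat.cast_min, e3, mul_left_comm, mul_min_of_nonneg _ _ M1.le, mul_one]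
    congr 2
    field_simp

end Pool.Agent.P.MP_119182_lc.LU
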