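import Pool.Agent.P.MP_119182_lc.LU.Iface

/-! Step COV. -/

set_option autoImplicit false

namespace Pool.Agent.P.MP_119182_lc.LU

open Finset
open scoped Classical
open NU (Run mr)

theorem cov_anc (d : Run) (c : Val) (sg s : ℕ) (z : ℤ) (hs : s < d.m) (hz : key d z)
    (hdn : dn d c sg s z) : anc d c sg s z ∧ anc d c sg s (z + 1) := by
  have hev : ev d c sg (s + 1) z := ⟨hz, Or.inr ⟨s, hs, rfl, Or.inl hdn⟩⟩
  exact ⟨⟨s + 1, z, hev, Or.inl ⟨rfl, Or.inl rfl⟩⟩, ⟨s + 1, z, hev, Or.inl ⟨rfl, Or.inr rfl⟩⟩⟩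

theorem cov_ind (hALIVE : S_ALIVE) (d : Run) (c : Val) (sg : ℕ) (hd : d.OK) (hc : OK d c)
    (hsg : 1 ≤ sg) (w : ℤ) (t0 t1 : ℕ) (I : ℕ → Prop) (G : Prop) (h1 : I t1)
    (hst : ∀ s s', t0 < s → Al d c sg w s t1 → rv d c s w → s < t1 →
      Nx d (s + 1) (pos d c (s + 1) w) s' → I s' → I s ∨ G) :
    ∀ n s, t1 - s ≤ n → t0 < s → Al d c sg w s t1 → rv d c s w → I s ∨ G := by
  intro n
  induction n with
  | zero =>
    intro s hn _ hA _
    have : s = t1 := by have := hA.le; omega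
    subst this
    exact Or.inl h1
  | succ n ih =>
    intro s hn h0 hA hr
    rcases Nat.eq_or_lt_of_le hA.le with he | hlt
    · subst he
      exact Or.inl h1
    · obtain ⟨-, -, -, -, -, -, -, -, s', hN, -, hr', hA', -⟩ :=
        hALIVE d c sg hd hc hsg w _ s t1 hA hr hlt rfl
      have hs' : s + 1 ≤ s' := hN.1
      rcases ih s' (by omega) (by omega) hA' hr' with hI | hG
      · exact hst s s' h0 hA hr hlt hN hI
      · exact Or.inr hG

theorem p_COV (hLINK : S_LINK) (hPI : S_PI) (hSTAY : S_STAY) (hHOLD : S_HOLD) (hALIVE : S_ALIVE) (hSIDE : S_SIDE) (hSTEPI : S_STEPI) (hSTEPO : S_STEPO) (hLI : S_LI) (hLO : S_LO) :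
    S_COV := by
  intro d c sg hd hc hsg w t0 t1 hD hx
  obtain ⟨hup0, hg, hAl, hsh⟩ := hD
  obtain ⟨hS1, -, hS3⟩ := hSIDE d c sg hd hc hsg w (t0 + 1) t1 hAl
  have hS3 := hS3 hx
  obtain ⟨-, -, -, -, hH5, hH6, -⟩ := hHOLD d hd
  have hle := hAl.le
  have hlt := hAl.lt
  generalize hu0 : pos d c (t0 + 1) w = u0 at hup0 hg
  have hk0 : key d u0 := hup0.1.1
  have hr : ∃ r ≤ t1, Nx d (t0 + 1) u0 r := by
    by_contra hno
    have hq : ∀ q, t0 + 1 ≤ q → q < t1 + 1 →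
        ¬ (d.lp (t0 + 1) u0 < d.x q ∧ d.x q < d.rp (t0 + 1) u0) := by
      intro q h1 h2 h3
      obtain ⟨r, hr, hF⟩ := hH6 (t0 + 1) q _ _ h1 (by omega) h3.1 h3.2
      exact hno ⟨r, by omega, hF⟩
    have e1 := (hSTAY d c hd hc (t0 + 1) (t1 + 1) u0 hk0 (by omega) (by omega) hq).2.2.2.2.2 t1
      hle (by omega)
    have e2 := (hSTAY d c hd hc (t0 + 1) t1 u0 hk0 hle (by omega)
      (fun q h1 h2 => hq q h1 (by omega))).2.2.2.2.1 w hu0
    rw [e2] at hS1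
    exact e1 hS1
  obtain ⟨r, hrt, hN⟩ := hr
  have hr0 : t0 + 1 ≤ r := hN.1
  have hrm : r < d.m := hN.2.1
  obtain ⟨elp, erp, -, -, hpos, -⟩ :=
    hSTAY d c hd hc (t0 + 1) r u0 hk0 hr0 hrm.le hN.2.2.2.2
  have hpr : pos d c r w = u0 := hpos w hu0
  have htr : tch d r u0 := ⟨hk0, by rw [elp]; exact hN.2.2.1, by rw [erp]; exact hN.2.2.2.1⟩
  have hrv : rv d c r w := hS3 r hr0 hrt (by rw [hpr]; exact htr)
  have hxr : d.x r < u0 := by have := hrv.2; rwa [hpr] at this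
  have hnice : Nice d c sg r u0 := ⟨t0, hup0, hg, hN⟩
  have hAr : Al d c sg w r t1 :=
    ⟨hrt, hlt, hAl.key, hAl.lo, fun q h1 h2 => hAl.nlo q (by omega) h2,
      fun q h1 h2 => hAl.deep q (by omega) h2⟩
  have hup1 := hAl.lo
  obtain ⟨hP1, hP2⟩ := hPI d c hd
  obtain ⟨hPa, -, hPc⟩ := hP1 t1 hlt
  have hk1 : key d (pos d c t1 w) := hS1.1
  have hback : pi d c t1 (pos d c (t1 + 1) w) = pos d c t1 w := (hPc _ hk1).2.1
  generalize hu1 : pos d c (t1 + 1) w = u1 at hup1 hsh hback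
  obtain ⟨htp, -, -, -, -, hside⟩ := (hLINK d hd t1 hlt).1 u1 hup1
  obtain ⟨hhi, hnhi⟩ := hPa u1 hup1
  by_cases hb : c.hi t1 u1
  · obtain ⟨e1, e2⟩ := hhi hb
    rw [e1] at hback
    rw [e2] at hsh
    have hs : d.x t1 < low d t1 u1 ∧ low d t1 u1 < u1 ∧ d.rp t1 (low d t1 u1) = u1 := by
      rcases hside with h | h
      · exact ⟨h.1, h.2.1, h.2.2.1⟩
      · have := h.1
        have := h.2.1
        omega
    have hI1 : InvO d c sg w t1 t1 := by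
      refine ⟨low d t1 u1, Or.inr ⟨htp, hs.1, hsh⟩, by rw [← hback]; exact hs.2.1, ?_⟩
      intro w' t' _ hrv' h1 h2
      have := (hH5 t1 hlt _ _ htp hrv'.1 (by omega)).1 hs.1.le
      omega
    rcases cov_ind hALIVE d c sg hd hc hsg w t0 t1 (InvO d c sg w t1)
      (∃ s z, anc d c sg s z ∧ (CovI d c sg w t0 t1 s z ∨ CovO d c sg w t0 t1 s z)) hI1
      (fun s s' h0 hA hv hl hN' hI => by
        rcases hSTEPO d c sg hd hc hsg w s s' t1 hA hv hl hN' hI with h | ⟨z, hz, hdn, h1, h2⟩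
        · exact Or.inl h
        · exact Or.inr ⟨s, z + 1, (cov_anc d c sg s z (by omega) hz hdn).2,
            Or.inr ⟨h0, hl.le, hv, by omega, h2⟩⟩)
      (t1 - r) r le_rfl (by omega) hAr hrv with h | h
    · obtain ⟨J, hJ, hJ1, hG⟩ := h
      obtain ⟨z, hz, h1, h2⟩ := hLO d c sg hd hc hsg r (d.lp r u0) u0 u0 J hnice
        ⟨hk0, Or.inr ⟨rfl, rfl⟩⟩ htr.2.1 (by omega) hJ
      exact ⟨r, z, hz, Or.inr ⟨by omega, hrt, hrv, by omega,
        fun w' t' a1 a2 a3 a4 => hG w' t' a1 a2 (by omega) a4⟩⟩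
    · exact h
  · obtain ⟨e1, e2⟩ := hnhi hb
    rw [e1] at hback
    rw [e2] at hsh
    have hs : low d t1 u1 < u1 ∧ d.rp t1 (low d t1 u1) = u1 := by
      rcases hside with h | h
      · exact ⟨h.2.1, h.2.2.1⟩
      · have := h.1
        omega
    have hI1 : InvI d c sg w t1 t1 := by
      refine ⟨u1, hup1.1, by rw [← hback]; exact hs.1, hsh, ?_⟩
      intro w' t' _ hrv' h1 h2
      have := (hH5 t1 hlt _ _ htp hrv'.1 (by omega)).1 (by omega)
      omega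
    rcases cov_ind hALIVE d c sg hd hc hsg w t0 t1 (InvI d c sg w t1)
      (∃ s z, anc d c sg s z ∧ (CovI d c sg w t0 t1 s z ∨ CovO d c sg w t0 t1 s z)) hI1
      (fun s s' h0 hA hv hl hN' hI => by
        rcases hSTEPI d c sg hd hc hsg w s s' t1 hA hv hl hN' hI with h | ⟨z, hz, hdn, h1, h2⟩
        · exact Or.inl h
        · exact Or.inr ⟨s, z, (cov_anc d c sg s z (by omega) hz hdn).1,
            Or.inl ⟨h0, hl.le, hv, h1, h2⟩⟩)
      (t1 - r) r le_rfl (by omega) hAr hrv with h | h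
    · obtain ⟨J, hJ, hJ1, hJ2, hG⟩ := h
      have hb0 := ((hd.tree r hrm.le).bnd u0 hk0.1 hk0.2).2.2.1
      have h5 := (hH5 r hrm _ _ htr hJ (by omega)).1 hxr.le
      obtain ⟨z, hz, h1, h2⟩ := hLI d c sg hd hc hsg r u0 J hnice hJ (by omega) hJ2 (Or.inr h5)
      rw [min_eq_left h5] at h1
      exact ⟨r, z, hz, Or.inl ⟨by omega, hrt, hrv, by omega,
        fun w' t' a1 a2 a3 a4 => hG w' t' a1 a2 a3 (by omega)⟩⟩
    · exact h

end Pool.Agent.P.MP_119182_lc.LU
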