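import Pool.Agent.P.MP_119182_lc.LU.Iface

/-! Step DEM. -/

set_option autoImplicit false

namespace Pool.Agent.P.MP_119182_lc.LU

open Finset
open scoped Classical
open NU (Run mr)

theorem dem_keys {d : Run} {y : ℤ} : y ∈ d.keys ↔ key d y := by
  simp [Run.keys, key]

theorem dem_last (P : ℕ → Prop) (t : ℕ) (h : ∃ q, q ≤ t ∧ P q) :
    ∃ q, q ≤ t ∧ P q ∧ ∀ r, q < r → r ≤ t → ¬ P r := by
  obtain ⟨q, hq, hP⟩ := h
  exact ⟨Nat.findGreatest P t, Nat.findGreatest_le t, Nat.findGreatest_spec hq hP,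
    fun r h1 h2 => Nat.findGreatest_is_greatest h1 h2⟩

theorem dem_ev (hPI : S_PI) {d : Run} {c : Val} {sg : ℕ} (hd : d.OK) (hc : OK d c) (h1 : 1 ≤ sg)
    {w : ℤ} (hw : key d w) {t : ℕ} (ht : t < d.m) (hv : sg ≤ c.v t (pos d c t w)) :
    ∃ s, s ≤ t ∧ (s, pos d c s w) ∈ EV d c sg := by
  obtain ⟨hA, hB⟩ := hPI d c hd
  obtain ⟨s, hs, hlt, hmax⟩ := dem_last (fun s => c.v0 s (pos d c s w) < sg) t
    ⟨0, Nat.zero_le _, by rw [hc.zero]; omega⟩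
  have hk := (hB s (by omega)).1 w hw
  refine ⟨s, hs, mem_filter.2 ⟨mem_product.2 ⟨mem_range.2 (by simp only; omega), dem_keys.2 hk⟩,
    hk, Or.inl ⟨by simp only; omega, hlt, ?_⟩⟩⟩
  rcases hs.eq_or_lt with rfl | hs'
  · exact hv
  · have h2 := not_lt.1 (hmax (s + 1) (by omega) hs')
    have h3 := hc.mono s (by omega) _ ((hB (s + 1) (by omega)).1 w hw)
    have h4 : pi d c s (pos d c (s + 1) w) = pos d c s w := ((hA s (by omega)).2.2 _ hk).2.1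
    rw [h4] at h3
    exact h2.trans h3

theorem p_DEM (hLINK : S_LINK) (hPI : S_PI) (hPAIR : S_PAIR) :
    S_DEM := by
  intro d c sg G0 G1 hd hc h1 h0 h01 h4
  have hP := hPAIR d c sg hd hc h1
  obtain ⟨hA, hB⟩ := hPI d c hd
  set S := (LK d).filter fun p => G0 ≤ c.g p.1 p.2 ∧ c.g p.1 p.2 < G1 with hS
  have hm : ∀ p ∈ S, p.1 < d.m ∧ key d p.2 ∧ up d p.1 p.2 ∧ G0 ≤ c.g p.1 p.2 ∧
      c.g p.1 p.2 < G1 := by
    intro p hp
    obtain ⟨a, b⟩ := mem_filter.1 hp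
    obtain ⟨a1, a2⟩ := mem_filter.1 a
    exact ⟨mem_range.1 (mem_product.1 a1).1, dem_keys.1 (mem_product.1 a1).2, a2, b⟩
  set Q : ℕ × ℤ → Prop := fun p => ∃ w, key d w ∧ pos d c (p.1 + 1) w = p.2 ∧
    ∃ q, q < p.1 ∧ up d q (pos d c (q + 1) w) ∧ G0 ≤ c.g q (pos d c (q + 1) w) with hQ
  have hsplit := card_filter_add_card_filter_not (s := S) Q
  have hA' : #(S.filter fun p => ¬ Q p) ≤ #(EV d c sg) := by
    refine card_le_card_of_forall_subsingleton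
      (fun p e => ∃ w, key d w ∧ pos d c (p.1 + 1) w = p.2 ∧ pos d c e.1 w = e.2) ?_ ?_
    · intro p hp
      obtain ⟨a1, a2, a3, a4, -⟩ := hm p (mem_filter.1 hp).1
      obtain ⟨w, hw, hwp⟩ := (hB (p.1 + 1) a1).2.2 _ a2
      have e1 : pi d c p.1 p.2 = pos d c p.1 w := by
        rw [← hwp]
        exact ((hA p.1 a1).2.2 _ ((hB p.1 a1.le).1 w hw)).2.1
      have e2 := (hc.gap p.1 a1 _ a3).2.2
      rw [e1] at e2
      obtain ⟨s, -, hs⟩ := dem_ev hPI hd hc h1 hw a1 (by omega)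
      exact ⟨_, hs, w, hw, hwp, rfl⟩
    · rintro e he p ⟨hp, w, hw, hwp, hwe⟩ p' ⟨hp', w', hw', hwp', hwe'⟩
      have he1 : e.1 ≤ d.m := Nat.lt_succ_iff.1 (mem_range.1 (mem_product.1 (mem_filter.1 he).1).1)
      obtain rfl : w = w' := (hB e.1 he1).2.1 w w' hw hw' (hwe.trans hwe'.symm)
      obtain ⟨b1, b2⟩ := mem_filter.1 (mem_coe.1 hp)
      obtain ⟨b1', b2'⟩ := mem_filter.1 (mem_coe.1 hp')
      obtain ⟨-, -, a3, a4, -⟩ := hm p b1
      obtain ⟨-, -, a3', a4', -⟩ := hm p' b1'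
      have e1 : p.1 = p'.1 := by
        rcases lt_trichotomy p.1 p'.1 with h | h | h
        · exact (b2' ⟨w, hw, hwp', p.1, h, hwp ▸ a3, hwp ▸ a4⟩).elim
        · exact h
        · exact (b2 ⟨w, hw, hwp, p'.1, h, hwp' ▸ a3', hwp' ▸ a4'⟩).elim
      exact Prod.ext e1 (by rw [← hwp, ← hwp', e1])
  have hB' : #(S.filter Q) ≤ 2 * #(EV d c sg) + #(DEM d c sg) := by
    refine le_trans (card_le_card_of_forall_subsingleton
      (fun p (e : ℤ × ℕ × ℕ) => pos d c (p.1 + 1) e.1 = p.2 ∧ e.2.1 < p.1 ∧ ∀ q, e.2.1 < q →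
        q < p.1 → ¬ (up d q (pos d c (q + 1) e.1) ∧ G0 ≤ c.g q (pos d c (q + 1) e.1))) ?_ ?_) hP
    · intro p hp
      obtain ⟨b1, w, hw, hwp, q, hq, hq'⟩ := mem_filter.1 hp
      obtain ⟨a1, -, a3, -, a5⟩ := hm p b1
      obtain ⟨t0, c1, c2, c3⟩ := dem_last
        (fun q => up d q (pos d c (q + 1) w) ∧ G0 ≤ c.g q (pos d c (q + 1) w)) (p.1 - 1)
        ⟨q, by omega, hq'⟩
      have hex : ∃ r, t0 < r ∧ up d r (pos d c (r + 1) w) := ⟨p.1, by omega, hwp ▸ a3⟩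
      have f1 := Nat.find_spec hex
      have f2 : Nat.find hex ≤ p.1 := Nat.find_min' hex ⟨by omega, hwp ▸ a3⟩
      refine ⟨(w, t0, Nat.find hex), mem_filter.2 ⟨mem_product.2 ⟨dem_keys.2 hw,
        mem_product.2 ⟨mem_range.2 (by simp only; omega), mem_range.2 (by simp only; omega)⟩⟩,
        f1.1, c2.1, h0.trans c2.2, f1.2, ?_, fun r r1 r2 r3 => Nat.find_min hex r2 ⟨r1, r3⟩⟩,
        hwp, by simp only; omega, fun r r1 r2 => c3 r r1 (by omega)⟩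
      rcases f2.eq_or_lt with e | e
      · simp only [e, hwp]
        omega
      · have := c3 _ f1.1 (by omega)
        have h5 : ¬ G0 ≤ c.g (Nat.find hex) (pos d c (Nat.find hex + 1) w) :=
          fun h => this ⟨f1.2, h⟩
        simp only
        omega
    · rintro e - p ⟨hp, hwp, h2, h3⟩ p' ⟨hp', hwp', h2', h3'⟩
      obtain ⟨-, -, a3, a4, -⟩ := hm p (mem_filter.1 (mem_coe.1 hp)).1
      obtain ⟨-, -, a3', a4', -⟩ := hm p' (mem_filter.1 (mem_coe.1 hp')).1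
      have e1 : p.1 = p'.1 := by
        rcases lt_trichotomy p.1 p'.1 with h | h | h
        · exact (h3' p.1 h2 h ⟨hwp ▸ a3, hwp ▸ a4⟩).elim
        · exact h
        · exact (h3 p'.1 h2' h ⟨hwp' ▸ a3', hwp' ▸ a4'⟩).elim
      exact Prod.ext e1 (by rw [← hwp, ← hwp', e1])
  omega

end Pool.Agent.P.MP_119182_lc.LU
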