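import Pool.Agent.P.MP_119182_lc.LU.Iface

/-! Step DOWNV. -/

set_option autoImplicit false

namespace Pool.Agent.P.MP_119182_lc.LU

open Finset
open scoped Classical
open NU (Run mr)

/-- The invariant of the backward induction. -/
def downv_K (d : Run) (c : Val) (sg r : ℕ) (a b : ℤ) (q : ℕ) : Prop :=
  ∃ h t, Hold d q a b h ∧ sg ≤ c.v q h ∧ First d q a b r ∧ Nx d q h t ∧
    ¬ (a < d.x t ∧ d.x t < b) ∧ d.x t ≠ h

lemma downv_now {d : Run} {q : ℕ} {h : ℤ} (hq : q < d.m) (ht : tch d q h) : Nx d q h q :=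
  ⟨le_rfl, hq, ht.2.1, ht.2.2, fun _ h1 h2 => absurd h1 (not_le.2 h2)⟩

lemma downv_first {d : Run} {q r : ℕ} {a b : ℤ} (h : First d (q + 1) a b r)
    (hx : ¬ (a < d.x q ∧ d.x q < b)) : First d q a b r := by
  obtain ⟨h1, h2, h3, h4, h5⟩ := h
  refine ⟨by omega, h2, h3, h4, fun k k1 k2 => ?_⟩
  rcases Nat.eq_or_lt_of_le k1 with e | e
  · exact e ▸ hx
  · exact h5 k e k2

lemma downv_step (hLINK : S_LINK) (hPI : S_PI) (hSTAY : S_STAY) (hHOLD : S_HOLD)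
    (d : Run) (c : Val) (sg : ℕ) (hd : d.OK) (hc : OK d c) (hsg : 1 ≤ sg) (r : ℕ) (y : ℤ)
    (hy : key d y) (q : ℕ) (h : ℤ) (t : ℕ) (hH : Hold d (q + 1) (d.lp r y) (d.rp r y) h)
    (hv : sg ≤ c.v0 (q + 1) h) (hF : First d (q + 1) (d.lp r y) (d.rp r y) r)
    (hN : Nx d (q + 1) h t) (ho : ¬ (d.lp r y < d.x t ∧ d.x t < d.rp r y)) (hne : d.x t ≠ h) :
    Nice d c sg r y ∨ downv_K d c sg r (d.lp r y) (d.rp r y) q := by
  have hq : q < d.m := by have := hF.1; have := hF.2.1; omega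
  obtain ⟨L1, L2, L3, -, L5⟩ := hLINK d hd q hq
  obtain ⟨P1, P2, -⟩ := (hPI d c hd).1 q hq
  obtain ⟨hk, hH⟩ := hH
  have hab : d.lp r y < d.rp r y := lt_trans hF.2.2.1 hF.2.2.2.1
  have hX : ¬ (d.lp r y < d.x q ∧ d.x q < d.rp r y) := by
    rintro ⟨x1, x2⟩
    have := L5 h hk
    omega
  have hF' := downv_first hF hX
  have hm := hc.mono q hq h hk
  have n1 := hN.2.2.1
  have n2 := hN.2.2.2.1
  by_cases ht : tch d q h
  · by_cases hu : up d q h
    · obtain ⟨tl, -, -, -, -, hs⟩ := L1 h hu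
      have he := hc.ent q hq h t hu hN
      obtain ⟨p1, p2⟩ := P1 h hu
      right
      by_cases hi : c.hi q h
      · rw [(p1 hi).1] at hm
        refine ⟨h, q, ⟨hk, ?_⟩, le_trans hv hm, hF', downv_now hq ht, hX, by omega⟩
        by_contra hcon
        have : c.v0 (q + 1) h = 0 :=
          he (fun _ => ⟨fun _ => by omega, fun _ => by omega⟩) (fun e => absurd hi e)
        omega
      · rw [(p2 hi).1] at hm
        refine ⟨low d q h, q, ⟨tl.1, ?_⟩, le_trans hv hm, hF', downv_now hq tl, hX, by omega⟩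
        by_contra hcon
        have : c.v0 (q + 1) h = 0 :=
          he (fun e => absurd e hi) (fun _ => ⟨fun _ => by omega, fun _ => by omega⟩)
        omega
    · have hx : h ≠ d.x q := fun e => by
        have := hc.acc q hq
        rw [← e] at this
        omega
      have htu := hc.turn q hq h t ht hu hN
      by_cases hl : isl d q h
      · obtain ⟨hu', el⟩ := hl
        obtain ⟨-, -, -, -, -, hs⟩ := L1 _ hu'
        have hg := (hc.gap q hq _ hu').2.1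
        rw [el] at hs hg
        left
        have hr : d.lp (q + 1) (par d q h) = d.lp r y ∧ d.rp (q + 1) (par d q h) = d.rp r y := by
          by_contra hcon
          have : c.v0 (q + 1) h = 0 := htu ⟨fun _ => by omega, fun _ => by omega⟩
          omega
        have hs' := hSTAY d c hd hc (q + 1) r _ hu'.1.1 hF.1 hF.2.1.le
          (by rw [hr.1, hr.2]; exact hF.2.2.2.2)
        have e : par d q h = y := (hHOLD d hd).2.2.2.1 r hF.2.1.le _ _ hu'.1.1 hy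
          (hs'.1.trans hr.1) (hs'.2.1.trans hr.2)
        refine ⟨q, e ▸ hu', e ▸ le_trans hv hg, ?_⟩
        rw [← e, Nx, hr.1, hr.2]
        exact hF
      · obtain ⟨k1, k2⟩ := L2 h ht hu hl
        rw [P2 h hu hl] at hm
        right
        refine ⟨h, q, ⟨hk, ?_⟩, le_trans hv hm, hF', downv_now hq ht, hX, hx.symm⟩
        by_contra hcon
        have : c.v0 (q + 1) h = 0 := htu ⟨fun _ => by omega, fun _ => by omega⟩
        omega
  · obtain ⟨e1, e2, -, -⟩ := L3 h hk ht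
    have ho' := hc.off q hq h hk ht
    right
    refine ⟨h, t, ⟨hk, by rw [← e1, ← e2]; exact hH⟩, ho' ▸ hv, hF', ?_, ho, hne⟩
    rw [Nx, e1, e2] at hN
    exact downv_first hN fun e => ht ⟨hk, e⟩

lemma downv_ind (hLINK : S_LINK) (hPI : S_PI) (hSTAY : S_STAY) (hHOLD : S_HOLD)
    (d : Run) (c : Val) (sg : ℕ) (hd : d.OK) (hc : OK d c) (hsg : 1 ≤ sg) (r : ℕ) (y : ℤ)
    (hy : key d y) (q : ℕ) (hK : downv_K d c sg r (d.lp r y) (d.rp r y) q) :
    Nice d c sg r y ∨ anc d c sg r (d.rp r y) := by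
  induction q with
  | zero =>
    obtain ⟨h, t, hH, hv, hF, -, -, -⟩ := hK
    have hq : 0 < d.m := lt_of_le_of_lt hF.1 hF.2.1
    have h0 : c.v0 0 h < sg := by rw [hc.zero]; omega
    right
    refine ⟨0, h, ⟨hH.1, Or.inl ⟨hq, h0, hv⟩⟩, ?_⟩
    rcases hH.2 with ⟨e1, e2⟩ | ⟨e1, e2⟩
    · exact Or.inr (Or.inr (Or.inl ⟨by rw [e2, e1]; exact hF, e2.symm⟩))
    · exact Or.inr (Or.inl ⟨by rw [e2, e1]; exact hF, e1.symm⟩)
  | succ q ih =>
    obtain ⟨h, t, hH, hv, hF, hN, ho, hne⟩ := hK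
    by_cases h0 : c.v0 (q + 1) h < sg
    · have hq : q + 1 < d.m := lt_of_le_of_lt hF.1 hF.2.1
      right
      refine ⟨q + 1, h, ⟨hH.1, Or.inl ⟨hq, h0, hv⟩⟩, ?_⟩
      rcases hH.2 with ⟨e1, e2⟩ | ⟨e1, e2⟩
      · exact Or.inr (Or.inr (Or.inl ⟨by rw [e2, e1]; exact hF, e2.symm⟩))
      · exact Or.inr (Or.inl ⟨by rw [e2, e1]; exact hF, e1.symm⟩)
    · exact (downv_step hLINK hPI hSTAY hHOLD d c sg hd hc hsg r y hy q h t hH (not_lt.1 h0) hF
        hN ho hne).elim Or.inl ih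

theorem p_DOWNV (hLINK : S_LINK) (hPI : S_PI) (hSTAY : S_STAY) (hHOLD : S_HOLD) :
    S_DOWNV := by
  intro d c sg hd hc hsg r y y' ⟨s, hu, hg, hN⟩ hy hH
  have hs : s < d.m := by have := hN.1; have := hN.2.1; omega
  obtain ⟨L1, -, -, -, -⟩ := hLINK d hd s hs
  obtain ⟨P1, -, -⟩ := (hPI d c hd).1 s hs
  obtain ⟨tl, -, -, -, -, hl⟩ := L1 y' hu
  obtain ⟨e1, e2, -⟩ := hSTAY d c hd hc (s + 1) r y' hu.1.1 hN.1 hN.2.1.le hN.2.2.2.2
  obtain ⟨g1, -, g2⟩ := hc.gap s hs y' hu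
  obtain ⟨p1, p2⟩ := P1 y' hu
  have hv : sg ≤ c.v s y' ∧ sg ≤ c.v s (low d s y') := by
    by_cases hi : c.hi s y'
    · rw [(p1 hi).2] at g1
      rw [(p1 hi).1] at g2
      omega
    · rw [(p2 hi).2] at g1
      rw [(p2 hi).1] at g2
      omega
  obtain ⟨hk, hH⟩ := hH
  have y1 := hy.2.1
  have y2 := hy.2.2
  have u1 := hu.1.2.1
  have u2 := hu.1.2.2
  have hb := (hd.tree (s + 1) hs).bnd y' hk.1 hk.2
  have hX : ¬ (d.lp r y < d.x s ∧ d.x s < d.rp r y) := by omega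
  have hF : First d s (d.lp r y) (d.rp r y) r := by
    refine downv_first ⟨hN.1, hN.2.1, y1, y2, fun k k1 k2 e => hN.2.2.2.2 k k1 k2 ?_⟩ hX
    omega
  refine downv_ind hLINK hPI hSTAY hHOLD d c sg hd hc hsg r y hy.1 s ?_
  by_cases hc' : (y' = d.lp r y ∧ d.rp s y' = d.rp r y) ∨ (y' = d.rp r y ∧ d.lp s y' = d.lp r y)
  · exact ⟨y', s, ⟨hk, hc'⟩, hv.1, hF, downv_now hs hu.1, hX, by omega⟩
  · exact ⟨low d s y', s, ⟨tl.1, by omega⟩, hv.2, hF, downv_now hs tl, hX, by omega⟩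

end Pool.Agent.P.MP_119182_lc.LU
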