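import Pool.Agent.P.MP_119182_lc.LU.Iface

/-! Step EVC. -/

set_option autoImplicit false

namespace Pool.Agent.P.MP_119182_lc.LU

open Finset
open scoped Classical
open NU (Run mr)

theorem evc_dn (hPI : S_PI) (d : Run) (c : Val) (hd : d.OK) (hc : OK d c) (th : ℕ) :
    #((range d.m ×ˢ d.keys).filter fun p =>
      c.v0 (p.1 + 1) p.2 < th ∧ th ≤ c.v p.1 (pi d c p.1 p.2)) ≤ UP d c th := by
  rcases Nat.eq_zero_or_pos th with h0 | h0
  · rw [filter_false_of_mem fun p _ h => by omega]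
    simp
  have hk : ∀ y, y ∈ d.keys ↔ key d y := fun y => by simp [Run.keys, key]
  have step : ∀ s < d.m, #(d.keys.filter fun y => th ≤ c.v0 (s + 1) y) +
      #(d.keys.filter fun y => c.v0 (s + 1) y < th ∧ th ≤ c.v s (pi d c s y)) ≤
      #(d.keys.filter fun y => th ≤ c.v0 s y) +
      #(d.keys.filter fun y => c.v0 s y < th ∧ th ≤ c.v s y) := by
    intro s hs
    have hp := ((hPI d c hd).1 s hs).2.2
    have a1 : #(d.keys.filter fun y => th ≤ c.v s y) ≤ #(d.keys.filter fun y => th ≤ c.v0 s y) +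
        #(d.keys.filter fun y => c.v0 s y < th ∧ th ≤ c.v s y) := by
      refine le_trans (card_le_card fun y hy => ?_) (card_union_le _ _)
      simp only [mem_filter, mem_union] at hy ⊢
      by_cases h : th ≤ c.v0 s y
      · exact Or.inl ⟨hy.1, h⟩
      · exact Or.inr ⟨hy.1, by omega, hy.2⟩
    have a2 : #(d.keys.filter fun y => th ≤ c.v s (pi d c s y)) ≤
        #(d.keys.filter fun y => th ≤ c.v s y) := by
      refine card_le_card_of_injOn (pi d c s) (fun y hy => ?_) fun y hy y' hy' e => ?_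
      · have hy' := mem_filter.1 (mem_coe.1 hy)
        exact mem_coe.2 (mem_filter.2 ⟨(hk _).2 (hp y ((hk y).1 hy'.1)).1, hy'.2⟩)
      · have e1 := (hp y ((hk y).1 (mem_filter.1 (mem_coe.1 hy)).1)).2.1
        have e2 := (hp y' ((hk y').1 (mem_filter.1 (mem_coe.1 hy')).1)).2.1
        rw [← e1, e, e2]
    have a3 : #(d.keys.filter fun y => th ≤ c.v0 (s + 1) y) +
        #(d.keys.filter fun y => c.v0 (s + 1) y < th ∧ th ≤ c.v s (pi d c s y)) ≤
        #(d.keys.filter fun y => th ≤ c.v s (pi d c s y)) := by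
      rw [← card_union_of_disjoint]
      · refine card_le_card fun y hy => ?_
        simp only [mem_filter, mem_union] at hy ⊢
        rcases hy with hy | hy
        · exact ⟨hy.1, hy.2.trans (hc.mono s hs y ((hk y).1 hy.1))⟩
        · exact ⟨hy.1, hy.2.2⟩
      · refine disjoint_left.2 fun y h1 h2 => ?_
        have := (mem_filter.1 h1).2
        have := (mem_filter.1 h2).2.1
        omega
    omega
  have tel : ∀ n ≤ d.m, #(d.keys.filter fun y => th ≤ c.v0 n y) +
      ∑ s ∈ range n, #(d.keys.filter fun y => c.v0 (s + 1) y < th ∧ th ≤ c.v s (pi d c s y)) ≤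
      ∑ s ∈ range n, #(d.keys.filter fun y => c.v0 s y < th ∧ th ≤ c.v s y) := by
    intro n
    induction n with
    | zero =>
      intro _
      rw [filter_false_of_mem fun y _ h => by rw [hc.zero y] at h; omega]
      simp
    | succ n ih =>
      intro hn
      have i1 := ih (by omega)
      have i2 := step n (by omega)
      rw [sum_range_succ, sum_range_succ]
      omega
  have t1 := tel d.m le_rfl
  unfold UP
  rw [card_filter, sum_product, card_filter, sum_product]
  simp only [card_filter] at t1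
  exact le_trans (Nat.le_add_left _ _) t1

theorem p_EVC (hLINK : S_LINK) (hPI : S_PI) :
    S_EVC := by
  intro d c sg hd hc
  have hk : ∀ y, y ∈ d.keys ↔ key d y := fun y => by simp [Run.keys, key]
  set D : Finset (ℕ × ℤ) := (range d.m ×ˢ d.keys).filter fun p => dn d c sg p.1 p.2 with hD
  have b1 : #D ≤ UP d c sg + UP d c (2 * sg) + UP d c (3 * sg) + UP d c (4 * sg) := by
    have c1 := evc_dn hPI d c hd hc sg
    have c2 := evc_dn hPI d c hd hc (2 * sg)
    have c3 := evc_dn hPI d c hd hc (3 * sg)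
    have c4 := evc_dn hPI d c hd hc (4 * sg)
    refine le_trans ?_ (add_le_add (add_le_add (add_le_add c1 c2) c3) c4)
    refine le_trans ?_ (add_le_add (add_le_add (card_union_le _ _) le_rfl) le_rfl)
    refine le_trans ?_ (add_le_add (card_union_le _ _) le_rfl)
    refine le_trans (card_le_card fun p hp => ?_) (card_union_le _ _)
    obtain ⟨h1, k, k1, k2, k3, k4⟩ := mem_filter.1 hp
    simp only [mem_union, mem_filter]
    interval_cases k
    · exact Or.inl (Or.inl (Or.inl ⟨h1, by omega, by omega⟩))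
    · exact Or.inl (Or.inl (Or.inr ⟨h1, k3, k4⟩))
    · exact Or.inl (Or.inr ⟨h1, k3, k4⟩)
    · exact Or.inr ⟨h1, k3, k4⟩
  have sub : EV d c sg ⊆
      ((range d.m ×ˢ d.keys).filter fun p => c.v0 p.1 p.2 < sg ∧ sg ≤ c.v p.1 p.2) ∪
        D.image (fun p => (p.1 + 1, p.2)) ∪ D.image (fun p => (p.1 + 1, par d p.1 p.2)) := by
    rintro ⟨st, h⟩ hp
    obtain ⟨-, h1, h2⟩ := mem_filter.1 hp
    simp only [mem_union]
    rcases h2 with ⟨a1, a2, a3⟩ | ⟨s, hs, e, a1 | ⟨a1, a2⟩⟩
    · exact Or.inl (Or.inl (mem_filter.2 ⟨mem_product.2 ⟨mem_range.2 a1, (hk _).2 h1⟩, a2, a3⟩))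
    · refine Or.inl (Or.inr (mem_image.2 ⟨(s, h), mem_filter.2
        ⟨mem_product.2 ⟨mem_range.2 hs, (hk _).2 h1⟩, a1⟩, ?_⟩))
      exact Prod.ext e.symm rfl
    · obtain ⟨l1, -, l3, -⟩ := (hLINK d hd s hs).1 h a1
      refine Or.inr (mem_image.2 ⟨(s, low d s h), mem_filter.2
        ⟨mem_product.2 ⟨mem_range.2 hs, (hk _).2 l1.1⟩, a2⟩, ?_⟩)
      exact Prod.ext e.symm l3
  have b2 := card_le_card sub
  have b3 := card_union_le (((range d.m ×ˢ d.keys).filter fun p =>
      c.v0 p.1 p.2 < sg ∧ sg ≤ c.v p.1 p.2) ∪ D.image (fun p => (p.1 + 1, p.2)))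
    (D.image (fun p => (p.1 + 1, par d p.1 p.2)))
  have b4 := card_union_le ((range d.m ×ˢ d.keys).filter fun p =>
      c.v0 p.1 p.2 < sg ∧ sg ≤ c.v p.1 p.2) (D.image (fun p => (p.1 + 1, p.2)))
  have b5 : #(D.image (fun p => (p.1 + 1, p.2))) ≤ #D := card_image_le
  have b6 : #(D.image (fun p => (p.1 + 1, par d p.1 p.2))) ≤ #D := card_image_le
  have b7 : #((range d.m ×ˢ d.keys).filter fun p =>
      c.v0 p.1 p.2 < sg ∧ sg ≤ c.v p.1 p.2) = UP d c sg := rfl
  omega

end Pool.Agent.P.MP_119182_lc.LU
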