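import Pool.Agent.P.MP_119182_lc.LU.Iface

/-! Step HOLD. -/

set_option autoImplicit false

namespace Pool.Agent.P.MP_119182_lc.LU

open Finset
open scoped Classical
open NU (Run mr)

theorem p_HOLD :
    S_HOLD := by
  intro d hd
  refine ⟨?_, ?_, ?_, ?_, ?_, ?_, ?_⟩
  · intro s hs y hy h
    have T := hd.tree s hs
    obtain ⟨b1, b2, b3, b4⟩ := T.bnd y hy.1 hy.2
    have hy1 := hy.1
    have hy2 := hy.2
    by_cases ha : d.L < d.lp s y
    · have h1 := T.ancL y hy.1 hy.2 ha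
      have ka : key d (d.lp s y) := ⟨ha, by omega⟩
      by_cases he : d.rp s (d.lp s y) = d.rp s y
      · exact ⟨_, ka, Or.inl ⟨rfl, he⟩⟩
      · obtain ⟨c1, c2, c3, c4⟩ := T.bnd _ ka.1 ka.2
        have hb : d.rp s y < d.R := by omega
        have h2 := T.ancR y hy.1 hy.2 hb
        have h3 := (T.lamR (d.lp s y) (d.rp s y) ka.1 ka.2 (by omega) (by omega)).1
        exact ⟨_, ⟨by omega, hb⟩, Or.inr ⟨rfl, by omega⟩⟩
    · have hb : d.rp s y < d.R := by omega
      have h2 := T.ancR y hy.1 hy.2 hb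
      obtain ⟨c1, c2, c3, c4⟩ := T.bnd (d.rp s y) (by omega) hb
      exact ⟨_, ⟨by omega, hb⟩, Or.inr ⟨rfl, by omega⟩⟩
  · intro s hs a b h h' hab H H'
    have T := hd.tree s hs
    have aux : key d a → key d b → d.rp s a = b → d.lp s b = a → False := by
      intro ka kb e1 e2
      obtain ⟨c, c1, c2, c3, c4⟩ := T.top a b ka.1 hab.le kb.2
      by_cases e : c = a
      · subst e; omega
      · by_cases e' : c = b
        · subst e'; omega
        · have := (T.lamR a c ka.1 ka.2 (by omega) (by omega)).1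
          omega
    obtain ⟨k, ⟨e, f⟩ | ⟨e, f⟩⟩ := H <;> obtain ⟨k', ⟨e', f'⟩ | ⟨e', f'⟩⟩ := H'
    · rw [e, e']
    · subst e e'
      exact (aux k k' f f').elim
    · subst e e'
      exact (aux k' k f' f).elim
    · rw [e, e']
  · intro s hs a b h z H h1 h2
    have T := hd.tree s hs
    obtain ⟨k, ⟨e, f⟩ | ⟨e, f⟩⟩ := H
    · subst e
      obtain ⟨b1, b2, b3, b4⟩ := T.bnd h k.1 k.2
      have k1 := k.1
      obtain ⟨c, c1, c2, c3, c4⟩ := T.top (h + 1) (b - 1) (by omega) (by omega) (by omega)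
      have := T.lamR h c k.1 k.2 (by omega) (by omega)
      exact ⟨c, ⟨by omega, by omega⟩, by omega, by omega⟩
    · subst e
      obtain ⟨b1, b2, b3, b4⟩ := T.bnd h k.1 k.2
      have k2 := k.2
      obtain ⟨c, c1, c2, c3, c4⟩ := T.top (a + 1) (h - 1) (by omega) (by omega) (by omega)
      have := T.lamL h c k.1 k.2 (by omega) (by omega)
      exact ⟨c, ⟨by omega, by omega⟩, by omega, by omega⟩
  · intro s hs y y' k k' e1 e2
    have T := hd.tree s hs
    obtain ⟨b1, b2, b3, b4⟩ := T.bnd y k.1 k.2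
    obtain ⟨c1, c2, c3, c4⟩ := T.bnd y' k'.1 k'.2
    rcases lt_trichotomy y y' with h | h | h
    · have := (T.lamR y y' k.1 k.2 h (by omega)).1
      omega
    · exact h
    · have := (T.lamR y' y k'.1 k'.2 h (by omega)).1
      omega
  · intro s hs y y' t t' h
    have T := hd.tree s hs.le
    obtain ⟨k, t1, t2⟩ := t
    obtain ⟨k', t3, t4⟩ := t'
    refine ⟨fun hx => ?_, fun hx => ?_⟩
    · by_contra hc
      have := (T.lamR y y' k.1 k.2 h (by omega)).1
      omega
    · by_contra hc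
      have := (T.lamL y' y k'.1 k'.2 (by omega) h).2
      omega
  · intro s t a b hst ht h1 h2
    have ex : ∃ r, s ≤ r ∧ a < d.x r ∧ d.x r < b := ⟨t, hst, h1, h2⟩
    have hle : Nat.find ex ≤ t := Nat.find_min' ex ⟨hst, h1, h2⟩
    obtain ⟨p1, p2, p3⟩ := Nat.find_spec ex
    exact ⟨Nat.find ex, hle, p1, by omega, p2, p3,
      fun q q1 q2 q3 => Nat.find_min ex q2 ⟨q1, q3.1, q3.2⟩⟩
  · intro s r r' a b h h'
    obtain ⟨p1, p2, p3, p4, p5⟩ := h
    obtain ⟨q1, q2, q3, q4, q5⟩ := h'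
    rcases lt_trichotomy r r' with e | e | e
    · exact (q5 r p1 e ⟨p3, p4⟩).elim
    · exact e
    · exact (p5 r' q1 e ⟨q3, q4⟩).elim

end Pool.Agent.P.MP_119182_lc.LU
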