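import Pool.Agent.P.MP_119182_lc.LU.Iface

/-! Step LI. -/

set_option autoImplicit false

namespace Pool.Agent.P.MP_119182_lc.LU

open Finset
open scoped Classical
open NU (Run mr)

theorem li_tch (hSTAY : S_STAY) (d : Run) (c : Val) (sg : ℕ) (hd : d.OK) (hc : OK d c)
    (r : ℕ) (y : ℤ) (h : Nice d c sg r y) : r < d.m ∧ tch d r y := by
  obtain ⟨s, hu, -, h1, h2, h3, h4, h5⟩ := h
  obtain ⟨e1, e2, -⟩ := hSTAY d c hd hc (s + 1) r y hu.1.1 h1 h2.le h5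
  exact ⟨h2, hu.1.1, by rw [e1]; exact h3, by rw [e2]; exact h4⟩

theorem li_self (hSTAY : S_STAY) (hSTAR : S_STAR) (d : Run) (c : Val) (sg : ℕ) (hd : d.OK)
    (hc : OK d c) (hsg : 1 ≤ sg) (r : ℕ) (y : ℤ) (h : Nice d c sg r y) (hx : d.x r < y)
    (hv : c.v r y < 4 * sg) : anc d c sg r y := by
  obtain ⟨s, hu, hg, h1, h2, h3, h4, h5⟩ := h
  obtain ⟨-, -, e3, -⟩ := hSTAY d c hd hc (s + 1) r y hu.1.1 h1 h2.le h5
  have hs : s < d.m := by omega
  have hle := hc.le (s + 1) y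
  have hdn := hSTAR d c sg hc hsg s hs y hu hg (by omega)
  have hb := (hd.tree (s + 1) (by omega)).bnd y hu.1.1.1 hu.1.1.2
  refine ⟨s + 1, y, ⟨hu.1.1, Or.inr ⟨s, hs, rfl, Or.inl hdn⟩⟩, Or.inr (Or.inl ⟨?_, rfl⟩)⟩
  refine ⟨h1, h2, h3, hx, fun q hq1 hq2 hq => h5 q hq1 hq2 ⟨hq.1, ?_⟩⟩
  have := hq.2
  omega

theorem p_LI (hSTAY : S_STAY) (hHOLD : S_HOLD) (hSTAR : S_STAR) (hUPV : S_UPV) :
    S_LI := by
  intro d c sg hd hc hsg r y J hy hJ hx hv hyJ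
  obtain ⟨H1, -, -, -, H5, -⟩ := hHOLD d hd
  suffices H : ∀ n : ℕ, ∀ y : ℤ, (d.R - d.rp r y) + (d.lp r y - d.L) < n → Nice d c sg r y →
      (J = y ∨ d.rp r y ≤ J) → ∃ z, anc d c sg r z ∧ min (d.rp r y) J ≤ z ∧ z ≤ J by
    refine H (((d.R - d.rp r y) + (d.lp r y - d.L)).toNat + 1) y ?_ hy hyJ
    push_cast
    omega
  intro n
  induction n with
  | zero =>
    intro y hn hy _
    obtain ⟨hr, ht⟩ := li_tch hSTAY d c sg hd hc r y hy
    have hb := (hd.tree r hr.le).bnd y ht.1.1 ht.1.2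
    exfalso
    push_cast at hn
    omega
  | succ n ih =>
    intro y hn hy hyJ
    obtain ⟨hr, ht⟩ := li_tch hSTAY d c sg hd hc r y hy
    have hb := (hd.tree r hr.le).bnd y ht.1.1 ht.1.2
    push_cast at hn
    rcases hyJ with rfl | hyJ
    · exact ⟨J, li_self hSTAY hSTAR d c sg hd hc hsg r J hy hx hv, min_le_right _ _, le_rfl⟩
    have hJR : J < d.R := hJ.1.2
    obtain ⟨h, hh⟩ := H1 r hr.le y ht.1 (Or.inr (by omega))
    rcases hUPV d c sg hd hc hsg r y h hy hh with hN | hA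
    · obtain ⟨-, hth⟩ := li_tch hSTAY d c sg hd hc r h hN
      have hbh := (hd.tree r hr.le).bnd h hth.1.1 hth.1.2
      rcases hh.2 with ⟨e1, e2⟩ | ⟨e1, e2⟩
      · obtain ⟨z, hz1, hz2, hz3⟩ := ih h (by omega) hN (Or.inr (by omega))
        exact ⟨z, hz1, by rw [← e2]; exact hz2, hz3⟩
      · have hor : J = h ∨ d.rp r h ≤ J := by
          rcases eq_or_lt_of_le (show h ≤ J by omega) with e | e
          · exact Or.inl e.symm
          · have h2 := ht.2.2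
            exact Or.inr ((H5 r hr h J hth hJ e).1 (by omega))
        obtain ⟨z, hz1, hz2, hz3⟩ := ih h (by omega) hN hor
        refine ⟨z, hz1, le_trans (min_le_min_right _ (by omega)) hz2, hz3⟩
    · exact ⟨_, hA, min_le_left _ _, hyJ⟩

end Pool.Agent.P.MP_119182_lc.LU
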