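import Pool.Agent.P.MP_119182_lc.LU.Iface

/-! Step LO. -/

set_option autoImplicit false

namespace Pool.Agent.P.MP_119182_lc.LU

open Finset
open scoped Classical
open NU (Run mr)

theorem p_LO (hLINK : S_LINK) (hSTAY : S_STAY) (hHOLD : S_HOLD) (hSTAR : S_STAR) (hDOWNV : S_DOWNV) :
    S_LO := by
  intro d c sg hd hc hsg r
  obtain ⟨-, -, H3, -, H5, -, -⟩ := hHOLD d hd
  have main : ∀ (n : ℕ) (a b y' J : ℤ), (b - a).toNat ≤ n →
      Nice d c sg r y' → Hold d r a b y' → a < d.x r → J < b →
      (J = d.x r ∨ (tch d r J ∧ d.x r < J ∧ c.v r J < 4 * sg)) →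
      ∃ z, anc d c sg r z ∧ J < z ∧ z ≤ b := by
    intro n
    induction n with
    | zero =>
      intro a b y' J hn _ _ ha hJ hJ'
      exfalso
      rcases hJ' with h | h
      · omega
      · have := h.2.1
        omega
    | succ n ih =>
      intro a b y' J hn hN hH ha hJ hJ'
      have hrm : r < d.m := by
        obtain ⟨s, -, -, hx⟩ := hN
        exact hx.2.1
      have hxb : d.x r < b := by
        rcases hJ' with h | h
        · omega
        · have := h.2.1
          omega
      obtain ⟨y, hk, hl, hr⟩ := H3 r hrm.le a b y' (d.x r) hH ha hxb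
      have ht : tch d r y := ⟨hk, by omega, by omega⟩
      have hb := (hd.tree r hrm.le).bnd y hk.1 hk.2
      have hH' : Hold d r (d.lp r y) (d.rp r y) y' := by
        rw [hl, hr]
        exact hH
      rcases hDOWNV d c sg hd hc hsg r y y' hN ht hH' with hNy | han
      · rcases lt_trichotomy y J with hlt | heq | hgt
        · have hyx : y < d.x r := by
            rcases hJ' with h | h
            · omega
            · by_contra hcon
              have := (H5 r hrm y J ht h.1 hlt).1 (by omega)
              omega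
          exact ih y b y J (by omega) hNy ⟨hk, Or.inl ⟨rfl, hr⟩⟩ hyx hJ hJ'
        · subst heq
          obtain ⟨s, hu, hg, hx⟩ := hNy
          have hs1 : s + 1 ≤ r := hx.1
          have hsm : s < d.m := by omega
          obtain ⟨-, e2, e3, -, -, -⟩ :=
            hSTAY d c hd hc (s + 1) r y hk hs1 hrm.le hx.2.2.2.2
          have hv : c.v0 (s + 1) y < 4 * sg := by
            rcases hJ' with h | h
            · have := hc.ent s hsm y r hu hx
                (fun _ => ⟨fun _ => h.le, fun _ => h.ge⟩) (fun _ => ⟨fun _ => h.ge, fun _ => h.le⟩)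
              omega
            · have h1 := hc.le (s + 1) y
              have h2 := h.2.2
              omega
          have hdn := hSTAR d c sg hc hsg s hsm y hu hg hv
          refine ⟨b, ⟨s + 1, y, ⟨hk, Or.inr ⟨s, hsm, rfl, Or.inl hdn⟩⟩,
            Or.inr (Or.inr (Or.inr ⟨hx, ?_⟩))⟩, hJ, le_rfl⟩
          omega
        · obtain ⟨z, h1, h2, h3⟩ :=
            ih a y y J (by omega) hNy ⟨hk, Or.inr ⟨rfl, hl⟩⟩ ha hgt hJ'
          exact ⟨z, h1, h2, by omega⟩
      · exact ⟨b, hr ▸ han, hJ, le_rfl⟩
  intro a b y' J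
  exact main _ a b y' J le_rfl

end Pool.Agent.P.MP_119182_lc.LU
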