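import Pool.Agent.P.MP_119182_lc.LU.Iface
import Pool.Agent.P.MP_119182_lc.NU.TMIR

/-! Step MIRA. -/

set_option autoImplicit false

namespace Pool.Agent.P.MP_119182_lc.LU

open Finset
open scoped Classical
open NU (Run mr)

theorem mira_mm (y : ℤ) : mr (mr y) = y := by unfold mr; ring

theorem mira_lt (a b : ℤ) : mr a < mr b ↔ b < a := by unfold mr; omega

theorem mira_le (a b : ℤ) : mr a ≤ mr b ↔ b ≤ a := by unfold mr; omega

theorem mira_eq (a b : ℤ) : mr a = mr b ↔ a = b := by unfold mr; omega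

theorem mira_x (d : Run) (s : ℕ) : d.mir.x s = mr (d.x s) := rfl

theorem mira_lp (d : Run) (s : ℕ) (y : ℤ) : d.mir.lp s (mr y) = mr (d.rp s y) := by
  show mr (d.rp s (mr (mr y))) = _
  rw [mira_mm]

theorem mira_rp (d : Run) (s : ℕ) (y : ℤ) : d.mir.rp s (mr y) = mr (d.lp s y) := by
  show mr (d.lp s (mr (mr y))) = _
  rw [mira_mm]

theorem mira_key (d : Run) (y : ℤ) : key d.mir (mr y) ↔ key d y := by
  show (mr d.R < mr y ∧ mr y < mr d.L) ↔ _
  rw [mira_lt, mira_lt]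
  exact and_comm

theorem mira_tch (d : Run) (s : ℕ) (y : ℤ) : tch d.mir s (mr y) ↔ tch d s y := by
  unfold tch
  rw [mira_key, mira_lp, mira_rp, mira_x, mira_lt, mira_lt]
  tauto

theorem mira_up (d : Run) (s : ℕ) (y : ℤ) : up d.mir s (mr y) ↔ up d s y := by
  unfold up
  rw [mira_tch, mira_lp, mira_rp, mira_x, mira_lt, mira_lt, Ne, Ne, mira_eq, mira_eq]
  tauto

theorem mira_low0 (d : Run) (s : ℕ) (y : ℤ) (h : y ≠ d.x s) :
    low d.mir s (mr y) = mr (low d s y) := by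
  unfold low
  rw [mira_x, mira_lp, mira_rp]
  by_cases h1 : d.x s < y
  · rw [if_pos h1, if_neg (by rw [mira_lt]; omega)]
  · rw [if_neg h1, if_pos (by rw [mira_lt]; omega)]

theorem mira_ne {d : Run} {s : ℕ} {y : ℤ} (h : up d s y) : y ≠ d.x s := by
  obtain ⟨_, h | h⟩ := h <;> omega

theorem mira_lne {d : Run} {s : ℕ} {y : ℤ} (h : up d s y) : low d s y ≠ d.x s := by
  unfold low
  obtain ⟨_, h | h⟩ := h
  · rw [if_pos h.1]; exact h.2
  · rw [if_neg (by omega)]; exact h.2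

theorem mira_low (d : Run) (s : ℕ) (y : ℤ) (h : up d s y) :
    low d.mir s (mr y) = mr (low d s y) := mira_low0 d s y (mira_ne h)

theorem mira_par (d : Run) (s : ℕ) (y : ℤ) (h : y ≠ d.x s) :
    par d.mir s (mr y) = mr (par d s y) := by
  unfold par
  rw [mira_x, mira_lp, mira_rp]
  by_cases h1 : d.x s < y
  · rw [if_pos h1, if_neg (by rw [mira_lt]; omega)]
  · rw [if_neg h1, if_pos (by rw [mira_lt]; omega)]

theorem mira_isl0 {d : Run} {s : ℕ} {y : ℤ} (h : isl d s y) : y ≠ d.x s := by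
  have := mira_lne h.1
  rwa [h.2] at this

theorem mira_isl (d : Run) (s : ℕ) (y : ℤ) : isl d.mir s (mr y) ↔ isl d s y := by
  by_cases h : y = d.x s
  · refine ⟨fun h1 => absurd ?_ (mira_isl0 h1), fun h1 => absurd h (mira_isl0 h1)⟩
    rw [mira_x, h]
  · unfold isl
    rw [mira_par d s y h, mira_up]
    refine and_congr_right fun hu => ?_
    rw [mira_low d s _ hu, mira_eq]

theorem mira_hi (c : Val) (s : ℕ) (y : ℤ) : c.mir.hi s (mr y) ↔ c.hi s y := by
  show c.hi s (mr (mr y)) ↔ _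
  rw [mira_mm]

theorem mira_pi (d : Run) (c : Val) (s : ℕ) (y : ℤ) :
    pi d.mir c.mir s (mr y) = mr (pi d c s y) := by
  have e1 : (up d.mir s (mr y) ∧ ¬ c.mir.hi s (mr y)) ↔ (up d s y ∧ ¬ c.hi s y) := by
    rw [mira_up, mira_hi]
  have e2 : (isl d.mir s (mr y) ∧ ¬ c.mir.hi s (par d.mir s (mr y))) ↔
      (isl d s y ∧ ¬ c.hi s (par d s y)) := by
    rw [mira_isl]
    refine and_congr_right fun h2 => ?_
    rw [mira_par d s y (mira_isl0 h2), mira_hi]
  unfold pi
  by_cases h1 : up d s y ∧ ¬ c.hi s y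
  · rw [if_pos h1, if_pos (e1.2 h1), mira_low d s y h1.1]
  · rw [if_neg h1, if_neg (fun h => h1 (e1.1 h))]
    by_cases h2 : isl d s y ∧ ¬ c.hi s (par d s y)
    · rw [if_pos h2, if_pos (e2.2 h2), mira_par d s y (mira_isl0 h2.1)]
    · rw [if_neg h2, if_neg (fun h => h2 (e2.1 h))]

theorem mira_pos (d : Run) (c : Val) (s : ℕ) (w : ℤ) :
    pos d.mir c.mir s (mr w) = mr (pos d c s w) := by
  induction s with
  | zero => rfl
  | succ s ih =>
    show pi d.mir c.mir s (pos d.mir c.mir s (mr w)) = mr (pi d c s (pos d c s w))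
    rw [ih, mira_pi]

theorem mira_nx (d : Run) (s : ℕ) (y : ℤ) (t : ℕ) : Nx d.mir s (mr y) t ↔ Nx d s y t := by
  unfold Nx First
  rw [mira_lp, mira_rp]
  simp only [mira_x, mira_lt]
  have hm : d.mir.m = d.m := rfl
  rw [hm]
  constructor
  · rintro ⟨a, b, c, e, f⟩
    exact ⟨a, b, e, c, fun q h1 h2 h => f q h1 h2 ⟨h.2, h.1⟩⟩
  · rintro ⟨a, b, c, e, f⟩
    exact ⟨a, b, e, c, fun q h1 h2 h => f q h1 h2 ⟨h.2, h.1⟩⟩

theorem mira_bey (d : Run) (s : ℕ) (y : ℤ) (t : ℕ) :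
    beyond d.mir s (mr y) t ↔ beyond d s y t := by
  unfold beyond
  simp only [mira_x, mira_lt, mira_le]
  exact and_comm

theorem mira_wit (d : Run) (s : ℕ) (y : ℤ) (t : ℕ) :
    within d.mir s (mr y) t ↔ within d s y t := by
  unfold within
  simp only [mira_x, mira_lt, mira_le]
  exact and_comm

theorem mira_v (c : Val) (s : ℕ) (y : ℤ) : c.mir.v s (mr y) = c.v s y := by
  show c.v s (mr (mr y)) = _
  rw [mira_mm]

theorem mira_v0 (c : Val) (s : ℕ) (y : ℤ) : c.mir.v0 s (mr y) = c.v0 s y := by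
  show c.v0 s (mr (mr y)) = _
  rw [mira_mm]

theorem mira_g (c : Val) (s : ℕ) (y : ℤ) : c.mir.g s (mr y) = c.g s y := by
  show c.g s (mr (mr y)) = _
  rw [mira_mm]

theorem mira_sur (y : ℤ) : ∃ z, y = mr z := ⟨mr y, (mira_mm y).symm⟩

theorem mira_ok (d : Run) (c : Val) (h : OK d c) : OK d.mir c.mir where
  le := fun s y => h.le s (mr y)
  zero := fun y => h.zero (mr y)
  off := by
    intro s hs y hk ht
    obtain ⟨z, rfl⟩ := mira_sur y
    rw [mira_v0, mira_v]
    exact h.off s hs z ((mira_key d z).1 hk) (fun a => ht ((mira_tch d s z).2 a))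
  acc := by
    intro s hs
    rw [mira_x, mira_v0]
    exact h.acc s hs
  mono := by
    intro s hs y hk
    obtain ⟨z, rfl⟩ := mira_sur y
    rw [mira_v0, mira_pi, mira_v]
    exact h.mono s hs z ((mira_key d z).1 hk)
  gap := by
    intro s hs y hu
    obtain ⟨z, rfl⟩ := mira_sur y
    have hz := (mira_up d s z).1 hu
    rw [mira_low d s z hz, mira_pi, mira_pi, mira_g, mira_v, mira_v, mira_v0, mira_v0]
    exact h.gap s hs z hz
  turn := by
    intro s hs y t ht hu hn hb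
    obtain ⟨z, rfl⟩ := mira_sur y
    rw [mira_v0]
    exact h.turn s hs z t ((mira_tch d s z).1 ht) (fun a => hu ((mira_up d s z).2 a))
      ((mira_nx d _ z t).1 hn) ((mira_bey d s z t).1 hb)
  ent := by
    intro s hs y t hu hn hb hw
    obtain ⟨z, rfl⟩ := mira_sur y
    rw [mira_v0]
    exact h.ent s hs z t ((mira_up d s z).1 hu) ((mira_nx d _ z t).1 hn)
      (fun a => (mira_bey d s z t).1 (hb ((mira_hi c s z).2 a)))
      (fun a => (mira_wit d s z t).1 (hw (fun b => a ((mira_hi c s z).1 b))))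

theorem p_MIRA :
    S_MIRA := fun d c =>
  ⟨mira_key d, mira_tch d, mira_up d, mira_low d, mira_pi d c, mira_pos d c, mira_nx d,
    NU.p_MIR d, mira_ok d c⟩

end Pool.Agent.P.MP_119182_lc.LU
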