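import Pool.Agent.P.MP_119182_lc.LU.Iface

/-! Step MULT. -/

set_option autoImplicit false

namespace Pool.Agent.P.MP_119182_lc.LU

open Finset
open scoped Classical
open NU (Run mr)

theorem mult_same (d : Run) (c : Val) (sg s : ℕ) (p q : ℤ × ℕ × ℕ)
    (hp : Dem d c sg p.1 p.2.1 p.2.2) (hq : Dem d c sg q.1 q.2.1 q.2.2)
    (h1 : p.2.1 < s) (h2 : s ≤ p.2.2) (h3 : q.2.1 < s) (h4 : s ≤ q.2.2) (e : p.1 = q.1) :
    p = q := by
  obtain ⟨w, a, b⟩ := p
  obtain ⟨w', a', b'⟩ := q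
  simp only at hp hq h1 h2 h3 h4 e
  subst e
  have e1 : b = b' := by
    rcases lt_trichotomy b b' with h | h | h
    · exact absurd hp.2.2.1.lo (hq.2.2.1.nlo b (by omega) h)
    · exact h
    · exact absurd hq.2.2.1.lo (hp.2.2.1.nlo b' (by omega) h)
  have e2 : a = a' := by
    rcases lt_trichotomy a a' with h | h | h
    · exact absurd hq.1 (hp.2.2.1.nlo a' (by omega) (by omega))
    · exact h
    · exact absurd hp.1 (hq.2.2.1.nlo a (by omega) (by omega))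
  rw [e1, e2]

theorem mult_al (d : Run) (c : Val) (sg : ℕ) (w : ℤ) (a s t : ℕ) (h : Al d c sg w a t)
    (h1 : a ≤ s) (h2 : s ≤ t) : Al d c sg w s t :=
  ⟨h2, h.lt, h.key, h.lo, fun q hq hq' => h.nlo q (h1.trans hq) hq',
    fun q hq hq' => h.deep q (h1.trans hq) hq'⟩

theorem mult_gen (hSIDE : S_SIDE) (d : Run) (c : Val) (sg th : ℕ) (hd : d.OK) (hc : OK d c)
    (hsg : 1 ≤ sg) (s : ℕ) (S : Finset (ℤ × ℕ × ℕ)) (f : ℤ → ℤ)
    (hf : ∀ p ∈ S, ∀ q ∈ S, f p.1 = f q.1 → p.1 = q.1)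
    (hS : ∀ p ∈ S, Dem d c sg p.1 p.2.1 p.2.2 ∧ #(vis d c p.1 p.2.1 p.2.2) < th ∧ p.2.1 < s ∧
      s ≤ p.2.2)
    (hG : ∀ p ∈ S, ∀ q ∈ S, f p.1 < f q.1 →
      q.2.2 < p.2.2 ∧ tch d q.2.2 (pos d c q.2.2 p.1)) : #S ≤ th := by
  rcases S.eq_empty_or_nonempty with h | h
  · simp [h]
  obtain ⟨b, hb, hmin⟩ := exists_min_image S (fun p => f p.1) h
  have hsame : ∀ p ∈ S, ∀ q ∈ S, f p.1 = f q.1 → p = q := fun p hp q hq e =>
    mult_same d c sg s p q (hS p hp).1 (hS q hq).1 (hS p hp).2.2.1 (hS p hp).2.2.2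
      (hS q hq).2.2.1 (hS q hq).2.2.2 (hf p hp q hq e)
  have hcard : #S ≤ #(vis d c b.1 b.2.1 b.2.2) := by
    apply card_le_card_of_injOn (fun p => p.2.2)
    · intro p hp
      have hp' : p ∈ S := hp
      have hb1 := (hS b hb).2.2.1
      have hp1 := (hS p hp').2.2.2
      simp only [vis, coe_filter, mem_Ioc, Set.mem_ofPred_eq]
      rcases (hmin p hp').eq_or_lt with e | e
      · have := hsame b hb p hp' e
        subst this
        exact ⟨⟨by omega, le_rfl⟩,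
          (hSIDE d c sg hd hc hsg _ _ _ (hS b hb).1.2.2.1).1⟩
      · obtain ⟨g1, g2⟩ := hG b hb p hp' e
        exact ⟨⟨by omega, g1.le⟩, g2⟩
    · intro p hp q hq e
      have hp' : p ∈ S := hp
      have hq' : q ∈ S := hq
      have e' : p.2.2 = q.2.2 := e
      rcases lt_trichotomy (f p.1) (f q.1) with g | g | g
      · have := (hG p hp' q hq' g).1
        omega
      · exact hsame p hp' q hq' g
      · have := (hG q hq' p hp' g).1
        omega
  exact hcard.trans (hS b hb).2.1.le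

theorem mult_dr (d : Run) (c : Val) (sg th : ℕ) (p : ℤ × ℕ × ℕ) (hp : p ∈ DR d c sg th) :
    Dem d c sg p.1 p.2.1 p.2.2 ∧ #(vis d c p.1 p.2.1 p.2.2) < th := by
  simp only [DR, DEM, mem_filter] at hp
  exact ⟨hp.1.2, hp.2.1⟩

theorem p_MULT (hPI : S_PI) (hSIDE : S_SIDE) :
    S_MULT := by
  intro d c sg th hd hc hsg s z
  have hinj : ∀ p ∈ DR d c sg th, ∀ q ∈ DR d c sg th, s ≤ p.2.2 →
      pos d c s p.1 = pos d c s q.1 → p.1 = q.1 := by
    intro p hp q hq hs e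
    have h1 := (mult_dr d c sg th p hp).1.2.2.1
    have h2 := (mult_dr d c sg th q hq).1.2.2.1
    have := h1.lt
    exact ((hPI d c hd).2 s (by omega)).2.1 _ _ h1.key h2.key e
  constructor
  · apply mult_gen hSIDE d c sg th hd hc hsg s _ (fun w => pos d c s w)
    · intro p hp q hq e
      rw [mem_filter] at hp hq
      exact hinj p hp.1 q hq.1 hp.2.2.1 e
    · intro p hp
      rw [mem_filter] at hp
      exact ⟨(mult_dr d c sg th p hp.1).1, (mult_dr d c sg th p hp.1).2, hp.2.1, hp.2.2.1⟩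
    · intro p hp q hq e
      rw [mem_filter] at hp hq
      exact hp.2.2.2.2.2 q.1 q.2.2
        (mult_al d c sg _ _ s _ (mult_dr d c sg th q hq.1).1.2.2.1 hq.2.1 hq.2.2.1)
        hq.2.2.2.1 e hq.2.2.2.2.1
  · apply mult_gen hSIDE d c sg th hd hc hsg s _ (fun w => - pos d c s w)
    · intro p hp q hq e
      rw [mem_filter] at hp hq
      exact hinj p hp.1 q hq.1 hp.2.2.1 (neg_injective e)
    · intro p hp
      rw [mem_filter] at hp
      exact ⟨(mult_dr d c sg th p hp.1).1, (mult_dr d c sg th p hp.1).2, hp.2.1, hp.2.2.1⟩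
    · intro p hp q hq e
      rw [mem_filter] at hp hq
      exact hp.2.2.2.2.2 q.1 q.2.2
        (mult_al d c sg _ _ s _ (mult_dr d c sg th q hq.1).1.2.2.1 hq.2.1 hq.2.2.1)
        hq.2.2.2.1 hq.2.2.2.2.1 (neg_lt_neg_iff.mp e)

end Pool.Agent.P.MP_119182_lc.LU
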