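import Pool.Agent.P.MP_119182_lc.LU.Iface

/-! Step PAIR. -/

set_option autoImplicit false

namespace Pool.Agent.P.MP_119182_lc.LU

open Finset
open scoped Classical
open NU (Run mr)

/-- Consecutive low links of one lineage. -/
def pair_P (d : Run) (c : Val) (sg : ℕ) (p : ℤ × ℕ × ℕ) : Prop :=
  key d p.1 ∧ p.2.2 < d.m ∧ p.2.1 < p.2.2 ∧
    up d p.2.1 (pos d c (p.2.1 + 1) p.1) ∧ sg ≤ c.g p.2.1 (pos d c (p.2.1 + 1) p.1) ∧
    up d p.2.2 (pos d c (p.2.2 + 1) p.1) ∧ c.g p.2.2 (pos d c (p.2.2 + 1) p.1) < 4 * sg ∧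
    ∀ q, p.2.1 < q → q < p.2.2 → ¬ up d q (pos d c (q + 1) p.1)

theorem pair_memEV {d : Run} {c : Val} {sg s : ℕ} {h : ℤ} (hs : s < d.m) (hk : key d h)
    (he : dn d c sg s h ∨ (up d s h ∧ dn d c sg s (low d s h))) : (s + 1, h) ∈ EV d c sg := by
  unfold EV
  refine mem_filter.2 ⟨mem_product.2 ⟨mem_range.2 (by show s + 1 < d.m + 1; omega), ?_⟩, hk, Or.inr ⟨s, hs, rfl, he⟩⟩
  exact mem_Ioo.2 hk

/-- Two such triples that share a state and a holder are equal. -/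
theorem pair_uniq (hPI : S_PI) {d : Run} {c : Val} {sg : ℕ} (hd : d.OK) {p p' : ℤ × ℕ × ℕ}
    (h : pair_P d c sg p) (h' : pair_P d c sg p') {q : ℕ} (hq : q ≤ d.m)
    (e : pos d c q p.1 = pos d c q p'.1)
    (a : p.2.1 < p'.2.2) (b : p'.2.1 < p.2.2) : p = p' := by
  obtain ⟨w, t0, t1⟩ := p
  obtain ⟨w', t0', t1'⟩ := p'
  obtain ⟨k, -, l, u0, -, u1, -, n⟩ := h
  obtain ⟨k', -, l', u0', -, u1', -, n'⟩ := h'
  dsimp only at *
  have hw : w = w' := ((hPI d c hd).2 q hq).2.1 w w' k k' e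
  subst hw
  have h0 : t0 = t0' := by
    rcases lt_trichotomy t0 t0' with x | x | x
    · exact absurd u0' (n t0' x b)
    · exact x
    · exact absurd u0 (n' t0 x a)
  subst h0
  have h1 : t1 = t1' := by
    rcases lt_trichotomy t1 t1' with x | x | x
    · exact absurd u1 (n' t1 l x)
    · exact x
    · exact absurd u1' (n t1' l' x)
  subst h1
  rfl

theorem pair_A (hPI : S_PI) (hSTAR : S_STAR) {d : Run} {c : Val} {sg : ℕ} (hd : d.OK)
    (hc : OK d c) (hsg : 1 ≤ sg) {p : ℤ × ℕ × ℕ} (h : pair_P d c sg p)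
    (hA : ∃ q, p.2.1 < q ∧ q ≤ p.2.2 ∧ c.v0 q (pos d c q p.1) < 4 * sg) :
    ∃ e, e ∈ EV d c sg ∧ p.2.1 < e.1 ∧ e.1 ≤ p.2.2 ∧ e.2 = pos d c e.1 p.1 := by
  obtain ⟨w, t0, t1⟩ := p
  obtain ⟨k, lt, l, u0, g0, u1, g1, n⟩ := h
  dsimp only at *
  have hs := Nat.find_spec hA
  have hm := fun q => Nat.find_min hA (m := q)
  generalize Nat.find hA = q at hs hm
  obtain ⟨a, b, v⟩ := hs
  obtain ⟨s, rfl⟩ : ∃ s, q = s + 1 := ⟨q - 1, by omega⟩
  have hsm : s < d.m := by omega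
  have kq : key d (pos d c (s + 1) w) := ((hPI d c hd).2 (s + 1) (by omega)).1 w k
  refine ⟨(s + 1, pos d c (s + 1) w), pair_memEV hsm kq (Or.inl ?_), a, b, rfl⟩
  by_cases e : s = t0
  · subst e
    exact hSTAR d c sg hc hsg s hsm _ u0 g0 v
  · have ks : key d (pos d c s w) := ((hPI d c hd).2 s (by omega)).1 w k
    have hv : 4 * sg ≤ c.v0 s (pos d c s w) := by
      by_contra x
      exact hm s (by omega) ⟨by omega, by omega, by omega⟩
    have hi : pi d c s (pos d c (s + 1) w) = pos d c s w :=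
      (((hPI d c hd).1 s hsm).2.2 _ ks).2.1
    refine ⟨4, by omega, le_rfl, v, ?_⟩
    rw [hi]
    exact hv.trans (hc.le _ _)

theorem pair_B {d : Run} {c : Val} {sg : ℕ} (hc : OK d c) {p : ℤ × ℕ × ℕ} (h : pair_P d c sg p)
    (hB : 4 * sg ≤ c.v p.2.2 (pi d c p.2.2 (low d p.2.2 (pos d c (p.2.2 + 1) p.1)))) :
    (p.2.2 + 1, pos d c (p.2.2 + 1) p.1) ∈ EV d c sg := by
  obtain ⟨w, t0, t1⟩ := p
  obtain ⟨k, lt, l, u0, g0, u1, g1, n⟩ := h
  dsimp only at *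
  refine pair_memEV lt u1.1.1 (Or.inr ⟨u1, 4, by omega, le_rfl, ?_, hB⟩)
  exact lt_of_le_of_lt (hc.gap t1 lt _ u1).2.1 g1

theorem p_PAIR (hLINK : S_LINK) (hPI : S_PI) (hSTAR : S_STAR) :
    S_PAIR := by
  intro d c sg hd hc hsg
  set T := (d.keys ×ˢ range d.m ×ˢ range d.m).filter fun p : ℤ × ℕ × ℕ => p.2.1 < p.2.2 ∧
      up d p.2.1 (pos d c (p.2.1 + 1) p.1) ∧ sg ≤ c.g p.2.1 (pos d c (p.2.1 + 1) p.1) ∧
      up d p.2.2 (pos d c (p.2.2 + 1) p.1) ∧ c.g p.2.2 (pos d c (p.2.2 + 1) p.1) < 4 * sg ∧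
      ∀ q, p.2.1 < q → q < p.2.2 → ¬ up d q (pos d c (q + 1) p.1) with hT
  have hP : ∀ p ∈ T, pair_P d c sg p := by
    intro p hp
    obtain ⟨h1, h2⟩ := mem_filter.1 hp
    obtain ⟨h3, h4⟩ := mem_product.1 h1
    exact ⟨mem_Ioo.1 h3, mem_range.1 (mem_product.1 h4).2, h2⟩
  let A : ℤ × ℕ × ℕ → Prop := fun p =>
    ∃ q, p.2.1 < q ∧ q ≤ p.2.2 ∧ c.v0 q (pos d c q p.1) < 4 * sg
  let B : ℤ × ℕ × ℕ → Prop := fun p =>
    4 * sg ≤ c.v p.2.2 (pi d c p.2.2 (low d p.2.2 (pos d c (p.2.2 + 1) p.1)))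
  have cA : #(T.filter A) ≤ #(EV d c sg) := by
    refine card_le_card_of_forall_subsingleton
      (fun p e => p.2.1 < e.1 ∧ e.1 ≤ p.2.2 ∧ e.2 = pos d c e.1 p.1) ?_ ?_
    · intro p hp
      exact pair_A hPI hSTAR hd hc hsg (hP p (mem_filter.1 hp).1) (mem_filter.1 hp).2
    · rintro e - p ⟨hp, a, b, x⟩ p' ⟨hp', a', b', x'⟩
      have h := hP p (mem_filter.1 (mem_coe.1 hp)).1
      have h' := hP p' (mem_filter.1 (mem_coe.1 hp')).1
      have := h.2.1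
      exact pair_uniq hPI hd h h' (q := e.1) (by omega) (x.symm.trans x') (by omega) (by omega)
  have cB : #(T.filter B) ≤ #(EV d c sg) := by
    refine card_le_card_of_forall_subsingleton
      (fun p e => e.1 = p.2.2 + 1 ∧ e.2 = pos d c e.1 p.1) ?_ ?_
    · intro p hp
      exact ⟨_, pair_B hc (hP p (mem_filter.1 hp).1) (mem_filter.1 hp).2, rfl, rfl⟩
    · rintro e - p ⟨hp, a, x⟩ p' ⟨hp', a', x'⟩
      have h := hP p (mem_filter.1 (mem_coe.1 hp)).1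
      have h' := hP p' (mem_filter.1 (mem_coe.1 hp')).1
      have := h.2.1
      have := h.2.2.1
      have := h'.2.2.1
      exact pair_uniq hPI hd h h' (q := e.1) (by omega) (x.symm.trans x') (by omega) (by omega)
  have sub : T ⊆ (T.filter A ∪ T.filter B) ∪ DEM d c sg := by
    intro p hp
    by_cases a : A p
    · exact mem_union_left _ (mem_union_left _ (mem_filter.2 ⟨hp, a⟩))
    by_cases b : B p
    · exact mem_union_left _ (mem_union_right _ (mem_filter.2 ⟨hp, b⟩))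
    refine mem_union_right _ ?_
    obtain ⟨k, lt, l, u0, g0, u1, g1, n⟩ := hP p hp
    unfold DEM
    refine mem_filter.2 ⟨(mem_filter.1 hp).1, u0, g0, ⟨l, lt, k, u1, fun q h1 h2 => n q h1 h2, ?_⟩,
      not_le.1 b⟩
    intro q h1 h2
    by_contra x
    exact a ⟨q, h1, h2, not_le.1 x⟩
  have h1 := card_le_card sub
  have h2 := card_union_le (T.filter A ∪ T.filter B) (DEM d c sg)
  have h3 := card_union_le (T.filter A) (T.filter B)
  omega

end Pool.Agent.P.MP_119182_lc.LU
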