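import Pool.Agent.P.MP_119182_lc.LU.Iface

/-! Step PI. -/

set_option autoImplicit false

namespace Pool.Agent.P.MP_119182_lc.LU

open Finset
open scoped Classical
open NU (Run mr)

theorem pi_up (hLINK : S_LINK) (d : Run) (c : Val) (hd : d.OK) (s : ℕ) (hs : s < d.m) (u : ℤ)
    (hu : up d s u) :
    (c.hi s u → pi d c s u = u ∧ pi d c s (low d s u) = low d s u) ∧
      (¬ c.hi s u → pi d c s u = low d s u ∧ pi d c s (low d s u) = u) := by
  obtain ⟨-, h2, h3, h4, h5, -⟩ := (hLINK d hd s hs).1 u hu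
  refine ⟨fun h => ⟨?_, ?_⟩, fun h => ⟨?_, ?_⟩⟩
  · unfold pi
    rw [if_neg (fun k => k.2 h), if_neg (fun k => h5 k.1)]
  · unfold pi
    rw [if_neg (fun k => h2 k.1), if_neg (fun k => k.2 (by rw [h3]; exact h))]
  · unfold pi
    rw [if_pos ⟨hu, h⟩]
  · unfold pi
    rw [if_neg (fun k => h2 k.1), if_pos ⟨h4, by rw [h3]; exact h⟩, h3]

theorem pi_fix (d : Run) (c : Val) (s : ℕ) (y : ℤ) (h1 : ¬ up d s y) (h2 : ¬ isl d s y) :
    pi d c s y = y := by
  unfold pi
  rw [if_neg (fun k => h1 k.1), if_neg (fun k => h2 k.1)]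

theorem pi_key (hLINK : S_LINK) (d : Run) (c : Val) (hd : d.OK) (s : ℕ) (hs : s < d.m) (y : ℤ)
    (hy : key d y) :
    key d (pi d c s y) ∧ pi d c s (pi d c s y) = y ∧
      (tch d s y ↔ tch d s (pi d c s y)) ∧ (d.x s < y ↔ d.x s < pi d c s y) ∧
      (y < d.x s ↔ pi d c s y < d.x s) := by
  have fixc : pi d c s y = y → key d (pi d c s y) ∧ pi d c s (pi d c s y) = y ∧
      (tch d s y ↔ tch d s (pi d c s y)) ∧ (d.x s < y ↔ d.x s < pi d c s y) ∧
      (y < d.x s ↔ pi d c s y < d.x s) := by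
    intro h
    rw [h, h]
    exact ⟨hy, rfl, Iff.rfl, Iff.rfl, Iff.rfl⟩
  by_cases hu : up d s y
  · obtain ⟨a1, a2⟩ := pi_up hLINK d c hd s hs y hu
    by_cases hh : c.hi s y
    · exact fixc (a1 hh).1
    · obtain ⟨b1, b2⟩ := a2 hh
      obtain ⟨h1, -, -, -, -, h6⟩ := (hLINK d hd s hs).1 y hu
      rw [b1, b2]
      refine ⟨h1.1, rfl, ⟨fun _ => h1, fun _ => hu.1⟩, ?_, ?_⟩
      · rcases h6 with h | h
        · obtain ⟨k1, k2, -⟩ := h
          constructor <;> intro _ <;> omega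
        · obtain ⟨k1, k2, -⟩ := h
          constructor <;> intro _ <;> omega
      · rcases h6 with h | h
        · obtain ⟨k1, k2, -⟩ := h
          constructor <;> intro _ <;> omega
        · obtain ⟨k1, k2, -⟩ := h
          constructor <;> intro _ <;> omega
  · by_cases hl : isl d s y
    · obtain ⟨hp, he⟩ := hl
      obtain ⟨a1, a2⟩ := pi_up hLINK d c hd s hs _ hp
      obtain ⟨h1, -, -, -, -, h6⟩ := (hLINK d hd s hs).1 _ hp
      rw [he] at a1 a2 h1 h6
      by_cases hh : c.hi s (par d s y)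
      · exact fixc (a1 hh).2
      · obtain ⟨b1, b2⟩ := a2 hh
        rw [b2, b1]
        refine ⟨hp.1.1, rfl, ⟨fun _ => hp.1, fun _ => h1⟩, ?_, ?_⟩
        · rcases h6 with h | h
          · obtain ⟨k1, k2, -⟩ := h
            constructor <;> intro _ <;> omega
          · obtain ⟨k1, k2, -⟩ := h
            constructor <;> intro _ <;> omega
        · rcases h6 with h | h
          · obtain ⟨k1, k2, -⟩ := h
            constructor <;> intro _ <;> omega
          · obtain ⟨k1, k2, -⟩ := h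
            constructor <;> intro _ <;> omega
    · exact fixc (pi_fix d c s y hu hl)

theorem p_PI (hLINK : S_LINK) :
    S_PI := by
  intro d c hd
  refine ⟨fun s hs => ⟨fun u hu => pi_up hLINK d c hd s hs u hu,
    fun y h1 h2 => pi_fix d c s y h1 h2, fun y hy => pi_key hLINK d c hd s hs y hy⟩, ?_⟩
  intro s
  induction s with
  | zero =>
    intro _
    exact ⟨fun w hw => hw, fun w w' _ _ h => h, fun y hy => ⟨y, hy, rfl⟩⟩
  | succ s ih =>
    intro hs
    have hs' : s < d.m := by omega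
    obtain ⟨i1, i2, i3⟩ := ih hs'.le
    refine ⟨fun w hw => (pi_key hLINK d c hd s hs' _ (i1 w hw)).1, fun w w' hw hw' h => ?_,
      fun y hy => ?_⟩
    · apply i2 w w' hw hw'
      have e1 := (pi_key hLINK d c hd s hs' _ (i1 w hw)).2.1
      have e2 := (pi_key hLINK d c hd s hs' _ (i1 w' hw')).2.1
      have h' : pi d c s (pos d c s w) = pi d c s (pos d c s w') := h
      rw [← e1, ← e2, h']
    · obtain ⟨k1, k2, -⟩ := pi_key hLINK d c hd s hs' y hy
      obtain ⟨w, hw, e⟩ := i3 _ k1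
      refine ⟨w, hw, ?_⟩
      show pi d c s (pos d c s w) = y
      rw [e, k2]

end Pool.Agent.P.MP_119182_lc.LU
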