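import Pool.Agent.P.MP_119182_lc.LU.Iface

/-! Step SCALE. -/

set_option autoImplicit false

namespace Pool.Agent.P.MP_119182_lc.LU

open Finset
open scoped Classical
open NU (Run mr)

theorem scale_dr (hANC : S_ANC) (hCOV : S_COV) (hMULT : S_MULT) (d : Run) (c : Val) (sg th : ℕ)
    (hd : d.OK) (hc : OK d c) (hsg : 1 ≤ sg) :
    #(DR d c sg th) ≤ 10 * th * #(EV d c sg) := by
  have hsub : DR d c sg th ⊆ (ANC d c sg).biUnion fun a =>
      ((DR d c sg th).filter fun p => CovI d c sg p.1 p.2.1 p.2.2 a.1 a.2) ∪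
      ((DR d c sg th).filter fun p => CovO d c sg p.1 p.2.1 p.2.2 a.1 a.2) := by
    intro p hp
    have hp' := hp
    unfold DR at hp'
    rw [Finset.mem_filter] at hp'
    obtain ⟨h1, -, h3⟩ := hp'
    unfold DEM at h1
    rw [Finset.mem_filter] at h1
    obtain ⟨s, z, ha, hcv⟩ := hCOV d c sg hd hc hsg p.1 p.2.1 p.2.2 h1.2 h3
    refine Finset.mem_biUnion.2 ⟨(s, z), (hANC d c sg hd).2 s z ha, ?_⟩
    rcases hcv with h | h
    · exact Finset.mem_union_left _ (Finset.mem_filter.2 ⟨hp, h⟩)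
    · exact Finset.mem_union_right _ (Finset.mem_filter.2 ⟨hp, h⟩)
  have h1 := Finset.card_le_card hsub
  have h2 := Finset.card_biUnion_le_card_mul (ANC d c sg) (fun a =>
      ((DR d c sg th).filter fun p => CovI d c sg p.1 p.2.1 p.2.2 a.1 a.2) ∪
      ((DR d c sg th).filter fun p => CovO d c sg p.1 p.2.1 p.2.2 a.1 a.2)) (2 * th) (by
    intro a _
    have h := hMULT d c sg th hd hc hsg a.1 a.2
    refine le_trans (Finset.card_union_le _ _) ?_
    omega)
  have h3 := (hANC d c sg hd).1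
  calc #(DR d c sg th) ≤ #(ANC d c sg) * (2 * th) := le_trans h1 h2
    _ ≤ 5 * #(EV d c sg) * (2 * th) := Nat.mul_le_mul_right _ h3
    _ = 10 * th * #(EV d c sg) := by ring

theorem p_SCALE (hEVC : S_EVC) (hANC : S_ANC) (hDEM : S_DEM) (hVIS : S_VIS) (hCOV : S_COV) (hMULT : S_MULT) (hMIR : S_MIR) :
    S_SCALE := by
  intro d c sg G0 G1 th hd hc hsg h0 h01 h1 hth
  obtain ⟨hd', hc', hup, hmir⟩ := hMIR d c hd hc
  have e1 := hEVC d c sg hd hc
  have e2 := hEVC d.mir c.mir sg hd' hc'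
  rw [hup, hup, hup, hup] at e2
  have r1 := scale_dr hANC hCOV hMULT d c sg th hd hc hsg
  have r2 := scale_dr hANC hCOV hMULT d.mir c.mir sg th hd' hc' hsg
  have hm := hmir sg th hsg
  have hv := hVIS d c sg th hd hc hsg
  have hl := hDEM d c sg G0 G1 hd hc hsg h0 h01 h1
  have hs : #(DEM d c sg) ≤ #((DEM d c sg).filter fun p => th ≤ #(vis d c p.1 p.2.1 p.2.2)) +
      #((DEM d c sg).filter fun p => #(vis d c p.1 p.2.1 p.2.2) < th) := by
    refine le_trans (Finset.card_le_card ?_) (Finset.card_union_le _ _)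
    intro p hp
    rcases Nat.lt_or_ge (#(vis d c p.1 p.2.1 p.2.2)) th with h | h
    · exact Finset.mem_union_right _ (Finset.mem_filter.2 ⟨hp, h⟩)
    · exact Finset.mem_union_left _ (Finset.mem_filter.2 ⟨hp, h⟩)
  generalize UP d c sg + UP d c (2 * sg) + UP d c (3 * sg) + UP d c (4 * sg) = U at *
  generalize #((LK d).filter fun p => G0 ≤ c.g p.1 p.2 ∧ c.g p.1 p.2 < G1) = A at *
  generalize #((DEM d c sg).filter fun p => th ≤ #(vis d c p.1 p.2.1 p.2.2)) = B1 at *
  generalize #((DEM d c sg).filter fun p => #(vis d c p.1 p.2.1 p.2.2) < th) = B2 at *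
  generalize #(DEM d c sg) = B at *
  generalize #(DR d c sg th) = R1 at *
  generalize #(DR d.mir c.mir sg th) = R2 at *
  generalize #(EV d c sg) = E1 at *
  generalize #(EV d.mir c.mir sg) = E2 at *
  generalize d.NR + d.mir.NR = N at *
  have a1 : R1 ≤ 30 * (th * U) := le_trans r1 (by nlinarith [Nat.mul_le_mul_left th e1])
  have a2 : R2 ≤ 30 * (th * U) := le_trans r2 (by nlinarith [Nat.mul_le_mul_left th e2])
  have a3 : U ≤ th * U := Nat.le_mul_of_pos_left U hth
  have a4 : A ≤ B1 + 69 * (th * U) := by omega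
  calc th * A ≤ th * (B1 + 69 * (th * U)) := Nat.mul_le_mul_left th a4
    _ = th * B1 + 69 * (th ^ 2 * U) := by ring
    _ ≤ N + 70 * (th ^ 2 * U) := by omega
    _ = N + 70 * th ^ 2 * U := by ring

end Pool.Agent.P.MP_119182_lc.LU
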