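import Pool.Agent.P.MP_119182_lc.LU.Iface

/-! Step STAR. -/

set_option autoImplicit false

namespace Pool.Agent.P.MP_119182_lc.LU

open Finset
open scoped Classical
open NU (Run mr)

theorem p_STAR :
    S_STAR := by
  intro d c sg hc hsg s hs u hu hg hv
  obtain ⟨_, _, h3⟩ := hc.gap s hs u hu
  have hpos : 0 < sg := hsg
  have h1 : c.v0 (s + 1) u / sg < 4 := by
    rw [Nat.div_lt_iff_lt_mul hpos]
    exact hv
  have h2 : sg * (c.v0 (s + 1) u / sg) + c.v0 (s + 1) u % sg = c.v0 (s + 1) u :=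
    Nat.div_add_mod _ _
  have h4 : c.v0 (s + 1) u % sg < sg := Nat.mod_lt _ hpos
  have h5 : (c.v0 (s + 1) u / sg + 1) * sg = sg * (c.v0 (s + 1) u / sg) + sg := by ring
  refine ⟨c.v0 (s + 1) u / sg + 1, Nat.le_add_left _ _, by omega, ?_, ?_⟩
  · rw [h5]
    omega
  · rw [h5]
    omega

end Pool.Agent.P.MP_119182_lc.LU
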