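import Pool.Agent.P.MP_119182_lc.LU.Iface

/-! Step STAY. -/

set_option autoImplicit false

namespace Pool.Agent.P.MP_119182_lc.LU

open Finset
open scoped Classical
open NU (Run mr)

theorem p_STAY (hLINK : S_LINK) (hPI : S_PI) :
    S_STAY := by
  intro d c hd hc s t y hy hst
  induction t, hst using Nat.le_induction with
  | base =>
    intro _ _
    exact ⟨rfl, rfl, le_rfl, fun h => absurd h (lt_irrefl _), fun _ h => h,
      fun q h1 h2 => absurd h1 (not_le.2 h2)⟩
  | succ t hst ih =>
    intro htm hq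
    obtain ⟨e1, e2, e3, -, e5, e6⟩ := ih (by omega) fun q h1 h2 => hq q h1 (by omega)
    have htm' : t < d.m := by omega
    have nt : ¬ tch d t y := fun h => hq t hst (by omega) ⟨e1 ▸ h.2.1, e2 ▸ h.2.2⟩
    obtain ⟨f1, f2, f3, f4⟩ := (hLINK d hd t htm').2.2.1 y hy nt
    have g1 := hc.off t htm' y hy nt
    have g2 := hc.le (t + 1) y
    have g3 := ((hPI d c hd).1 t htm').2.1 y f3 f4
    refine ⟨f1.trans e1, f2.trans e2, by omega, fun _ => by omega, fun w hw => ?_,
      fun q h1 h2 => ?_⟩
    · rw [pos, e5 w hw, g3]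
    · rcases Nat.lt_succ_iff_lt_or_eq.1 h2 with h | h
      · exact e6 q h1 h
      · rw [h]
        exact nt

end Pool.Agent.P.MP_119182_lc.LU
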