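import Pool.Agent.P.MP_119182_lc.LU.Iface

/-! Step STEPI. -/

set_option autoImplicit false

namespace Pool.Agent.P.MP_119182_lc.LU

open Finset
open scoped Classical
open NU (Run mr)

theorem p_STEPI (hLINK : S_LINK) (hPI : S_PI) (hSTAY : S_STAY) (hHOLD : S_HOLD) (hALIVE : S_ALIVE) :
    S_STEPI := by
  intro d c sg hd hc hsg w s s' t1 hal hrv hst hnx hinv
  obtain ⟨y, hy1, hy2, hy3, hy4⟩ := hinv
  have ht1 : t1 < d.m := hal.lt
  have hsm : s < d.m := by omega
  obtain ⟨-, -, -, -, H5, H6, H7⟩ := hHOLD d hd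
  obtain ⟨-, -, L3, -, L5⟩ := hLINK d hd s hsm
  have T1 := hd.tree (s + 1) (by omega)
  have T0 := hd.tree s (by omega)
  obtain ⟨h, hh⟩ : ∃ h, h = pos d c (s + 1) w := ⟨_, rfl⟩
  rw [← hh] at hnx
  obtain ⟨a1, a2, a3, a4, a5, a6, -, -, s2, b1, b2, b3, b4, b5⟩ :=
    hALIVE d c sg hd hc hsg w h s t1 hal hrv hst hh
  have e2 : s2 = s' := H7 _ _ _ _ _ b1 hnx
  subst e2
  have hk : key d h := a1.1
  obtain ⟨n1, n2, n3, n4, n5⟩ := hnx
  have hp : pos d c s2 w = h := b5 s2 (by omega) le_rfl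
  obtain ⟨r1, r2⟩ := b3
  rw [hp] at r1 r2 hy2
  obtain ⟨s1, s3, -⟩ := hSTAY d c hd hc (s + 1) s2 h hk n1 (by omega) n5
  have hey : d.rp (s + 1) h ≤ y := by
    have := (H5 s2 n2 h y r1 hy1 hy2).1 r2.le
    rw [s3] at this; exact this
  have hyk : key d y := hy1.1
  have hq : ∀ q, s < q → q < s2 → d.x s < d.x q → d.rp (s + 1) h ≤ d.x q := by
    intro q q1 q2 q3
    have := n5 q (by omega) q2
    rw [a6] at this
    by_contra hc'
    exact this ⟨q3, by omega⟩
  have hbh := T1.bnd h hk.1 hk.2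
  -- the next spine node
  have nxt : ∀ z, key d z → d.lp (s + 1) z = d.x s → d.rp (s + 1) z < d.R →
      key d (d.rp (s + 1) z) ∧ d.lp (s + 1) (d.rp (s + 1) z) = d.x s := by
    intro z zk z1 z2
    have hb := T1.bnd z zk.1 zk.2
    have k2 : key d (d.rp (s + 1) z) := ⟨by have := zk.1; omega, z2⟩
    have u1 := T1.ancR z zk.1 zk.2 z2
    have u2 := (L5 _ k2).1 (by omega)
    exact ⟨k2, by omega⟩
  obtain ⟨z, zk, z1, z2, z3, zmax⟩ : ∃ z, key d z ∧ d.lp (s + 1) z = d.x s ∧ z ≤ y ∧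
      (∀ q, s < q → q < s2 → d.x s < d.x q → z ≤ d.x q) ∧
      ∀ z', key d z' → d.lp (s + 1) z' = d.x s → z' ≤ y →
        (∀ q, s < q → q < s2 → d.x s < d.x q → z' ≤ d.x q) → z' ≤ z := by
    obtain ⟨z, hz, hm⟩ := Int.exists_greatest_of_bdd
      (P := fun z => key d z ∧ d.lp (s + 1) z = d.x s ∧ z ≤ y ∧
        (∀ q, s < q → q < s2 → d.x s < d.x q → z ≤ d.x q))
      ⟨y, fun z hz => hz.2.2.1⟩
      ⟨h, hk, a6, hy2.le, fun q q1 q2 q3 => by have := hq q q1 q2 q3; omega⟩
    exact ⟨z, hz.1, hz.2.1, hz.2.2.1, hz.2.2.2, fun z' u1 u2 u3 u4 => hm z' ⟨u1, u2, u3, u4⟩⟩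
  have hbz := T1.bnd z zk.1 zk.2
  have hez : d.rp (s + 1) h ≤ z := by
    obtain ⟨u1, u2⟩ := nxt h hk a6 (by have := hyk.2; omega)
    exact zmax _ u1 u2 hey hq
  have hxz : d.x s < z := by omega
  have ztch : tch d s z := by
    by_contra hn
    have u1 := (L3 z zk hn).1
    have u2 := (T0.lamL z h zk.1 zk.2 (by omega) (by omega)).1
    have u3 := a1.2.1
    omega
  have znup : ¬ up d s z := by
    rintro ⟨-, u | u⟩
    · exact u.2 z1
    · omega
  -- the covering step
  have KEY : ∀ w' t', Al d c sg w' s t' → rv d c s w' → pos d c s w < pos d c s w' →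
      (∀ h', tch d s h' → d.x s < h' → h' ≤ pos d c s w' →
        (isl d s h' → 4 * sg ≤ c.v s (d.rp s h')) → h' < z) →
      t' < t1 ∧ tch d t' (pos d c t' w) := by
    intro w' t' al' rv' hlt hz'
    rcases Nat.eq_or_lt_of_le al'.le with e | e
    · subst e
      exact ⟨hst, hrv.1⟩
    obtain ⟨h', hh'⟩ : ∃ h', h' = pos d c (s + 1) w' := ⟨_, rfl⟩
    obtain ⟨c1, c2, c3, c4, c5, c6, -, c8, s4, d1, d2, d3, d4, d5⟩ :=
      hALIVE d c sg hd hc hsg w' h' s t' al' rv' e hh'
    have hk' : key d h' := c1.1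
    have hlz := hz' h' c1 c3 c4 c8
    have hne : h ≠ h' := by
      intro e'
      have := ((hPI d c hd).2 (s + 1) (by omega)).2.1 w w' hal.key al'.key (by rw [← hh, ← hh', e'])
      rw [this] at hlt
      exact lt_irrefl _ hlt
    have hhh : h < h' := by
      by_contra hn
      have := (T1.lamR h' h hk'.1 hk'.2 (by omega) (by omega)).1
      omega
    have hrz : d.rp (s + 1) h' ≤ z := by
      by_contra hn
      have := (T1.lamR h' z hk'.1 hk'.2 hlz (by omega)).1
      omega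
    have hb' := T1.bnd h' hk'.1 hk'.2
    have nx' : Nx d (s + 1) h' s2 := by
      refine ⟨n1, n2, by omega, by omega, ?_⟩
      intro q q1 q2 q3
      have := z3 q (by omega) q2 (by omega)
      omega
    have e4 : s4 = s2 := H7 _ _ _ _ _ d1 nx'
    subst e4
    have hp' : pos d c s4 w' = h' := d5 s4 (by omega) le_rfl
    exact hy4 w' t' d4 d3 (by rw [hp, hp']; exact hhh) (by rw [hp']; omega)
  have G : GoodI d c sg w t1 s z := by
    intro w' t' al' rv' u1 u2
    exact KEY w' t' al' rv' u1 fun h' _ _ u _ => by omega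
  by_cases c1 : c.v s z < 4 * sg
  · exact Or.inl ⟨z, ztch, by omega, c1, G⟩
  have hpar : par d s z = d.rp s z := by unfold par; rw [if_pos hxz]
  have hb0 := T0.bnd z zk.1 zk.2
  by_cases c2 : isl d s z ∧ c.v s (d.rp s z) < 4 * sg
  · refine Or.inl ⟨d.rp s z, ?_, by omega, c2.2, ?_⟩
    · have := c2.1.1.1
      rwa [hpar] at this
    · intro w' t' al' rv' u1 u2
      refine KEY w' t' al' rv' u1 fun h' v1 v2 v3 v4 => ?_
      by_contra hn
      rcases (show z = h' ∨ z < h' by omega) with e | e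
      · subst e
        have := v4 c2.1
        have := c2.2
        omega
      · have := (H5 s hsm z h' ztch v1 e).1 hxz.le
        omega
  refine Or.inr ⟨z, zk, ⟨4, by omega, le_rfl, ?_, ?_⟩, by omega, G⟩
  · obtain ⟨r, hr, hf⟩ := H6 (s + 1) s2 (d.lp (s + 1) z) (d.rp (s + 1) z) n1 n2 (by omega) (by omega)
    rcases Nat.eq_or_lt_of_le hr with e | e
    · subst e
      obtain ⟨f1, f2, f3, f4, f5⟩ := hf
      obtain ⟨g1, g2, g3, -⟩ := hSTAY d c hd hc (s + 1) r z zk n1 (by omega) f5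
      have tz : tch d r z := ⟨zk, by omega, by omega⟩
      have hzy : z = y := by
        by_contra hn
        have u1 := (H5 r n2 z y tz hy1 (by omega)).1 (by omega)
        rw [g2] at u1
        obtain ⟨u2, u3⟩ := nxt z zk z1 (by have := hyk.2; omega)
        have := zmax _ u2 u3 u1 fun q q1 q2 q3 => by
          have := f5 q (by omega) q2
          by_contra hc'
          exact this ⟨by omega, by omega⟩
        omega
      have := hc.le (s + 1) z
      rw [← hzy] at hy3
      omega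
    · have hf' := hf
      obtain ⟨f1, f2, f3, f4, f5⟩ := hf'
      have := hc.turn s hsm z r ztch znup hf
        ⟨fun _ => z3 r (by omega) e (by omega), fun u => by omega⟩
      omega
  · unfold pi
    rw [if_neg (fun u => znup u.1)]
    split_ifs with u
    · rw [hpar]
      by_contra hn
      exact c2 ⟨u.1, by omega⟩
    · omega

end Pool.Agent.P.MP_119182_lc.LU
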