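import Pool.Agent.P.MP_119182_lc.LU.Iface

/-! Step STEPO. -/

set_option autoImplicit false

namespace Pool.Agent.P.MP_119182_lc.LU

open Finset
open scoped Classical
open NU (Run mr)

theorem p_STEPO (hLINK : S_LINK) (hPI : S_PI) (hSTAY : S_STAY) (hHOLD : S_HOLD) (hALIVE : S_ALIVE) :
    S_STEPO := by
  intro d c sg hd hc hsg w s s' t1 hAl hrv hst hNx hInv
  obtain ⟨y, hy, hyw, hG⟩ := hInv
  have hsm : s < d.m := lt_trans hst hAl.lt
  have hT := hd.tree (s + 1) hsm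
  have hT0 := hd.tree s hsm.le
  obtain ⟨hL1, -, hL3, -, hL5⟩ := hLINK d hd s hsm
  obtain ⟨-, -, -, -, hH5, -, hH7⟩ := hHOLD d hd
  obtain ⟨hP1, hP2⟩ := hPI d c hd
  obtain ⟨h, hh⟩ : ∃ h, h = pos d c (s + 1) w := ⟨_, rfl⟩
  obtain ⟨a1, a2, a3, a4, a5, a6, -, -, s2, a9, -, a11, -, a13⟩ :=
    hALIVE d c sg hd hc hsg w h s t1 hAl hrv hst hh
  rw [← hh] at hNx
  have e2 : s2 = s' := hH7 _ _ _ _ _ a9 hNx
  subst e2
  obtain ⟨n1, n2, n3, n4, n5⟩ := hNx
  rw [a6] at n3 n5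
  have hp : pos d c s2 w = h := a13 s2 (by omega) le_rfl
  rw [hp] at hyw
  have hk : key d h := a1.1
  have hhe : h < d.rp (s + 1) h := (hT.bnd h hk.1 hk.2).2.2.1
  have hxy : d.x s2 ≤ y := by
    rcases hy with hy | hy
    · exact hy.ge
    · exact hy.2.1.le
  obtain ⟨z, hz, hmax⟩ := Int.exists_greatest_of_bdd
    (P := fun z' => z' = d.x s ∨ (d.x s < z' ∧ z' ≤ y ∧ tch d s z' ∧ d.lp (s + 1) z' = d.x s))
    ⟨y, fun z' hz' => by
      rcases hz' with hz' | hz'
      · omega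
      · exact hz'.2.1⟩ ⟨d.x s, Or.inl rfl⟩
  -- the key step
  have KEY : ∀ b : ℤ, z ≤ b → (∀ w' t', Al d c sg w' s t' → rv d c s w' → s < t' →
      pos d c (s + 1) w' ≠ z) → GoodO d c sg w t1 s b := by
    intro b hb hne w' t' hA' hr' hb' hlt
    rcases eq_or_lt_of_le hA'.le with hts | hts
    · rw [← hts]
      exact ⟨hst, hrv.1⟩
    obtain ⟨h', hh'⟩ : ∃ h', h' = pos d c (s + 1) w' := ⟨_, rfl⟩
    obtain ⟨b1, -, b3, b4, b5, b6, -, -, s3, b9, -, b11, b12, b13⟩ :=
      hALIVE d c sg hd hc hsg w' h' s t' hA' hr' hts hh'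
    have hk' : key d h' := b1.1
    have hne' : h' ≠ h := by
      intro e
      have : w' = w := (hP2 (s + 1) hsm).2.1 w' w hA'.key hAl.key (by rw [← hh', ← hh, e])
      rw [this] at hlt
      exact lt_irrefl _ hlt
    have hlt' : h' < h := by
      rcases lt_or_gt_of_ne hne' with e | e
      · exact e
      · have := (hT.lamR h h' hk.1 hk.2 e (by omega)).1
        omega
    have hzh : z < h' := by
      have hne2 : h' ≠ z := by rw [hh']; exact hne w' t' hA' hr' hts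
      rcases lt_or_gt_of_ne hne2 with e | e
      · rcases hz with hz | hz
        · omega
        · have := (hT.lamL z h' hz.2.2.1.1.1 hz.2.2.1.1.2 (by omega) e).2
          omega
      · exact e
    have hyh : y < h' := by
      by_contra e
      have := hmax h' (Or.inr ⟨b3, not_lt.mp e, b1, b6⟩)
      omega
    have hre : d.rp (s + 1) h' ≤ h := (hT.lamL h h' hk.1 hk.2 (by omega) hlt').2
    have hN' : Nx d (s + 1) h' s2 := by
      refine ⟨n1, n2, by omega, by omega, fun q q1 q2 q3 => n5 q q1 q2 ⟨by omega, by omega⟩⟩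
    have e3 : s3 = s2 := hH7 _ _ _ _ _ b9 hN'
    subst e3
    have hp' : pos d c s3 w' = h' := b13 s3 (by omega) le_rfl
    exact hG w' t' b12 b11 (by omega) (by omega)
  rcases hz with hz | ⟨z1, z2, z3, z4⟩
  · refine Or.inl ⟨d.x s, Or.inl rfl, hrv.2, KEY _ (by omega) ?_⟩
    intro w' t' hA' hr' hts e
    have := (hALIVE d c sg hd hc hsg w' z s t' hA' hr' hts e.symm).2.2.1
    omega
  have hzk : key d z := z3.1
  have hnu : ¬ up d s z := by
    rintro ⟨-, e | e⟩
    · exact e.2 z4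
    · omega
  by_cases c1 : c.v s z < 4 * sg
  · refine Or.inl ⟨z, Or.inr ⟨z3, z1, c1⟩, by omega, KEY _ (by omega) ?_⟩
    intro w' t' hA' hr' hts e
    have := (hALIVE d c sg hd hc hsg w' z s t' hA' hr' hts e.symm).2.2.2.2.2.2.1
    omega
  have hpar : par d s z = d.rp s z := by unfold par; rw [if_pos z1]
  by_cases c2 : isl d s z ∧ c.v s (d.rp s z) < 4 * sg
  · obtain ⟨⟨i1, i2⟩, c2⟩ := c2
    have hi : isl d s z := ⟨i1, i2⟩
    rw [hpar] at i1 i2
    have hzr : z < d.rp s z := (hT0.bnd z hzk.1 hzk.2).2.2.1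
    have h5 : d.rp s z ≤ h := (hH5 s hsm z h z3 a1 (by omega)).1 z1.le
    have h6 : d.rp s z ≠ h := fun e => a2 (e ▸ i1)
    refine Or.inl ⟨d.rp s z, Or.inr ⟨i1.1, by omega, c2⟩, by omega, KEY _ (by omega) ?_⟩
    intro w' t' hA' hr' hts e
    have := (hALIVE d c sg hd hc hsg w' z s t' hA' hr' hts e.symm).2.2.2.2.2.2.2.1 hi
    omega
  have hdeep : 4 * sg ≤ c.v s (pi d c s z) := by
    by_cases hi : isl d s z
    · have c3 : 4 * sg ≤ c.v s (d.rp s z) := by
        by_contra e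
        exact c2 ⟨hi, not_le.mp e⟩
      obtain ⟨i1, i2⟩ := hi
      rw [hpar] at i1 i2
      obtain ⟨p1, p2⟩ := (hP1 s hsm).1 _ i1
      rw [i2] at p1 p2
      by_cases hb : c.hi s (d.rp s z)
      · rw [(p1 hb).2]; omega
      · rw [(p2 hb).2]; exact c3
    · rw [(hP1 s hsm).2.1 z hnu hi]; omega
  have hzr : z < d.rp (s + 1) z := (hT.bnd z hzk.1 hzk.2).2.2.1
  have hrh : d.rp (s + 1) z ≤ h := (hT.lamL h z hk.1 hk.2 (by omega) (by omega)).2
  have hyr : y < d.rp (s + 1) z := by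
    by_contra e
    have e := not_lt.mp e
    have hrk : key d (d.rp (s + 1) z) := ⟨by have := hzk.1; omega, by have := hk.2; omega⟩
    have r1 : d.lp (s + 1) (d.rp (s + 1) z) ≤ d.lp (s + 1) z := hT.ancR z hzk.1 hzk.2 hrk.2
    have r2 := (hL5 _ hrk).1 (by omega)
    have r3 : d.lp (s + 1) (d.rp (s + 1) z) = d.x s := by omega
    have r4 : tch d s (d.rp (s + 1) z) := by
      by_contra e'
      have r5 := (hL3 _ hrk e').1
      have r6 := (hT0.lamL _ z hrk.1 hrk.2 (by omega) hzr).1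
      have r7 := z3.2.1
      omega
    have := hmax _ (Or.inr ⟨by omega, e, r4, r3⟩)
    omega
  have hfree : ∀ q, s + 1 ≤ q → q < s2 → ¬ (d.lp (s + 1) z < d.x q ∧ d.x q < d.rp (s + 1) z) :=
    fun q q1 q2 q3 => n5 q q1 q2 ⟨by omega, by omega⟩
  have hNz : Nx d (s + 1) z s2 := ⟨n1, n2, by omega, by omega, hfree⟩
  have hv0 : c.v0 (s + 1) z < 4 * sg := by
    by_cases e : z ≤ d.x s2
    · have := hc.turn s hsm z s2 z3 hnu hNz ⟨fun _ => e, fun e' => by omega⟩
      omega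
    · have e := not_le.mp e
      obtain ⟨s1, s2', s3, -⟩ := hSTAY d c hd hc (s + 1) s2 z hzk n1 n2.le hfree
      rcases hy with hy | ⟨y1, y2, y3⟩
      · omega
      have ht : tch d s2 z := ⟨hzk, by omega, by omega⟩
      have hzy : z = y := by
        by_contra e'
        have := (hH5 s2 n2 z y ht y1 (by omega)).1 e.le
        omega
      have := hc.le (s + 1) z
      rw [← hzy] at y3
      omega
  refine Or.inr ⟨z, hzk, ⟨4, by omega, le_rfl, hv0, hdeep⟩, by omega, KEY _ (by omega) ?_⟩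
  intro w' t' hA' hr' hts e
  have := hA'.deep (s + 1) (by omega) hts
  rw [e] at this
  omega

end Pool.Agent.P.MP_119182_lc.LU
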