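import Pool.Agent.P.MP_119182_lc.LU.Iface

/-! Step T. -/

set_option autoImplicit false

namespace Pool.Agent.P.MP_119182_lc.LU

open Finset
open scoped Classical
open NU (Run mr)

theorem t_split (S : Finset (ℕ × ℤ)) (g : ℕ × ℤ → ℕ) :
    #(S.filter fun p => 1 ≤ g p) ≤ ∑ i ∈ Icc 1 (S.sup fun p => Nat.size (g p)),
      #(S.filter fun p => 2 ^ (i - 1) ≤ g p ∧ g p < 2 ^ i) := by
  refine le_trans (card_le_card ?_) card_biUnion_le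
  intro p hp
  rw [mem_filter] at hp
  have h1 : 0 < Nat.size (g p) := Nat.size_pos.2 hp.2
  refine mem_biUnion.2 ⟨Nat.size (g p), mem_Icc.2 ⟨h1, ?_⟩, mem_filter.2 ⟨hp.1, ?_, ?_⟩⟩
  · exact le_sup (f := fun p => Nat.size (g p)) hp.1
  · exact Nat.lt_size.1 (by omega)
  · exact Nat.lt_size_self _

theorem t_div (K i n N U : ℕ) (A : ℝ) (hi : 1 ≤ i)
    (h : K * i ^ 2 * n ≤ N + 70 * (K * i ^ 2) ^ 2 * U) (hU : (U : ℝ) ≤ A) :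
    (K : ℝ) * n ≤ N * (1 / (i : ℝ) ^ 2) + 70 * (K : ℝ) ^ 2 * ((i : ℝ) ^ 2 * A) := by
  have hi' : (0 : ℝ) < (i : ℝ) ^ 2 := by positivity
  have h' : (K : ℝ) * (i : ℝ) ^ 2 * n ≤ N + 70 * ((K : ℝ) * (i : ℝ) ^ 2) ^ 2 * U := by
    exact_mod_cast h
  have h2 : 70 * ((K : ℝ) * (i : ℝ) ^ 2) ^ 2 * U ≤ 70 * ((K : ℝ) * (i : ℝ) ^ 2) ^ 2 * A :=
    mul_le_mul_of_nonneg_left hU (by positivity)
  refine le_of_mul_le_mul_right ?_ hi'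
  have e : ((N : ℝ) * (1 / (i : ℝ) ^ 2) + 70 * (K : ℝ) ^ 2 * ((i : ℝ) ^ 2 * A)) * (i : ℝ) ^ 2 =
      N + 70 * ((K : ℝ) * (i : ℝ) ^ 2) ^ 2 * A := by
    field_simp
  rw [e]
  linarith

theorem p_T (hSCALE : S_SCALE) (hAVG : S_AVG) (hSUM : S_SUM) :
    S_T := by
  obtain ⟨h2, C, hC⟩ := hSUM
  refine ⟨280 * C, fun K d c hd hc => ?_⟩
  rcases Nat.eq_zero_or_pos K with rfl | hK
  · simp
  set J := (LK d).sup fun p => Nat.size (c.g p.1 p.2) with hJ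
  set N := d.NR + d.mir.NR with hN
  have h1 := t_split (LK d) fun p => c.g p.1 p.2
  have h3 : ∀ i ∈ Icc 1 J,
      (K : ℝ) * (#((LK d).filter fun p => 2 ^ (i - 1) ≤ c.g p.1 p.2 ∧ c.g p.1 p.2 < 2 ^ i) : ℕ) ≤
        N * (1 / (i : ℝ) ^ 2) + 70 * (K : ℝ) ^ 2 * ((i : ℝ) ^ 2 *
          ∑ p ∈ range d.m ×ˢ d.keys,
            4 * min (1 : ℝ) (4 * ((c.v p.1 p.2 - c.v0 p.1 p.2 : ℕ) : ℝ) / 2 ^ i)) := by
    intro i hi
    have hi1 := (mem_Icc.1 hi).1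
    obtain ⟨sg, s1, s2, s3, s4⟩ := hAVG d c i hi1
    refine t_div K i _ N _ _ hi1 ?_ s4
    exact hSCALE d c sg (2 ^ (i - 1)) (2 ^ i) (K * i ^ 2) hd hc s1 s2
      (Nat.pow_le_pow_right (by norm_num) (by omega)) s3
      (Nat.mul_pos hK (by positivity))
  have h4 := sum_le_sum h3
  rw [← mul_sum, sum_add_distrib, ← mul_sum, ← mul_sum] at h4
  have h5 : ∑ i ∈ Icc 1 J, ((i : ℝ) ^ 2 * ∑ p ∈ range d.m ×ˢ d.keys,
      4 * min (1 : ℝ) (4 * ((c.v p.1 p.2 - c.v0 p.1 p.2 : ℕ) : ℝ) / 2 ^ i)) ≤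
      4 * C * (price d c : ℝ) := by
    simp only [mul_sum]
    rw [sum_comm, price]
    push_cast
    rw [mul_sum]
    refine sum_le_sum fun p _ => ?_
    have := hC (c.v p.1 p.2 - c.v0 p.1 p.2) J
    calc ∑ i ∈ Icc 1 J, (i : ℝ) ^ 2 *
          (4 * min (1 : ℝ) (4 * ((c.v p.1 p.2 - c.v0 p.1 p.2 : ℕ) : ℝ) / 2 ^ i))
        = 4 * ∑ i ∈ Icc 1 J, (i : ℝ) ^ 2 *
          min (1 : ℝ) (4 * ((c.v p.1 p.2 - c.v0 p.1 p.2 : ℕ) : ℝ) / 2 ^ i) := by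
          rw [mul_sum]
          exact sum_congr rfl fun i _ => by ring
      _ ≤ _ := by nlinarith
  have h6 : (N : ℝ) * ∑ i ∈ Icc 1 J, (1 : ℝ) / (i : ℝ) ^ 2 ≤ N * 2 :=
    mul_le_mul_of_nonneg_left (h2 J) (by positivity)
  have h7 := mul_le_mul_of_nonneg_left h5 (show (0 : ℝ) ≤ 70 * (K : ℝ) ^ 2 by positivity)
  have h8 : (K : ℝ) * (#((LK d).filter fun p => 1 ≤ c.g p.1 p.2) : ℕ) ≤
      (K : ℝ) * ∑ i ∈ Icc 1 J,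
        ((#((LK d).filter fun p => 2 ^ (i - 1) ≤ c.g p.1 p.2 ∧ c.g p.1 p.2 < 2 ^ i) : ℕ) : ℝ) := by
    refine mul_le_mul_of_nonneg_left ?_ (by positivity)
    exact_mod_cast h1
  have h9 : (K : ℝ) * (#((LK d).filter fun p => 1 ≤ c.g p.1 p.2) : ℕ) ≤
      2 * (N : ℝ) + 280 * C * (K : ℝ) ^ 2 * (price d c : ℝ) := by
    nlinarith
  exact_mod_cast h9

end Pool.Agent.P.MP_119182_lc.LU
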