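import Pool.Agent.P.MP_119182_lc.LU.Iface

/-! Step UPV. -/

set_option autoImplicit false

namespace Pool.Agent.P.MP_119182_lc.LU

open Finset
open scoped Classical
open NU (Run mr)

theorem p_UPV (hLINK : S_LINK) (hPI : S_PI) (hSTAY : S_STAY) (hHOLD : S_HOLD) :
    S_UPV := by
  rintro d c sg ok okc sg1 r y y' ⟨s, hs, hg, hN⟩ hy'
  obtain ⟨n1, n2, n3, n4, n5⟩ := hN
  obtain ⟨e1, e2, -⟩ := hSTAY d c ok okc (s + 1) r y hs.1.1 n1 n2.le n5
  rw [e1, e2] at hy'
  rw [e2]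
  have L0 := (hLINK d ok s (by omega)).1 y hs
  generalize d.lp (s + 1) y = a at n3 n5 hy' L0
  generalize d.rp (s + 1) y = b at n4 n5 hy' L0 ⊢
  obtain ⟨-, H2, -, -, -, H6, -⟩ := hHOLD d ok
  generalize hG : (Nice d c sg r y' ∨ anc d c sg r b) = G
  have hE : ∀ st h, s < st → st ≤ r → ev d c sg st h → Hold d st a b h → G := by
    intro st h h1 h2 h3 h4
    have f : First d st a b r := ⟨h2, n2, n3, n4, fun q q1 q2 => n5 q (by omega) q2⟩
    rw [← hG]
    rcases h4.2 with ⟨k1, k2⟩ | ⟨k1, k2⟩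
    · exact Or.inr ⟨st, h, h3, Or.inr (Or.inr (Or.inl ⟨by rw [k2, k1]; exact f, k2.symm⟩))⟩
    · exact Or.inr ⟨st, h, h3, Or.inr (Or.inl ⟨by rw [k2, k1]; exact f, k1.symm⟩)⟩
  have hD : ∀ q h, s ≤ q → q < r → Hold d (q + 1) a b h → c.v0 (q + 1) h < sg →
      sg ≤ c.v q (pi d c q h) → G := fun q h h1 h2 h3 h4 h5 =>
    hE (q + 1) h (by omega) h2 ⟨h3.1, Or.inr ⟨q, by omega, rfl,
      Or.inl ⟨1, le_rfl, by omega, by omega, by omega⟩⟩⟩ h3
  have rng : ∀ q ≤ r, ∀ h, Hold d q a b h → d.lp q h < d.x r ∧ d.x r < d.rp q h := by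
    intro q hq h hh
    obtain ⟨-, b1, b2, -⟩ := (ok.tree q (by omega)).bnd h hh.1.1 hh.1.2
    rcases hh.2 with ⟨k1, k2⟩ | ⟨k1, k2⟩ <;> omega
  let J : ℕ → Prop := fun q => ∃ h, Hold d q a b h ∧ sg ≤ c.v0 q h ∧
    ∀ t, Nx d q h t → ¬ ((a < d.x t ∧ d.x t < b) ∨ d.x t = h)
  have keep : ∀ q h, s ≤ q → q < r → tch d q h → ¬ up d q h → Hold d (q + 1) a b h →
      sg ≤ c.v q (pi d c q h) →
      (∀ t, ((a < d.x t ∧ d.x t < b) ∨ d.x t = h) → beyond d q h t) → G ∨ J (q + 1) := by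
    intro q h h1 h2 h3 h4 h5 h6 h7
    by_cases k : c.v0 (q + 1) h < sg
    · exact Or.inl (hD q h h1 h2 h5 k h6)
    · refine Or.inr ⟨h, h5, not_lt.1 k, fun t ht hx => ?_⟩
      have := okc.turn q (by omega) h t h3 h4 ht (h7 t hx)
      omega
  have lowS : ∀ q u, s ≤ q → q < r → up d q u → Hold d (q + 1) a b u →
      sg ≤ c.v q (pi d c q u) →
      (∀ t, ((a < d.x t ∧ d.x t < b) ∨ d.x t = u) →
        (c.hi q u → beyond d q u t) ∧ (¬ c.hi q u → within d q u t)) → G ∨ J (q + 1) := by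
    intro q u h1 h2 h3 h5 h6 h7
    by_cases k : c.v0 (q + 1) u < sg
    · exact Or.inl (hD q u h1 h2 h5 k h6)
    · refine Or.inr ⟨u, h5, not_lt.1 k, fun t ht hx => ?_⟩
      have := okc.ent q (by omega) u t h3 ht (h7 t hx).1 (h7 t hx).2
      omega
  have highS : ∀ q u, s ≤ q → q < r → up d q u → Hold d (q + 1) a b u →
      sg ≤ c.v q (pi d c q (low d q u)) →
      (∀ t, d.lp (q + 1) u < d.x t → d.x t < d.rp (q + 1) u → ¬ (a < d.x t ∧ d.x t < b) →
        (c.hi q u → beyond d q u t) ∧ (¬ c.hi q u → within d q u t)) → G := by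
    intro q u h1 h2 h3 h5 h6 h7
    obtain ⟨-, g2, g3⟩ := okc.gap q (by omega) u h3
    by_cases k : c.g q u < sg
    · exact hE (q + 1) u (by omega) h2 ⟨h5.1, Or.inr ⟨q, by omega, rfl,
        Or.inr ⟨h3, 1, le_rfl, by omega, by omega, by omega⟩⟩⟩ h5
    obtain ⟨t, t1, t2⟩ := H6 (q + 1) r _ _ h2 n2 (rng _ h2 u h5).1 (rng _ h2 u h5).2
    by_cases k2 : a < d.x t ∧ d.x t < b
    · have t3 : t = r := by
        by_contra k3
        exact n5 t (by have := t2.1; omega) (by omega) k2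
      subst t3
      obtain ⟨f1, f2, -⟩ := hSTAY d c ok okc (q + 1) t u h5.1 t2.1 n2.le t2.2.2.2.2
      have f3 : Hold d t a b u := ⟨h5.1, by rw [f1, f2]; exact h5.2⟩
      rw [← hG, H2 t n2.le a b y' u (by omega) hy' f3]
      exact Or.inl ⟨q, h3, not_lt.1 k, t2⟩
    · have k3 := h7 t t2.2.2.1 t2.2.2.2.1 k2
      have := okc.ent q (by omega) u t h3 t2 k3.1 k3.2
      exact hD q u h1 h2 h5 (by omega) (by omega)
  have main : ∀ q, s + 1 ≤ q → q ≤ r → G ∨ J q := by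
    intro q hq
    induction q, hq using Nat.le_induction with
    | base =>
      intro _
      obtain ⟨l1, l2, -, -, -, l3⟩ := L0
      refine keep s _ le_rfl n1 l1 l2 ⟨l1.1, ?_⟩ (hg.trans (okc.gap s (by omega) y hs).1)
        fun t ht => ⟨fun _ => ?_, fun _ => ?_⟩ <;> omega
    | succ q hq ih =>
      intro hr
      rcases ih (by omega) with k | ⟨h, j1, j2, j3⟩
      · exact Or.inl k
      obtain ⟨L1, L2, L3, -⟩ := hLINK d ok q (by omega)
      obtain ⟨P1, P2, -⟩ := (hPI d c ok).1 q (by omega)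
      have j4 := j2.trans (okc.le q h)
      by_cases k : tch d q h
      swap
      · obtain ⟨f1, f2, -⟩ := L3 h j1.1 k
        refine Or.inr ⟨h, ⟨j1.1, by rw [f1, f2]; exact j1.2⟩,
          by rw [okc.off q (by omega) h j1.1 k]; exact j4, fun t ht => j3 t ?_⟩
        obtain ⟨t1, t2, t3, t4, t5⟩ := ht
        rw [f1] at t3 t5
        rw [f2] at t4 t5
        refine ⟨by omega, t2, t3, t4, fun q' q1 q2 => ?_⟩
        rcases q1.eq_or_lt with e | e
        · subst e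
          exact fun z => k ⟨j1.1, z⟩
        · exact t5 q' e q2
      have j5 := j3 q ⟨le_rfl, by omega, k.2.1, k.2.2, fun _ _ _ => by omega⟩
      have j6 := j1.2
      have k1 := k.2
      by_cases u1 : up d q h
      · obtain ⟨-, -, -, -, -, l3⟩ := L1 h u1
        have f : Hold d (q + 1) a b h := ⟨j1.1, by omega⟩
        by_cases hi : c.hi q h
        · refine lowS q h (by omega) hr u1 f (by rw [((P1 h u1).1 hi).1]; exact j4)
            fun t ht => ⟨fun _ => ⟨fun _ => ?_, fun _ => ?_⟩, fun z => absurd hi z⟩ <;> omega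
        · refine Or.inl (highS q h (by omega) hr u1 f (by rw [((P1 h u1).2 hi).2]; exact j4)
            fun t t1 t2 t3 => ⟨fun z => absurd z hi, fun _ => ⟨fun _ => ?_, fun _ => ?_⟩⟩) <;>
            omega
      by_cases u2 : isl d q h
      · obtain ⟨u3, u4⟩ := u2
        have u5 : (d.x q < h → par d q h = d.rp q h) ∧ (¬ d.x q < h → par d q h = d.lp q h) :=
          ⟨fun z => if_pos z, fun z => if_neg z⟩
        generalize par d q h = u at u3 u4 u5
        obtain ⟨-, -, -, -, -, l3⟩ := L1 u u3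
        obtain ⟨p1, p2⟩ := P1 u u3
        have hS := highS q u (by omega) hr u3
        rw [u4] at l3 p1 p2 hS
        have f : Hold d (q + 1) a b u := ⟨u3.1.1, by omega⟩
        by_cases hi : c.hi q u
        · refine Or.inl (hS f (by rw [(p1 hi).2]; exact j4)
            fun t t1 t2 t3 => ⟨fun _ => ⟨fun _ => ?_, fun _ => ?_⟩, fun z => absurd hi z⟩) <;>
            omega
        · refine lowS q u (by omega) hr u3 f (by rw [(p2 hi).1]; exact j4)
            fun t ht => ⟨fun z => absurd z hi, fun _ => ⟨fun _ => ?_, fun _ => ?_⟩⟩ <;> omega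
      · obtain ⟨l1, l2⟩ := L2 h k u1 u2
        refine keep q h (by omega) hr k u1 ⟨j1.1, ?_⟩ (by rw [P2 h u1 u2]; exact j4)
          fun t ht => ⟨fun _ => ?_, fun _ => ?_⟩ <;> omega
  rcases main r n1 le_rfl with k | ⟨h, j1, -, j3⟩
  · exact k
  · exact absurd (Or.inl ⟨n3, n4⟩) (j3 r ⟨le_rfl, n2, (rng r le_rfl h j1).1, (rng r le_rfl h j1).2,
      fun _ _ _ => by omega⟩)

end Pool.Agent.P.MP_119182_lc.LU
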