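import Pool.Agent.P.MP_119182_lc.LU.Iface

/-! Step VIS. -/

set_option autoImplicit false

namespace Pool.Agent.P.MP_119182_lc.LU

open Finset
open scoped Classical
open NU (Run mr)

theorem vis_path (d : Run) (q : ℕ) :
    #(d.keys.filter fun y => tch d q y ∧ d.x q ≠ y) ≤ #(d.P q) + #(d.mir.P q) := by
  have h : (d.keys.filter fun y => tch d q y ∧ d.x q ≠ y) ⊆ d.P q ∪ (d.mir.P q).image mr := by
    intro y hy
    rw [mem_filter] at hy
    obtain ⟨_, ⟨⟨h1, h2⟩, h3, h4⟩, h5⟩ := hy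
    rcases lt_or_gt_of_ne h5 with h | h
    · refine mem_union_left _ ?_
      simp only [NU.Run.P, mem_filter, mem_Ioo]
      exact ⟨⟨h, h2⟩, h3⟩
    · refine mem_union_right _ (mem_image.2 ⟨mr y, ?_, by simp [mr]⟩)
      have e : mr (mr y) = y := by simp [mr]
      simp only [NU.Run.P, NU.Run.mir, mem_filter, mem_Ioo, e]
      simp only [mr]
      refine ⟨⟨by omega, by omega⟩, by omega⟩
  calc _ ≤ #(d.P q ∪ (d.mir.P q).image mr) := card_le_card h
    _ ≤ #(d.P q) + #((d.mir.P q).image mr) := card_union_le _ _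
    _ ≤ _ := Nat.add_le_add_left card_image_le _

theorem vis_uniq (d : Run) (c : Val) (sg : ℕ) (w : ℤ) (t0 t1 s0 s1 q : ℕ)
    (h : Dem d c sg w t0 t1) (h' : Dem d c sg w s0 s1)
    (a : t0 < q) (b : q ≤ t1) (a' : s0 < q) (b' : q ≤ s1) : t0 = s0 ∧ t1 = s1 := by
  obtain ⟨u1, _, al, _⟩ := h
  obtain ⟨u2, _, al', _⟩ := h'
  constructor
  · rcases lt_trichotomy t0 s0 with k | k | k
    · exact absurd u2 (al.nlo s0 (by omega) (by omega))
    · exact k
    · exact absurd u1 (al'.nlo t0 (by omega) (by omega))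
  · rcases lt_trichotomy t1 s1 with k | k | k
    · exact absurd al.lo (al'.nlo t1 (by omega) k)
    · exact k
    · exact absurd al'.lo (al.nlo s1 (by omega) k)

theorem p_VIS (hPI : S_PI) (hSIDE : S_SIDE) :
    S_VIS := by
  intro d c sg th hd hc hsg
  set A := (DEM d c sg).filter fun p => th ≤ #(vis d c p.1 p.2.1 p.2.2) with hA
  have hdem : ∀ p ∈ A, Dem d c sg p.1 p.2.1 p.2.2 := by
    intro p hp
    rw [hA, mem_filter] at hp
    have := hp.1
    rw [DEM, mem_filter] at this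
    exact this.2
  have h1 : th * #A ≤ ∑ p ∈ A, #(vis d c p.1 p.2.1 p.2.2) := by
    rw [mul_comm]
    have := card_nsmul_le_sum A (fun p => #(vis d c p.1 p.2.1 p.2.2)) th (by
      intro p hp
      rw [hA, mem_filter] at hp
      exact hp.2)
    simpa using this
  have h2 : ∑ p ∈ A, #(vis d c p.1 p.2.1 p.2.2) =
      #(A.sigma fun p => vis d c p.1 p.2.1 p.2.2) := (card_sigma _ _).symm
  have h3 : #(A.sigma fun p => vis d c p.1 p.2.1 p.2.2) ≤
      #((range d.m).sigma fun q => d.keys.filter fun y => tch d q y ∧ d.x q ≠ y) := by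
    refine card_le_card_of_injOn
      (fun z => (⟨z.2, pos d c z.2 z.1.1⟩ : (_ : ℕ) × ℤ)) ?_ ?_
    · intro z hz
      rw [mem_coe, mem_sigma] at hz
      obtain ⟨hz1, hz2⟩ := hz
      have hD := hdem _ hz1
      rw [vis, mem_filter, mem_Ioc] at hz2
      obtain ⟨⟨a, b⟩, ht⟩ := hz2
      have al := hD.2.2.1
      have hs := (hSIDE d c sg hd hc hsg _ _ _ al).2.1 z.2 (by omega) b
      have hlt := al.lt
      rw [mem_coe, mem_sigma, mem_range, mem_filter]
      refine ⟨by dsimp only; omega, ?_, ht, hs⟩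
      simp only [NU.Run.keys, mem_Ioo]
      exact ht.1
    · rintro ⟨⟨w, t0, t1⟩, q⟩ hz ⟨⟨w', s0, s1⟩, q'⟩ hz' e
      rw [mem_coe, mem_sigma] at hz hz'
      obtain ⟨hz1, hz2⟩ := hz
      obtain ⟨hy1, hy2⟩ := hz'
      have hD := hdem _ hz1
      have hD' := hdem _ hy1
      rw [vis, mem_filter, mem_Ioc] at hz2 hy2
      dsimp only at e hD hD' hz2 hy2
      simp only [Sigma.mk.inj_iff, heq_eq_eq] at e
      obtain ⟨e1, e2⟩ := e
      subst e1
      have hlt := hD.2.2.1.lt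
      have hw : w = w' :=
        ((hPI d c hd).2 q (by omega)).2.1 w w' hD.2.2.1.key hD'.2.2.1.key e2
      subst hw
      obtain ⟨k0, k1⟩ := vis_uniq d c sg w t0 t1 s0 s1 q hD hD' hz2.1.1 hz2.1.2 hy2.1.1 hy2.1.2
      subst k0
      subst k1
      rfl
  have h4 : #((range d.m).sigma fun q => d.keys.filter fun y => tch d q y ∧ d.x q ≠ y) ≤
      d.NR + d.mir.NR := by
    rw [card_sigma]
    have e : d.mir.NR = ∑ i ∈ range d.m, #(d.mir.P i) := rfl
    rw [e, NU.Run.NR, ← sum_add_distrib]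
    exact sum_le_sum fun q _ => vis_path d q
  omega

end Pool.Agent.P.MP_119182_lc.LU
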