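import Pool.Agent.P.MP_119182_lc.LU.TLINK
import Pool.Agent.P.MP_119182_lc.LU.TPI
import Pool.Agent.P.MP_119182_lc.LU.TSTAY
import Pool.Agent.P.MP_119182_lc.LU.THOLD
import Pool.Agent.P.MP_119182_lc.LU.TEVC
import Pool.Agent.P.MP_119182_lc.LU.TANC
import Pool.Agent.P.MP_119182_lc.LU.TSTAR
import Pool.Agent.P.MP_119182_lc.LU.TPAIR
import Pool.Agent.P.MP_119182_lc.LU.TDEM
import Pool.Agent.P.MP_119182_lc.LU.TALIVE
import Pool.Agent.P.MP_119182_lc.LU.TSIDE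
import Pool.Agent.P.MP_119182_lc.LU.TVIS
import Pool.Agent.P.MP_119182_lc.LU.TSTEPI
import Pool.Agent.P.MP_119182_lc.LU.TSTEPO
import Pool.Agent.P.MP_119182_lc.LU.TUPV
import Pool.Agent.P.MP_119182_lc.LU.TDOWNV
import Pool.Agent.P.MP_119182_lc.LU.TLI
import Pool.Agent.P.MP_119182_lc.LU.TLO
import Pool.Agent.P.MP_119182_lc.LU.TCOV
import Pool.Agent.P.MP_119182_lc.LU.TMULT
import Pool.Agent.P.MP_119182_lc.LU.TMIRA
import Pool.Agent.P.MP_119182_lc.LU.TMIR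
import Pool.Agent.P.MP_119182_lc.LU.TSCALE
import Pool.Agent.P.MP_119182_lc.LU.TAVG
import Pool.Agent.P.MP_119182_lc.LU.TSUM
import Pool.Agent.P.MP_119182_lc.LU.TT

/-! All steps. -/

set_option autoImplicit false

namespace Pool.Agent.P.MP_119182_lc.LU

theorem a_LINK : S_LINK := p_LINK
theorem a_PI : S_PI := p_PI a_LINK
theorem a_STAY : S_STAY := p_STAY a_LINK a_PI
theorem a_HOLD : S_HOLD := p_HOLD
theorem a_EVC : S_EVC := p_EVC a_LINK a_PI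
theorem a_ANC : S_ANC := p_ANC a_HOLD
theorem a_STAR : S_STAR := p_STAR
theorem a_PAIR : S_PAIR := p_PAIR a_LINK a_PI a_STAR
theorem a_DEM : S_DEM := p_DEM a_LINK a_PI a_PAIR
theorem a_ALIVE : S_ALIVE := p_ALIVE a_LINK a_PI a_STAY a_HOLD
theorem a_SIDE : S_SIDE := p_SIDE a_LINK a_PI a_STAY a_HOLD
theorem a_VIS : S_VIS := p_VIS a_PI a_SIDE
theorem a_STEPI : S_STEPI := p_STEPI a_LINK a_PI a_STAY a_HOLD a_ALIVE
theorem a_STEPO : S_STEPO := p_STEPO a_LINK a_PI a_STAY a_HOLD a_ALIVE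
theorem a_UPV : S_UPV := p_UPV a_LINK a_PI a_STAY a_HOLD
theorem a_DOWNV : S_DOWNV := p_DOWNV a_LINK a_PI a_STAY a_HOLD
theorem a_LI : S_LI := p_LI a_STAY a_HOLD a_STAR a_UPV
theorem a_LO : S_LO := p_LO a_LINK a_STAY a_HOLD a_STAR a_DOWNV
theorem a_COV : S_COV := p_COV a_LINK a_PI a_STAY a_HOLD a_ALIVE a_SIDE a_STEPI a_STEPO a_LI a_LO
theorem a_MULT : S_MULT := p_MULT a_PI a_SIDE
theorem a_MIRA : S_MIRA := p_MIRA
theorem a_MIR : S_MIR := p_MIR a_MIRA a_SIDE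
theorem a_SCALE : S_SCALE := p_SCALE a_EVC a_ANC a_DEM a_VIS a_COV a_MULT a_MIR
theorem a_AVG : S_AVG := p_AVG
theorem a_SUM : S_SUM := p_SUM
theorem a_T : S_T := p_T a_SCALE a_AVG a_SUM

end Pool.Agent.P.MP_119182_lc.LU
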