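import Pool.Agent.P.MP_119182_lc.NU.Base

/-! Values carried by the nodes of an abstract run: links with a positive gap are paid by the
raises of the values. -/

set_option autoImplicit false

namespace Pool.Agent.P.MP_119182_lc.LU

open Finset
open scoped Classical
open NU (Run mr)

/-- Values before (`v0`) and after (`v`) the raises of a state, and for the link with upper node
`u` of step `s` its gap `g s u` and the bit `hi s u` (the token of the lower node is the high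
one). -/
structure Val where
  v0 : ℕ → ℤ → ℕ
  v : ℕ → ℤ → ℕ
  hi : ℕ → ℤ → Prop
  g : ℕ → ℤ → ℕ

/-- The mirror image. -/
def Val.mir (c : Val) : Val where
  v0 := fun s y => c.v0 s (mr y)
  v := fun s y => c.v s (mr y)
  hi := fun s y => c.hi s (mr y)
  g := fun s y => c.g s (mr y)

section
variable (d : Run) (c : Val)

def key (y : ℤ) : Prop := d.L < y ∧ y < d.R

/-- The access `s` lies in the range of `y`. -/
def tch (s : ℕ) (y : ℤ) : Prop := key d y ∧ d.lp s y < d.x s ∧ d.x s < d.rp s y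

/-- `u` is the upper node of a link of step `s`. -/
def up (s : ℕ) (u : ℤ) : Prop :=
  tch d s u ∧ ((d.x s < u ∧ d.lp (s + 1) u ≠ d.x s) ∨ (u < d.x s ∧ d.rp (s + 1) u ≠ d.x s))

/-- The lower node of the link of `u`. -/
noncomputable def low (s : ℕ) (u : ℤ) : ℤ := if d.x s < u then d.lp (s + 1) u else d.rp (s + 1) u

/-- The next node of the path on the side of `p`. -/
noncomputable def par (s : ℕ) (p : ℤ) : ℤ := if d.x s < p then d.rp s p else d.lp s p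

/-- `p` is the lower node of a link of step `s`. -/
def isl (s : ℕ) (p : ℤ) : Prop := up d s (par d s p) ∧ low d s (par d s p) = p

/-- Who inherits the value: the high token goes to the lower node, the other to the upper. -/
noncomputable def pi (s : ℕ) (y : ℤ) : ℤ :=
  if up d s y ∧ ¬ c.hi s y then low d s y
  else if isl d s y ∧ ¬ c.hi s (par d s y) then par d s y else y

/-- The holder of the lineage `w` at state `s`. -/
noncomputable def pos : ℕ → ℤ → ℤ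
  | 0, w => w
  | s + 1, w => pi d c s (pos s w)

/-- `t` is the first time from `s` on with an access strictly between `a` and `b`. -/
def First (s : ℕ) (a b : ℤ) (t : ℕ) : Prop :=
  s ≤ t ∧ t < d.m ∧ a < d.x t ∧ d.x t < b ∧ ∀ q, s ≤ q → q < t → ¬ (a < d.x q ∧ d.x q < b)

/-- `t` is the next touch of `y` from state `s` on. -/
def Nx (s : ℕ) (y : ℤ) (t : ℕ) : Prop := First d s (d.lp s y) (d.rp s y) t

/-- Access `t` is at `y` or on the other side of `y` than access `s`. -/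
def beyond (s : ℕ) (y : ℤ) (t : ℕ) : Prop := (d.x s < y → y ≤ d.x t) ∧ (y < d.x s → d.x t ≤ y)

/-- Access `t` is at `y` or on the same side of `y` as access `s`. -/
def within (s : ℕ) (y : ℤ) (t : ℕ) : Prop := (d.x s < y → d.x t ≤ y) ∧ (y < d.x s → y ≤ d.x t)

/-- The hypotheses on the values. -/
structure OK : Prop where
  le : ∀ s y, c.v0 s y ≤ c.v s y
  zero : ∀ y, c.v0 0 y = 0
  off : ∀ s < d.m, ∀ y, key d y → ¬ tch d s y → c.v0 (s + 1) y = c.v s y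
  acc : ∀ s < d.m, c.v0 (s + 1) (d.x s) = 0
  mono : ∀ s < d.m, ∀ y, key d y → c.v0 (s + 1) y ≤ c.v s (pi d c s y)
  gap : ∀ s < d.m, ∀ u, up d s u → c.g s u ≤ c.v s (pi d c s (low d s u)) ∧
    c.v0 (s + 1) (low d s u) ≤ c.g s u ∧ c.v0 (s + 1) u + c.g s u ≤ c.v s (pi d c s u)
  turn : ∀ s < d.m, ∀ y t, tch d s y → ¬ up d s y → Nx d (s + 1) y t → beyond d s y t →
    c.v0 (s + 1) y = 0
  ent : ∀ s < d.m, ∀ u t, up d s u → Nx d (s + 1) u t → (c.hi s u → beyond d s u t) →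
    (¬ c.hi s u → within d s u t) → c.v0 (s + 1) u = 0

/-- All links. -/
noncomputable def LK : Finset (ℕ × ℤ) := (range d.m ×ˢ d.keys).filter fun p => up d p.1 p.2

/-- The raises through `th`. -/
noncomputable def UP (th : ℕ) : ℕ :=
  #((range d.m ×ˢ d.keys).filter fun p => c.v0 p.1 p.2 < th ∧ th ≤ c.v p.1 p.2)

variable (sg : ℕ)

/-- The value inherited by `h` at step `s` falls through `sg`, `2 sg`, `3 sg` or `4 sg`. -/
def dn (s : ℕ) (h : ℤ) : Prop :=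
  ∃ k, 1 ≤ k ∧ k ≤ 4 ∧ c.v0 (s + 1) h < k * sg ∧ k * sg ≤ c.v s (pi d c s h)

/-- Events, named by a state and a node. -/
def ev (st : ℕ) (h : ℤ) : Prop :=
  key d h ∧ ((st < d.m ∧ c.v0 st h < sg ∧ sg ≤ c.v st h) ∨
    ∃ s < d.m, st = s + 1 ∧ (dn d c sg s h ∨ (up d s h ∧ dn d c sg s (low d s h))))

noncomputable def EV : Finset (ℕ × ℤ) :=
  (range (d.m + 1) ×ˢ d.keys).filter fun p => ev d c sg p.1 p.2

/-- Anchors: a time and a position fixed by an event. -/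
def anc (s : ℕ) (z : ℤ) : Prop :=
  ∃ st h, ev d c sg st h ∧ ((st = s + 1 ∧ (z = h ∨ z = h + 1)) ∨
    (First d st (d.lp st h) h s ∧ z = h) ∨ (First d st h (d.rp st h) s ∧ z = d.rp st h) ∨
    (Nx d st h s ∧ z = d.rp st h))

noncomputable def ANC : Finset (ℕ × ℤ) :=
  (range d.m ×ˢ Icc d.L d.R).filter fun p => anc d c sg p.1 p.2

/-- The lineage `w` is deep from state `s` on and is the low token of a link first at step `t`. -/
structure Al (w : ℤ) (s t : ℕ) : Prop where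
  le : s ≤ t
  lt : t < d.m
  key : key d w
  lo : up d t (pos d c (t + 1) w)
  nlo : ∀ q, s ≤ q → q < t → ¬ up d q (pos d c (q + 1) w)
  deep : ∀ q, s ≤ q → q ≤ t → 4 * sg ≤ c.v0 q (pos d c q w)

/-- A demand. -/
def Dem (w : ℤ) (t0 t1 : ℕ) : Prop :=
  up d t0 (pos d c (t0 + 1) w) ∧ sg ≤ c.g t0 (pos d c (t0 + 1) w) ∧ Al d c sg w (t0 + 1) t1 ∧
    c.v t1 (pi d c t1 (low d t1 (pos d c (t1 + 1) w))) < 4 * sg

noncomputable def DEM : Finset (ℤ × ℕ × ℕ) :=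
  (d.keys ×ˢ range d.m ×ˢ range d.m).filter fun p => Dem d c sg p.1 p.2.1 p.2.2

/-- The visits of a lineage. -/
noncomputable def vis (w : ℤ) (t0 t1 : ℕ) : Finset ℕ :=
  (Ioc t0 t1).filter fun q => tch d q (pos d c q w)

/-- Demands with few visits whose token is on the right path. -/
noncomputable def DR (th : ℕ) : Finset (ℤ × ℕ × ℕ) :=
  (DEM d c sg).filter fun p =>
    #(vis d c p.1 p.2.1 p.2.2) < th ∧ d.x p.2.2 < pos d c p.2.2 p.1

/-- The holder of `w` is on the right path of access `s`. -/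
def rv (s : ℕ) (w : ℤ) : Prop := tch d s (pos d c s w) ∧ d.x s < pos d c s w

def GoodI (w : ℤ) (t1 s : ℕ) (z : ℤ) : Prop :=
  ∀ w' t', Al d c sg w' s t' → rv d c s w' → pos d c s w < pos d c s w' → pos d c s w' < z →
    t' < t1 ∧ tch d t' (pos d c t' w)

def GoodO (w : ℤ) (t1 s : ℕ) (z : ℤ) : Prop :=
  ∀ w' t', Al d c sg w' s t' → rv d c s w' → z ≤ pos d c s w' → pos d c s w' < pos d c s w →
    t' < t1 ∧ tch d t' (pos d c t' w)

def CovI (w : ℤ) (t0 t1 s : ℕ) (z : ℤ) : Prop :=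
  t0 < s ∧ s ≤ t1 ∧ rv d c s w ∧ pos d c s w < z ∧ GoodI d c sg w t1 s z

def CovO (w : ℤ) (t0 t1 s : ℕ) (z : ℤ) : Prop :=
  t0 < s ∧ s ≤ t1 ∧ rv d c s w ∧ z ≤ pos d c s w ∧ GoodO d c sg w t1 s z

/-- A shallow node of the right path right of the holder. -/
def InvI (w : ℤ) (t1 s : ℕ) : Prop :=
  ∃ y, tch d s y ∧ pos d c s w < y ∧ c.v s y < 4 * sg ∧ GoodI d c sg w t1 s y

/-- The access itself or a shallow node of the right path left of the holder. -/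
def InvO (w : ℤ) (t1 s : ℕ) : Prop :=
  ∃ y, (y = d.x s ∨ (tch d s y ∧ d.x s < y ∧ c.v s y < 4 * sg)) ∧ y < pos d c s w ∧
    GoodO d c sg w t1 s (y + 1)

/-- The interval between `a` and `b` is the range of a child of `h` at state `s`. -/
def Hold (s : ℕ) (a b h : ℤ) : Prop :=
  key d h ∧ ((h = a ∧ d.rp s h = b) ∨ (h = b ∧ d.lp s h = a))

/-- The last touch of `y` before `r` made it the upper node of a link with a large gap. -/
def Nice (r : ℕ) (y : ℤ) : Prop := ∃ s, up d s y ∧ sg ≤ c.g s y ∧ Nx d (s + 1) y r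

/-- The price of all raises. -/
noncomputable def price : ℕ :=
  ∑ p ∈ range d.m ×ˢ d.keys, Nat.size (c.v p.1 p.2 - c.v0 p.1 p.2) ^ 3

end

/-! ### One step -/

-- deps:
def S_LINK : Prop :=
  ∀ d : Run, d.OK → ∀ s < d.m,
    (∀ u, up d s u → tch d s (low d s u) ∧ ¬ up d s (low d s u) ∧ par d s (low d s u) = u ∧
      isl d s (low d s u) ∧ ¬ isl d s u ∧
      ((d.x s < low d s u ∧ low d s u < u ∧ d.rp s (low d s u) = u ∧
          d.lp (s + 1) (low d s u) = d.x s ∧ d.rp (s + 1) (low d s u) = d.rp s u ∧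
          d.lp (s + 1) u = low d s u ∧ d.rp (s + 1) u = d.rp s u) ∨
        (low d s u < d.x s ∧ u < low d s u ∧ d.lp s (low d s u) = u ∧
          d.rp (s + 1) (low d s u) = d.x s ∧ d.lp (s + 1) (low d s u) = d.lp s u ∧
          d.rp (s + 1) u = low d s u ∧ d.lp (s + 1) u = d.lp s u))) ∧
    (∀ y, tch d s y → ¬ up d s y → ¬ isl d s y →
      (d.x s < y → d.lp (s + 1) y = d.x s ∧ d.rp (s + 1) y = d.rp s y) ∧
      (y < d.x s → d.rp (s + 1) y = d.x s ∧ d.lp (s + 1) y = d.lp s y)) ∧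
    (∀ y, key d y → ¬ tch d s y → d.lp (s + 1) y = d.lp s y ∧ d.rp (s + 1) y = d.rp s y ∧
      ¬ up d s y ∧ ¬ isl d s y) ∧
    (tch d s (d.x s) ∧ ¬ up d s (d.x s) ∧ ¬ isl d s (d.x s) ∧
      d.lp (s + 1) (d.x s) = d.L ∧ d.rp (s + 1) (d.x s) = d.R) ∧
    (∀ y, key d y → (d.x s < y → d.x s ≤ d.lp (s + 1) y) ∧ (y < d.x s → d.rp (s + 1) y ≤ d.x s))

-- deps: LINK
def S_PI : Prop :=
  ∀ (d : Run) (c : Val), d.OK →
    (∀ s < d.m,
      (∀ u, up d s u → (c.hi s u → pi d c s u = u ∧ pi d c s (low d s u) = low d s u) ∧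
        (¬ c.hi s u → pi d c s u = low d s u ∧ pi d c s (low d s u) = u)) ∧
      (∀ y, ¬ up d s y → ¬ isl d s y → pi d c s y = y) ∧
      ∀ y, key d y → key d (pi d c s y) ∧ pi d c s (pi d c s y) = y ∧
        (tch d s y ↔ tch d s (pi d c s y)) ∧ (d.x s < y ↔ d.x s < pi d c s y) ∧
        (y < d.x s ↔ pi d c s y < d.x s)) ∧
    ∀ s ≤ d.m, (∀ w, key d w → key d (pos d c s w)) ∧
      (∀ w w', key d w → key d w' → pos d c s w = pos d c s w' → w = w') ∧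
      ∀ y, key d y → ∃ w, key d w ∧ pos d c s w = y

-- deps: LINK PI
/-- A node whose range is not accessed does not change. -/
def S_STAY : Prop :=
  ∀ (d : Run) (c : Val), d.OK → OK d c → ∀ (s t : ℕ) (y : ℤ), key d y → s ≤ t → t ≤ d.m →
    (∀ q, s ≤ q → q < t → ¬ (d.lp s y < d.x q ∧ d.x q < d.rp s y)) →
    d.lp t y = d.lp s y ∧ d.rp t y = d.rp s y ∧ c.v s y ≤ c.v t y ∧
      (s < t → c.v s y ≤ c.v0 t y) ∧ (∀ w, pos d c s w = y → pos d c t w = y) ∧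
      ∀ q, s ≤ q → q < t → ¬ tch d q y

-- deps:
/-- Parents, roots of ranges and first accesses. -/
def S_HOLD : Prop :=
  ∀ d : Run, d.OK →
    (∀ s ≤ d.m, ∀ y, key d y → (d.L < d.lp s y ∨ d.rp s y < d.R) →
      ∃ h, Hold d s (d.lp s y) (d.rp s y) h) ∧
    (∀ s ≤ d.m, ∀ a b h h', a < b → Hold d s a b h → Hold d s a b h' → h = h') ∧
    (∀ s ≤ d.m, ∀ a b h z, Hold d s a b h → a < z → z < b →
      ∃ y, key d y ∧ d.lp s y = a ∧ d.rp s y = b) ∧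
    (∀ s ≤ d.m, ∀ y y', key d y → key d y' → d.lp s y = d.lp s y' → d.rp s y = d.rp s y' →
      y = y') ∧
    (∀ s < d.m, ∀ y y', tch d s y → tch d s y' → y < y' →
      (d.x s ≤ y → d.rp s y ≤ y') ∧ (y' ≤ d.x s → y ≤ d.lp s y')) ∧
    (∀ (s t : ℕ) (a b : ℤ), s ≤ t → t < d.m → a < d.x t → d.x t < b → ∃ r ≤ t, First d s a b r) ∧
    ∀ (s r r' : ℕ) (a b : ℤ), First d s a b r → First d s a b r' → r = r'

/-! ### Counting events -/

-- deps: LINK PI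
def S_EVC : Prop :=
  ∀ (d : Run) (c : Val) (sg : ℕ), d.OK → OK d c →
    #(EV d c sg) ≤ 3 * (UP d c sg + UP d c (2 * sg) + UP d c (3 * sg) + UP d c (4 * sg))

-- deps: HOLD
def S_ANC : Prop :=
  ∀ (d : Run) (c : Val) (sg : ℕ), d.OK → #(ANC d c sg) ≤ 5 * #(EV d c sg) ∧
    ∀ s z, anc d c sg s z → (s, z) ∈ ANC d c sg

-- deps:
def S_STAR : Prop :=
  ∀ (d : Run) (c : Val) (sg : ℕ), OK d c → 1 ≤ sg → ∀ s < d.m, ∀ u, up d s u → sg ≤ c.g s u →
    c.v0 (s + 1) u < 4 * sg → dn d c sg s u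

-- deps: LINK PI STAR
/-- Between two consecutive low links of one lineage: an event or a demand. -/
def S_PAIR : Prop :=
  ∀ (d : Run) (c : Val) (sg : ℕ), d.OK → OK d c → 1 ≤ sg →
    #((d.keys ×ˢ range d.m ×ˢ range d.m).filter fun p : ℤ × ℕ × ℕ => p.2.1 < p.2.2 ∧
      up d p.2.1 (pos d c (p.2.1 + 1) p.1) ∧ sg ≤ c.g p.2.1 (pos d c (p.2.1 + 1) p.1) ∧
      up d p.2.2 (pos d c (p.2.2 + 1) p.1) ∧ c.g p.2.2 (pos d c (p.2.2 + 1) p.1) < 4 * sg ∧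
      ∀ q, p.2.1 < q → q < p.2.2 → ¬ up d q (pos d c (q + 1) p.1)) ≤
    2 * #(EV d c sg) + #(DEM d c sg)

-- deps: LINK PI PAIR
def S_DEM : Prop :=
  ∀ (d : Run) (c : Val) (sg G0 G1 : ℕ), d.OK → OK d c → 1 ≤ sg → sg ≤ G0 → G0 ≤ G1 →
    G1 ≤ 4 * sg →
    #((LK d).filter fun p => G0 ≤ c.g p.1 p.2 ∧ c.g p.1 p.2 < G1) ≤
      3 * #(EV d c sg) + #(DEM d c sg)

/-! ### Lineages that are alive -/

-- deps: LINK PI STAY HOLD
def S_ALIVE : Prop :=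
  ∀ (d : Run) (c : Val) (sg : ℕ), d.OK → OK d c → 1 ≤ sg → ∀ (w h : ℤ) (s t : ℕ),
    Al d c sg w s t → rv d c s w → s < t → h = pos d c (s + 1) w →
    tch d s h ∧ ¬ up d s h ∧ d.x s < h ∧ h ≤ pos d c s w ∧ pos d c s w < d.rp (s + 1) h ∧
      d.lp (s + 1) h = d.x s ∧ 4 * sg ≤ c.v s h ∧ (isl d s h → 4 * sg ≤ c.v s (d.rp s h)) ∧
      ∃ s', Nx d (s + 1) h s' ∧ s' ≤ t ∧ rv d c s' w ∧ Al d c sg w s' t ∧
        ∀ q, s < q → q ≤ s' → pos d c q w = h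

-- deps: LINK PI STAY HOLD
def S_SIDE : Prop :=
  ∀ (d : Run) (c : Val) (sg : ℕ), d.OK → OK d c → 1 ≤ sg → ∀ (w : ℤ) (s t : ℕ),
    Al d c sg w s t → tch d t (pos d c t w) ∧
      (∀ q, s ≤ q → q ≤ t → d.x q ≠ pos d c q w) ∧
      (d.x t < pos d c t w → ∀ q, s ≤ q → q ≤ t → tch d q (pos d c q w) → rv d c q w)

-- deps: PI SIDE
def S_VIS : Prop :=
  ∀ (d : Run) (c : Val) (sg th : ℕ), d.OK → OK d c → 1 ≤ sg →
    th * #((DEM d c sg).filter fun p => th ≤ #(vis d c p.1 p.2.1 p.2.2)) ≤ d.NR + d.mir.NR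

-- deps: LINK PI STAY HOLD ALIVE
def S_STEPI : Prop :=
  ∀ (d : Run) (c : Val) (sg : ℕ), d.OK → OK d c → 1 ≤ sg → ∀ (w : ℤ) (s s' t1 : ℕ),
    Al d c sg w s t1 → rv d c s w → s < t1 → Nx d (s + 1) (pos d c (s + 1) w) s' →
    InvI d c sg w t1 s' →
    InvI d c sg w t1 s ∨ ∃ z, key d z ∧ dn d c sg s z ∧ pos d c s w < z ∧ GoodI d c sg w t1 s z

-- deps: LINK PI STAY HOLD ALIVE
def S_STEPO : Prop :=
  ∀ (d : Run) (c : Val) (sg : ℕ), d.OK → OK d c → 1 ≤ sg → ∀ (w : ℤ) (s s' t1 : ℕ),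
    Al d c sg w s t1 → rv d c s w → s < t1 → Nx d (s + 1) (pos d c (s + 1) w) s' →
    InvO d c sg w t1 s' →
    InvO d c sg w t1 s ∨
      ∃ z, key d z ∧ dn d c sg s z ∧ z < pos d c s w ∧ GoodO d c sg w t1 s (z + 1)

/-! ### Before the release -/

-- deps: LINK PI STAY HOLD
def S_UPV : Prop :=
  ∀ (d : Run) (c : Val) (sg : ℕ), d.OK → OK d c → 1 ≤ sg → ∀ (r : ℕ) (y y' : ℤ),
    Nice d c sg r y → Hold d r (d.lp r y) (d.rp r y) y' →
    Nice d c sg r y' ∨ anc d c sg r (d.rp r y)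

-- deps: LINK PI STAY HOLD
def S_DOWNV : Prop :=
  ∀ (d : Run) (c : Val) (sg : ℕ), d.OK → OK d c → 1 ≤ sg → ∀ (r : ℕ) (y y' : ℤ),
    Nice d c sg r y' → tch d r y → Hold d r (d.lp r y) (d.rp r y) y' →
    Nice d c sg r y ∨ anc d c sg r (d.rp r y)

-- deps: STAY HOLD STAR UPV
def S_LI : Prop :=
  ∀ (d : Run) (c : Val) (sg : ℕ), d.OK → OK d c → 1 ≤ sg → ∀ (r : ℕ) (y J : ℤ),
    Nice d c sg r y → tch d r J → d.x r < J → c.v r J < 4 * sg → (J = y ∨ d.rp r y ≤ J) →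
    ∃ z, anc d c sg r z ∧ min (d.rp r y) J ≤ z ∧ z ≤ J

-- deps: LINK STAY HOLD STAR DOWNV
def S_LO : Prop :=
  ∀ (d : Run) (c : Val) (sg : ℕ), d.OK → OK d c → 1 ≤ sg → ∀ (r : ℕ) (a b y' J : ℤ),
    Nice d c sg r y' → Hold d r a b y' → a < d.x r → J < b →
    (J = d.x r ∨ (tch d r J ∧ d.x r < J ∧ c.v r J < 4 * sg)) →
    ∃ z, anc d c sg r z ∧ J < z ∧ z ≤ b

/-! ### Covers -/

-- deps: LINK PI STAY HOLD ALIVE SIDE STEPI STEPO LI LO
def S_COV : Prop :=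
  ∀ (d : Run) (c : Val) (sg : ℕ), d.OK → OK d c → 1 ≤ sg → ∀ (w : ℤ) (t0 t1 : ℕ),
    Dem d c sg w t0 t1 → d.x t1 < pos d c t1 w →
    ∃ s z, anc d c sg s z ∧ (CovI d c sg w t0 t1 s z ∨ CovO d c sg w t0 t1 s z)

-- deps: PI SIDE
def S_MULT : Prop :=
  ∀ (d : Run) (c : Val) (sg th : ℕ), d.OK → OK d c → 1 ≤ sg → ∀ (s : ℕ) (z : ℤ),
    #((DR d c sg th).filter fun p => CovI d c sg p.1 p.2.1 p.2.2 s z) ≤ th ∧
    #((DR d c sg th).filter fun p => CovO d c sg p.1 p.2.1 p.2.2 s z) ≤ th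

-- deps:
/-- The definitions in the mirror. -/
def S_MIRA : Prop :=
  ∀ (d : Run) (c : Val),
    (∀ y, key d.mir (mr y) ↔ key d y) ∧ (∀ s y, tch d.mir s (mr y) ↔ tch d s y) ∧
    (∀ s y, up d.mir s (mr y) ↔ up d s y) ∧
    (∀ s y, up d s y → low d.mir s (mr y) = mr (low d s y)) ∧
    (∀ s y, pi d.mir c.mir s (mr y) = mr (pi d c s y)) ∧
    (∀ s w, pos d.mir c.mir s (mr w) = mr (pos d c s w)) ∧
    (∀ s y t, Nx d.mir s (mr y) t ↔ Nx d s y t) ∧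
    (d.OK → d.mir.OK) ∧ (OK d c → OK d.mir c.mir)

-- deps: MIRA SIDE
def S_MIR : Prop :=
  ∀ (d : Run) (c : Val), d.OK → OK d c → d.mir.OK ∧ OK d.mir c.mir ∧
    (∀ th, UP d.mir c.mir th = UP d c th) ∧
    ∀ sg th, 1 ≤ sg → #((DEM d c sg).filter fun p => #(vis d c p.1 p.2.1 p.2.2) < th) ≤
      #(DR d c sg th) + #(DR d.mir c.mir sg th)

/-! ### The end -/

-- deps: EVC ANC DEM VIS COV MULT MIR
def S_SCALE : Prop :=
  ∀ (d : Run) (c : Val) (sg G0 G1 th : ℕ), d.OK → OK d c → 1 ≤ sg → sg ≤ G0 → G0 ≤ G1 →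
    G1 ≤ 4 * sg → 1 ≤ th →
    th * #((LK d).filter fun p => G0 ≤ c.g p.1 p.2 ∧ c.g p.1 p.2 < G1) ≤ d.NR + d.mir.NR +
      70 * th ^ 2 * (UP d c sg + UP d c (2 * sg) + UP d c (3 * sg) + UP d c (4 * sg))

-- deps:
def S_AVG : Prop :=
  ∀ (d : Run) (c : Val) (i : ℕ), 1 ≤ i → ∃ sg, 1 ≤ sg ∧ sg ≤ 2 ^ (i - 1) ∧ 2 ^ i ≤ 4 * sg ∧
    ((UP d c sg + UP d c (2 * sg) + UP d c (3 * sg) + UP d c (4 * sg) : ℕ) : ℝ) ≤
      ∑ p ∈ range d.m ×ˢ d.keys,
        4 * min (1 : ℝ) (4 * ((c.v p.1 p.2 - c.v0 p.1 p.2 : ℕ) : ℝ) / 2 ^ i)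

-- deps:
def S_SUM : Prop :=
  (∀ J : ℕ, ∑ i ∈ Icc 1 J, (1 : ℝ) / (i : ℝ) ^ 2 ≤ 2) ∧
  ∃ C : ℕ, ∀ D J : ℕ, ∑ i ∈ Icc 1 J, (i : ℝ) ^ 2 * min (1 : ℝ) (4 * (D : ℝ) / 2 ^ i) ≤
    C * (Nat.size D : ℝ) ^ 3

-- deps: SCALE AVG SUM
def S_T : Prop :=
  ∃ C : ℕ, ∀ (K : ℕ) (d : Run) (c : Val), d.OK → OK d c →
    K * #((LK d).filter fun p => 1 ≤ c.g p.1 p.2) ≤
      2 * (d.NR + d.mir.NR) + C * K ^ 2 * price d c

end Pool.Agent.P.MP_119182_lc.LU
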