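import Pool.Agent.P.MP_119182_lc.LU.Iface

/-! Step LINK. -/

set_option autoImplicit false

namespace Pool.Agent.P.MP_119182_lc.LU

open Finset
open scoped Classical
open NU (Run mr)

theorem link_core (d : Run) (hd : d.OK) (s : ℕ) (hs : s < d.m) (u : ℤ) (hu : up d s u) :
    tch d s (low d s u) ∧ ¬ up d s (low d s u) ∧ par d s (low d s u) = u ∧
      ((d.x s < low d s u ∧ low d s u < u ∧ d.rp s (low d s u) = u ∧
          d.lp (s + 1) (low d s u) = d.x s ∧ d.rp (s + 1) (low d s u) = d.rp s u ∧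
          d.lp (s + 1) u = low d s u ∧ d.rp (s + 1) u = d.rp s u) ∨
        (low d s u < d.x s ∧ u < low d s u ∧ d.lp s (low d s u) = u ∧
          d.rp (s + 1) (low d s u) = d.x s ∧ d.lp (s + 1) (low d s u) = d.lp s u ∧
          d.rp (s + 1) u = low d s u ∧ d.lp (s + 1) u = d.lp s u)) := by
  have T0 := hd.tree s hs.le
  have T1 := hd.tree (s + 1) hs
  have St := hd.step s hs
  have hx := St.mem
  obtain ⟨⟨⟨u1, u2⟩, u3, u4⟩, hu⟩ := hu
  have b0 := T0.bnd u u1 u2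
  rcases hu with ⟨h1, h2⟩ | ⟨h1, h2⟩
  · have e : low d s u = d.lp (s + 1) u := if_pos h1
    rw [e]
    obtain ⟨a1, a2, a3, a4, a5, a6⟩ := St.losR u h1 u2 u3 h2
    have c1 := T1.ancL u u1 u2 (by omega)
    obtain ⟨-, -, c4⟩ := St.lowR (d.lp (s + 1) u) a1 (by omega) a3 (by omega)
    rw [a4] at c4
    refine ⟨⟨⟨by omega, by omega⟩, a3, by omega⟩, ?_, ?_, Or.inl ⟨a1, a2, a4, a6, c4, rfl, a5⟩⟩
    · rintro ⟨-, ⟨-, g⟩ | ⟨g, -⟩⟩
      · exact g a6
      · omega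
    · unfold par
      rw [if_pos a1, a4]
  · have e : low d s u = d.rp (s + 1) u := if_neg (by omega)
    rw [e]
    obtain ⟨a1, a2, a3, a4, a5, a6⟩ := St.losL u u1 h1 u4 h2
    have c1 := T1.ancR u u1 u2 (by omega)
    obtain ⟨-, -, c4⟩ := St.lowL (d.rp (s + 1) u) (by omega) a1 a3 (by omega)
    rw [a4] at c4
    refine ⟨⟨⟨by omega, by omega⟩, by omega, a3⟩, ?_, ?_, Or.inr ⟨a1, a2, a4, a6, c4, rfl, a5⟩⟩
    · rintro ⟨-, ⟨g, -⟩ | ⟨-, g⟩⟩
      · omega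
      · exact g a6
    · unfold par
      rw [if_neg (by omega), a4]

theorem link_isl (d : Run) (hd : d.OK) (s : ℕ) (hs : s < d.m) (y : ℤ) (hy : isl d s y) :
    tch d s y ∧ ¬ up d s y ∧ y ≠ d.x s := by
  obtain ⟨h1, h2⟩ := hy
  obtain ⟨a1, a2, -, a4⟩ := link_core d hd s hs _ h1
  rw [h2] at a1 a2 a4
  exact ⟨a1, a2, by omega⟩

theorem p_LINK :
    S_LINK := by
  intro d hd s hs
  have T0 := hd.tree s hs.le
  have T1 := hd.tree (s + 1) hs
  have St := hd.step s hs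
  have hx := St.mem
  have bx := T0.bnd _ hx.1 hx.2
  refine ⟨fun u hu => ?_, fun y hy hu hi => ?_, fun y hy ht => ?_, ?_, fun y hy => ?_⟩
  · obtain ⟨a1, a2, a3, a4⟩ := link_core d hd s hs u hu
    refine ⟨a1, a2, a3, ?_, fun h => (link_isl d hd s hs u h).2.1 hu, a4⟩
    unfold isl
    rw [a3]
    exact ⟨hu, rfl⟩
  · obtain ⟨⟨y1, y2⟩, y3, y4⟩ := hy
    have b0 := T0.bnd y y1 y2
    refine ⟨fun h => ⟨?_, ?_⟩, fun h => ⟨?_, ?_⟩⟩
    · by_contra g
      exact hu ⟨⟨⟨y1, y2⟩, y3, y4⟩, Or.inl ⟨h, g⟩⟩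
    · by_contra g
      obtain ⟨g1, g2, -⟩ := St.lowR y h y2 y3 g
      have c0 := T0.bnd (d.rp s y) (by omega) g1
      have c2 := T0.ancR y y1 y2 g1
      have e : par d s y = d.rp s y := if_pos h
      refine hi ?_
      unfold isl
      rw [e]
      refine ⟨⟨⟨⟨by omega, g1⟩, by omega, by omega⟩, Or.inl ⟨by omega, by omega⟩⟩, ?_⟩
      unfold low
      rw [if_pos (by omega), g2]
    · by_contra g
      exact hu ⟨⟨⟨y1, y2⟩, y3, y4⟩, Or.inr ⟨h, g⟩⟩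
    · by_contra g
      obtain ⟨g1, g2, -⟩ := St.lowL y y1 h y4 g
      have c0 := T0.bnd (d.lp s y) g1 (by omega)
      have c2 := T0.ancL y y1 y2 g1
      have e : par d s y = d.lp s y := if_neg (by omega)
      refine hi ?_
      unfold isl
      rw [e]
      refine ⟨⟨⟨⟨g1, by omega⟩, by omega, by omega⟩, Or.inr ⟨by omega, by omega⟩⟩, ?_⟩
      unfold low
      rw [if_neg (by omega), g2]
  · have hne : y ≠ d.x s := by
      rintro rfl
      exact ht ⟨hy, by omega, by omega⟩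
    obtain ⟨e1, e2⟩ := St.off y hy.1 hy.2 hne fun h => ht ⟨hy, h.1, h.2⟩
    exact ⟨e1, e2, fun h => ht h.1, fun h => ht (link_isl d hd s hs y h).1⟩
  · refine ⟨⟨hx, by omega, by omega⟩, ?_, fun h => (link_isl d hd s hs _ h).2.2 rfl,
      St.root.1, St.root.2⟩
    rintro ⟨-, ⟨g, -⟩ | ⟨g, -⟩⟩ <;> omega
  · have r1 := St.root.1
    have r2 := St.root.2
    exact ⟨fun h => (T1.lamR _ y hx.1 hx.2 h (by have := hy.2; omega)).1,
      fun h => (T1.lamL _ y hx.1 hx.2 (by have := hy.1; omega) h).2⟩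

end Pool.Agent.P.MP_119182_lc.LU
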