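import Pool.Agent.P.MP_119182_lc.LU.Iface

/-! Step MIR. -/

set_option autoImplicit false

namespace Pool.Agent.P.MP_119182_lc.LU

open Finset
open scoped Classical
open NU (Run mr)

theorem mir_mm (y : ℤ) : mr (mr y) = y := by unfold mr; ring

theorem mir_keys (d : Run) (y : ℤ) : mr y ∈ d.mir.keys ↔ y ∈ d.keys := by
  simp only [Run.keys, Run.mir, mem_Ioo, mr]; omega

theorem p_MIR (hMIRA : S_MIRA) (hSIDE : S_SIDE) :
    S_MIR := by
  intro d c hd hc
  obtain ⟨A1, A2, A3, A4, A5, A6, A7, A8, A9⟩ := hMIRA d c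
  refine ⟨A8 hd, A9 hc, fun th => ?_, fun sg th hsg => ?_⟩
  · unfold UP
    symm
    refine card_bij (fun p _ => (p.1, mr p.2)) ?_ ?_ ?_
    · intro p hp
      simp only [mem_filter, mem_product] at hp ⊢
      refine ⟨⟨hp.1.1, (mir_keys d _).2 hp.1.2⟩, ?_⟩
      simpa only [Val.mir, mir_mm] using hp.2
    · intro p _ q _ h
      simp only [Prod.mk.injEq] at h
      refine Prod.ext h.1 ?_
      have := congrArg mr h.2
      simpa only [mir_mm] using this
    · intro q hq
      simp only [mem_filter, mem_product] at hq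
      refine ⟨(q.1, mr q.2), ?_, by simp only [mir_mm]⟩
      simp only [mem_filter, mem_product]
      refine ⟨⟨hq.1.1, (mir_keys d _).1 (by rw [mir_mm]; exact hq.1.2)⟩, ?_⟩
      simpa only [Val.mir] using hq.2
  · set S := (DEM d c sg).filter fun p => #(vis d c p.1 p.2.1 p.2.2) < th with hS
    have h1 : #(S.filter fun p => d.x p.2.2 < pos d c p.2.2 p.1) ≤ #(DR d c sg th) := by
      refine card_le_card fun p hp => ?_
      simp only [hS, mem_filter, DR] at hp ⊢
      exact ⟨hp.1.1, hp.1.2, hp.2⟩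
    have h2 : #(S.filter fun p => ¬ d.x p.2.2 < pos d c p.2.2 p.1) ≤ #(DR d.mir c.mir sg th) := by
      refine card_le_card_of_injOn (fun p => (mr p.1, p.2)) ?_ ?_
      · rintro ⟨w, t0, t1⟩ hp
        simp only [hS, coe_filter, mem_filter, DR, DEM, Set.mem_ofPred_eq, mem_product] at hp ⊢
        obtain ⟨⟨⟨hk, u0, g0, al, hv⟩, hvis⟩, hx⟩ := hp
        have hne := (hSIDE d c sg hd hc hsg w _ _ al).2.1 t1 al.le le_rfl
        refine ⟨⟨⟨(mir_keys d _).2 hk.1, hk.2⟩, ?_, ?_, ⟨al.le, al.lt, (A1 _).2 al.key, ?_, ?_, ?_⟩,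
          ?_⟩, ?_, ?_⟩
        · rw [A6, A3]; exact u0
        · rw [A6]; simpa only [Val.mir, mir_mm] using g0
        · rw [A6, A3]; exact al.lo
        · intro q q1 q2; rw [A6, A3]; exact al.nlo q q1 q2
        · intro q q1 q2; rw [A6]; simpa only [Val.mir, mir_mm] using al.deep q q1 q2
        · rw [A6, A4 _ _ al.lo, A5]; simpa only [Val.mir, mir_mm] using hv
        · have : vis d.mir c.mir (mr w) t0 t1 = vis d c w t0 t1 := by
            unfold vis
            refine filter_congr fun q _ => ?_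
            rw [A6, A2]
          rw [this]; exact hvis
        · rw [A6]; simp only [Run.mir, mr]; omega
      · intro p _ q _ h
        simp only [Prod.mk.injEq] at h
        refine Prod.ext ?_ h.2
        have := congrArg mr h.1
        simpa only [mir_mm] using this
    have := card_filter_add_card_filter_not (s := S) fun p => d.x p.2.2 < pos d c p.2.2 p.1
    omega

end Pool.Agent.P.MP_119182_lc.LU
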