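import Pool.Agent.P.MP_119182_lc.LU.Iface

/-! Step SIDE. -/

set_option autoImplicit false

namespace Pool.Agent.P.MP_119182_lc.LU

open Finset
open scoped Classical
open NU (Run mr)

/-- A visit on the left path is followed by another one. -/
theorem side_next (hPI : S_PI) (hSTAY : S_STAY) (hHOLD : S_HOLD) (d : Run) (c : Val) (sg : ℕ)
    (hd : d.OK) (hc : OK d c) (hsg : 1 ≤ sg) (w : ℤ) (s t : ℕ) (hal : Al d c sg w s t) (q : ℕ)
    (hsq : s ≤ q) (hqt : q < t) (ht : tch d q (pos d c q w)) (hx : pos d c q w < d.x q) :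
    ∃ r, q < r ∧ r ≤ t ∧ tch d r (pos d c r w) ∧ pos d c r w < d.x r := by
  have hqm : q < d.m := lt_trans hqt hal.lt
  obtain ⟨h, hh⟩ : ∃ h, pos d c (q + 1) w = h := ⟨_, rfl⟩
  have hpi : pi d c q (pos d c q w) = h := hh
  obtain ⟨-, -, hP3⟩ := (hPI d c hd).1 q hqm
  obtain ⟨hk, -, htc, -, hxx⟩ := hP3 (pos d c q w) ht.1
  rw [hpi] at hk htc hxx
  have a1 : tch d q h := htc.1 ht
  have a3 : h < d.x q := hxx.1 hx
  have a2 : ¬ up d q h := by
    have h1 := hal.nlo q hsq hqt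
    rwa [hh] at h1
  have hd1 : 4 * sg ≤ c.v0 (q + 1) h := by
    have h1 := hal.deep (q + 1) (by omega) hqt
    rwa [hh] at h1
  have hex : ∃ p, q + 1 ≤ p ∧ p < t + 1 ∧ d.lp (q + 1) h < d.x p ∧ d.x p < d.rp (q + 1) h := by
    by_contra hn
    obtain ⟨-, -, -, -, b5, b6⟩ := hSTAY d c hd hc (q + 1) (t + 1) h hk (by omega) hal.lt
      (fun p h1 h2 h3 => hn ⟨p, h1, h2, h3⟩)
    have hlo := hal.lo
    rw [b5 w hh] at hlo
    exact b6 t hqt (Nat.lt_succ_self t) hlo.1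
  obtain ⟨p, q1, q2, q3, q4⟩ := hex
  have hpm : p < d.m := lt_of_le_of_lt (Nat.lt_succ_iff.1 q2) hal.lt
  obtain ⟨r, hrq, hF⟩ := (hHOLD d hd).2.2.2.2.2.1 (q + 1) p _ _ q1 hpm q3 q4
  have hrt : r ≤ t := by omega
  have hN : Nx d (q + 1) h r := hF
  obtain ⟨f1, f2, f3, f4, f5⟩ := hF
  obtain ⟨g1, g2, -, -, b5, -⟩ := hSTAY d c hd hc (q + 1) r h hk f1 f2.le
    (fun q'' h3 h4 => f5 q'' h3 h4)
  have g3 := b5 w hh
  have hxr : h < d.x r := by
    by_contra hn
    have h0 := hc.turn q hqm h r a1 a2 hN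
      ⟨fun h1 => absurd h1 (not_lt.2 a3.le), fun _ => not_lt.1 hn⟩
    omega
  refine ⟨r, f1, hrt, ?_, ?_⟩
  · rw [g3]
    refine ⟨hk, ?_, ?_⟩
    · rw [g1]
      exact f3
    · rw [g2]
      exact f4
  · rw [g3]
    exact hxr

theorem p_SIDE (hLINK : S_LINK) (hPI : S_PI) (hSTAY : S_STAY) (hHOLD : S_HOLD) :
    S_SIDE := by
  intro d c sg hd hc hsg w s t hal
  have htm := hal.lt
  have hne : ∀ q, s ≤ q → q ≤ t → d.x q ≠ pos d c q w := by
    intro q h1 h2 he
    have hqm : q < d.m := lt_of_le_of_lt h2 htm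
    obtain ⟨-, -, -, ⟨-, l2, l3, -⟩, -⟩ := hLINK d hd q hqm
    have e : pos d c (q + 1) w = d.x q := by
      have e1 : pos d c (q + 1) w = pi d c q (pos d c q w) := rfl
      rw [e1, ← he]
      exact ((hPI d c hd).1 q hqm).2.1 _ l2 l3
    rcases lt_or_eq_of_le h2 with h3 | h3
    · have h4 := hal.deep (q + 1) (by omega) h3
      rw [e, hc.acc q hqm] at h4
      omega
    · have h4 := hal.lo
      rw [← h3, e] at h4
      exact l2 h4
  refine ⟨?_, hne, ?_⟩
  · have hk : key d (pos d c t w) := ((hPI d c hd).2 t htm.le).1 w hal.key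
    exact ((((hPI d c hd).1 t htm).2.2 _ hk).2.2.1).2 hal.lo.1
  · intro hxt
    have main : ∀ n q, t - q ≤ n → s ≤ q → q ≤ t → tch d q (pos d c q w) →
        ¬ pos d c q w < d.x q := by
      intro n
      induction n with
      | zero =>
        intro q h0 _ h2 _ h4
        have e : q = t := by omega
        rw [e] at h4
        exact lt_asymm hxt h4
      | succ n ih =>
        intro q h0 h1 h2 h3 h4
        rcases lt_or_eq_of_le h2 with h5 | h5
        · obtain ⟨r, r1, r2, r3, r4⟩ :=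
            side_next hPI hSTAY hHOLD d c sg hd hc hsg w s t hal q h1 h5 h3 h4
          exact ih r (by omega) (by omega) r2 r3 r4
        · rw [h5] at h4
          exact lt_asymm hxt h4
    intro q h1 h2 h3
    exact ⟨h3, lt_of_le_of_ne (not_lt.1 (main _ q le_rfl h1 h2 h3)) (hne q h1 h2)⟩

end Pool.Agent.P.MP_119182_lc.LU
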